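import Pool.Agent.T9h35.Sharp.Arith

set_option autoImplicit false

namespace Pool.Agent.T9h35.Sharp

open Finset

theorem exists_large_exp (A : ℕ) : ∃ K1, ∀ l : ℕ, K1 ≤ l →
    (576 * A ^ 8 * l ^ 2) ^ (2 * A) ≤ 2 ^ l := by
  have h := tendsto_pow_const_div_const_pow_of_one_lt (4 * A) (r := (2 : ℝ)) (by norm_num)
  have hpos : (0 : ℝ) < (576 * (A : ℝ) ^ 8 + 1) ^ (2 * A) := by positivity
  have h2 : ∀ᶠ l : ℕ in Filter.atTop,
      (l : ℝ) ^ (4 * A) / 2 ^ l < 1 / (576 * (A : ℝ) ^ 8 + 1) ^ (2 * A) :=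
    h.eventually_lt_const (by positivity)
  obtain ⟨K1, hK1⟩ := Filter.eventually_atTop.1 h2
  refine ⟨K1, fun l hl => ?_⟩
  have h3 := hK1 l hl
  rw [div_lt_div_iff₀ (by positivity) (by positivity), one_mul] at h3
  have h4 : ((576 * A ^ 8 * l ^ 2 : ℕ) : ℝ) ^ (2 * A) ≤ 2 ^ l := by
    push_cast
    calc (576 * (A : ℝ) ^ 8 * (l : ℝ) ^ 2) ^ (2 * A)
        ≤ ((576 * (A : ℝ) ^ 8 + 1) * (l : ℝ) ^ 2) ^ (2 * A) := by
          apply pow_le_pow_left₀ (by positivity)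
          apply mul_le_mul_of_nonneg_right _ (by positivity)
          linarith
      _ = (l : ℝ) ^ (4 * A) * (576 * (A : ℝ) ^ 8 + 1) ^ (2 * A) := by
          rw [mul_pow, ← pow_mul, show 2 * (2 * A) = 4 * A by ring, mul_comm]
      _ ≤ 2 ^ l := h3.le
  exact_mod_cast h4

theorem cubic_ineq (t : ℕ) (ht : 1 ≤ t) :
    (16 * t + 2) * (8 * t + 1) * (8 * t + 1) ≤ 1024 * t * t * (t + 1) := by
  obtain ⟨a, rfl⟩ : ∃ a, t = a + 1 := ⟨t - 1, by omega⟩
  exact Nat.le.intro (k := 640 * a ^ 2 + 1232 * a + 590) (by ring)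

theorem exp_ineq (t M A e : ℕ) (ht : 1 ≤ t) (hM : 8 * t ≤ M) (hA : A = 16 * t + 2) :
    2 * e * M * (t + 1) * (8 * t) + (M + 1) * (A * e) * (8 * t + 1) * t ≤
      A * e * M * (t + 1) * (8 * t) := by
  have h1 : (M + 1) * (8 * t) ≤ M * (8 * t + 1) := by
    calc (M + 1) * (8 * t) = M * (8 * t) + 8 * t := by ring
      _ ≤ M * (8 * t) + M := Nat.add_le_add_left hM _
      _ = M * (8 * t + 1) := by ring
  have h2 : (M + 1) * A * (8 * t + 1) * t ≤ 16 * t * M * (t + 1) * (8 * t) := by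
    have h3 : 8 * ((M + 1) * A * (8 * t + 1) * t) ≤ 8 * (16 * t * M * (t + 1) * (8 * t)) := by
      calc 8 * ((M + 1) * A * (8 * t + 1) * t) = ((M + 1) * (8 * t)) * (A * (8 * t + 1)) := by
            ring
        _ ≤ (M * (8 * t + 1)) * (A * (8 * t + 1)) := Nat.mul_le_mul_right _ h1
        _ = M * ((16 * t + 2) * (8 * t + 1) * (8 * t + 1)) := by rw [hA]; ring
        _ ≤ M * (1024 * t * t * (t + 1)) := Nat.mul_le_mul_left _ (cubic_ineq t ht)
        _ = 8 * (16 * t * M * (t + 1) * (8 * t)) := by ring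
    exact Nat.le_of_mul_le_mul_left h3 (by norm_num)
  calc 2 * e * M * (t + 1) * (8 * t) + (M + 1) * (A * e) * (8 * t + 1) * t
      = e * (2 * M * (t + 1) * (8 * t) + (M + 1) * A * (8 * t + 1) * t) := by ring
    _ ≤ e * (2 * M * (t + 1) * (8 * t) + 16 * t * M * (t + 1) * (8 * t)) :=
        Nat.mul_le_mul_left _ (Nat.add_le_add_left h2 _)
    _ = A * e * M * (t + 1) * (8 * t) := by rw [hA]; ring

/-- The number of rounds is sufficient. -/
theorem rounds (m e l W : ℕ) (hm : 2 ≤ m) (hl : 1 ≤ l) (he : e ≤ m) (hW : W < 2 ^ (l + 1))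
    (hW1 : 1 ≤ W) :
    m ^ m * ((3 * W ^ e + 1) * ((m + 1) * W + 1) ^ m) < 2 ^ (6 * m ^ 2 * l) := by
  have h1 : m ^ m ≤ 2 ^ (m * m) := by
    rw [pow_mul]
    exact Nat.pow_le_pow_left (Nat.lt_two_pow_self).le _
  have h2 : 3 * W ^ e + 1 ≤ 2 ^ (2 + (l + 1) * m) := by
    have h3 : 1 ≤ W ^ m := Nat.one_le_pow _ _ hW1
    have h4 : W ^ e ≤ W ^ m := Nat.pow_le_pow_right hW1 he
    have h5 : W ^ m ≤ (2 ^ (l + 1)) ^ m := Nat.pow_le_pow_left hW.le _
    rw [pow_add, pow_mul]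
    omega
  have h3 : ((m + 1) * W + 1) ^ m ≤ 2 ^ ((m + 1 + (l + 1)) * m) := by
    rw [pow_mul]
    apply Nat.pow_le_pow_left
    have h4 : m + 1 < 2 ^ (m + 1) := Nat.lt_two_pow_self
    calc (m + 1) * W + 1 ≤ (m + 1) * W + W := by omega
      _ = (m + 1 + 1) * W := by ring
      _ ≤ 2 ^ (m + 1) * 2 ^ (l + 1) := Nat.mul_le_mul (by omega) hW.le
      _ = 2 ^ (m + 1 + (l + 1)) := by rw [← pow_add]
  calc m ^ m * ((3 * W ^ e + 1) * ((m + 1) * W + 1) ^ m)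
      ≤ 2 ^ (m * m) * (2 ^ (2 + (l + 1) * m) * 2 ^ ((m + 1 + (l + 1)) * m)) :=
        Nat.mul_le_mul h1 (Nat.mul_le_mul h2 h3)
    _ = 2 ^ (m * m + (2 + (l + 1) * m + (m + 1 + (l + 1)) * m)) := by rw [← pow_add, ← pow_add]
    _ < 2 ^ (6 * m ^ 2 * l) := by
        apply Nat.pow_lt_pow_right (by norm_num)
        obtain ⟨a, rfl⟩ : ∃ a, m = a + 2 := ⟨m - 2, by omega⟩
        obtain ⟨c, rfl⟩ : ∃ c, l = c + 1 := ⟨l - 1, by omega⟩
        ring_nf
        nlinarith [Nat.zero_le (a * c), Nat.zero_le (a ^ 2 * c), Nat.zero_le a, Nat.zero_le c,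
          Nat.zero_le (a ^ 2)]

/-- The choice of the parameters. -/
theorem params_exp (t : ℕ) (ht : 1 ≤ t) : ∃ K, 1 ≤ K ∧ ∀ n k e : ℕ, 1 ≤ e → K * e ≤ k →
    (K * e) ^ K ≤ n / k →
    ∃ M m w u r : ℕ, 1 ≤ M ∧ 2 ≤ m ∧ 1 ≤ r ∧ k = u + M * (m + 1) ∧
      M * (m + 1) * w + u ≤ n ∧ 1 ≤ w ∧
      m ^ m * ((3 * (n / k) ^ e + 1) * ((m + 1) * w + 1) ^ m) < 2 ^ r ∧
      (((n / k) ^ e * (2 ^ (m + 1) * (2 * m * (m * r)) ^ m) ^ 2) ^ M) ^ (t + 1) *
        (n.choose k) ^ t ≤ ((w ^ (m + 1)) ^ M) ^ (t + 1) := by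
  obtain ⟨A, hA⟩ : ∃ A, A = 16 * t + 2 := ⟨_, rfl⟩
  obtain ⟨K1, hK1⟩ := exists_large_exp A
  refine ⟨32 * (A * A) + K1, by nlinarith, ?_⟩
  intro n k e he1 hek hew
  obtain ⟨K, hK⟩ : ∃ K, K = 32 * (A * A) + K1 := ⟨_, rfl⟩
  obtain ⟨W, hW⟩ : ∃ W, W = n / k := ⟨_, rfl⟩
  rw [← hK] at hek hew
  rw [← hW] at hew ⊢
  obtain ⟨l, hl⟩ : ∃ l, l = Nat.log 2 W := ⟨_, rfl⟩
  have hA18 : 18 ≤ A := by omega
  have hAA : 32 * (A * A) ≤ K := by omega
  have hA32 : 32 * A ≤ K := by nlinarith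
  have hKpos : 2 ≤ K := by omega
  have hKe : K ≤ K * e := Nat.le_mul_of_pos_right _ he1
  have hKW : 2 ^ K ≤ W :=
    (Nat.pow_le_pow_left (hKpos.trans hKe) K).trans hew
  have hW1 : 1 ≤ W := le_trans (Nat.one_le_two_pow) hKW
  have hlK : K ≤ l := by
    rw [hl]
    exact Nat.le_log_of_pow_le (by norm_num) hKW
  have hl1 : 1 ≤ l := by omega
  have hW2 : 2 ^ l ≤ W := by
    rw [hl]
    exact Nat.pow_log_le_self _ (by omega)
  have hWl : W < 2 ^ (l + 1) := by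
    rw [hl]
    exact Nat.lt_pow_succ_log_self (by norm_num) _
  have hk1 : 1 ≤ k := by omega
  -- the number of parts of a block
  obtain ⟨m, hm⟩ : ∃ m, m + 1 = A * e := ⟨A * e - 1, by
    have : 1 ≤ A * e := Nat.mul_pos (by omega) he1
    omega⟩
  have hm2 : 2 ≤ m := by
    have : 18 * 1 ≤ A * e := Nat.mul_le_mul hA18 he1
    omega
  have hem : e ≤ m := by
    have : 2 * e ≤ A * e := Nat.mul_le_mul_right _ (by omega)
    omega
  obtain ⟨M, hM⟩ : ∃ M, M = k / (m + 1) := ⟨_, rfl⟩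
  obtain ⟨u, hu⟩ : ∃ u, u = k % (m + 1) := ⟨_, rfl⟩
  have hkM : k = u + M * (m + 1) := by
    rw [hM, hu, add_comm, mul_comm]
    exact (Nat.div_add_mod k (m + 1)).symm
  have hku : k ≤ (M + 1) * (m + 1) := by
    have : u < m + 1 := by rw [hu]; exact Nat.mod_lt _ (by omega)
    rw [hkM]
    nlinarith
  have hM8 : 8 * t ≤ M := by
    rw [hM]
    apply (Nat.le_div_iff_mul_le (by omega)).2
    rw [hm]
    calc 8 * t * (A * e) = (8 * t * A) * e := by ring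
      _ ≤ K * e := by
          apply Nat.mul_le_mul_right
          refine le_trans ?_ hAA
          have : t * A ≤ A * A := Nat.mul_le_mul_right _ (by omega)
          nlinarith
      _ ≤ k := hek
  obtain ⟨r, hr⟩ : ∃ r, r = 6 * m ^ 2 * l := ⟨_, rfl⟩
  have hr1 : 1 ≤ r := by
    rw [hr]
    have : 0 < 6 * m ^ 2 * l := by positivity
    exact this
  refine ⟨M, m, W, u, r, by omega, hm2, hr1, hkM, ?_, hW1, ?_, ?_⟩
  · calc M * (m + 1) * W + u ≤ M * (m + 1) * W + u * W :=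
          Nat.add_le_add_left (Nat.le_mul_of_pos_right _ hW1) _
      _ = k * W := by rw [hkM]; ring
      _ ≤ n := by rw [hW]; exact Nat.mul_div_le _ _
  · rw [hr]
    exact rounds m e l W hm2 hl1 hem hWl hW1
  · -- bounds
    obtain ⟨R, hR⟩ : ∃ R, R = 576 * A ^ 8 * l ^ 2 * e ^ 8 := ⟨_, rfl⟩
    have hR1 : (2 ^ (m + 1) * (2 * m * (m * r)) ^ m) ^ 2 ≤ R ^ (m + 1) := by
      have h1 : 1 ≤ 2 * m * (m * r) := by
        have : 0 < 2 * m * (m * r) := by positivity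
        exact this
      calc (2 ^ (m + 1) * (2 * m * (m * r)) ^ m) ^ 2
          ≤ (2 ^ (m + 1) * (2 * m * (m * r)) ^ (m + 1)) ^ 2 :=
            Nat.pow_le_pow_left (Nat.mul_le_mul_left _ (Nat.pow_le_pow_right h1 (by omega))) _
        _ = ((2 * (2 * m * (m * r))) ^ 2) ^ (m + 1) := by
            rw [← mul_pow, ← pow_mul, ← pow_mul, mul_comm 2 (m + 1)]
        _ = (576 * m ^ 8 * l ^ 2) ^ (m + 1) := by
            congr 1
            rw [hr]
            ring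
        _ ≤ R ^ (m + 1) := by
            apply Nat.pow_le_pow_left
            rw [hR]
            calc 576 * m ^ 8 * l ^ 2 ≤ 576 * (A * e) ^ 8 * l ^ 2 :=
                  Nat.mul_le_mul_right _ (Nat.mul_le_mul_left _ (Nat.pow_le_pow_left (by omega) _))
              _ = 576 * A ^ 8 * l ^ 2 * e ^ 8 := by ring
    have hR2 : R ^ A ≤ W := by
      apply (Nat.pow_le_pow_iff_left (show 2 ≠ 0 by norm_num)).1
      calc (R ^ A) ^ 2 = (576 * A ^ 8 * l ^ 2) ^ (2 * A) * e ^ (16 * A) := by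
            rw [hR, ← pow_mul, mul_pow, ← pow_mul]
            ring_nf
        _ ≤ 2 ^ l * W := by
            apply Nat.mul_le_mul (hK1 l (by omega))
            calc e ^ (16 * A) ≤ e ^ K := Nat.pow_le_pow_right he1 (by omega)
              _ ≤ (K * e) ^ K :=
                  Nat.pow_le_pow_left (Nat.le_mul_of_pos_left _ (by omega)) _
              _ ≤ W := hew
        _ ≤ W * W := Nat.mul_le_mul_right _ hW2
        _ = W ^ 2 := by ring
    have hQ : W ^ e * (2 ^ (m + 1) * (2 * m * (m * r)) ^ m) ^ 2 ≤ W ^ (2 * e) := by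
      have e1 : W ^ (2 * e) = W ^ e * W ^ e := by rw [two_mul, pow_add]
      rw [e1]
      apply Nat.mul_le_mul_left
      refine hR1.trans ?_
      rw [hm, pow_mul]
      exact Nat.pow_le_pow_left hR2 _
    have hC : n.choose k ≤ (6 * W) ^ k := by
      apply choose_le n k W hk1 hW1
      rw [hW, mul_comm]
      exact Nat.lt_mul_div_succ _ hk1
    have h6 : 6 ^ (8 * t) ≤ W := by
      calc 6 ^ (8 * t) ≤ 8 ^ (8 * t) := Nat.pow_le_pow_left (by norm_num) _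
        _ = 2 ^ (24 * t) := by
            rw [show (8 : ℕ) = 2 ^ 3 by norm_num, ← pow_mul]
            ring_nf
        _ ≤ 2 ^ l := by
            apply Nat.pow_le_pow_right (by norm_num)
            nlinarith
        _ ≤ W := hW2
    have hCT : (n.choose k) ^ (8 * t) ≤ W ^ (k * (8 * t + 1)) := by
      calc (n.choose k) ^ (8 * t) ≤ ((6 * W) ^ k) ^ (8 * t) := Nat.pow_le_pow_left hC _
        _ = (6 ^ (8 * t)) ^ k * W ^ (k * (8 * t)) := by
            rw [mul_pow, mul_pow, ← pow_mul, ← pow_mul, ← pow_mul]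
            ring_nf
        _ ≤ W ^ k * W ^ (k * (8 * t)) := Nat.mul_le_mul_right _ (Nat.pow_le_pow_left h6 _)
        _ = W ^ (k * (8 * t + 1)) := by rw [← pow_add]; ring_nf
    have hexp := exp_ineq t M A e ht hM8 hA
    obtain ⟨Q, hQdef⟩ : ∃ Q, Q = W ^ e * (2 ^ (m + 1) * (2 * m * (m * r)) ^ m) ^ 2 := ⟨_, rfl⟩
    rw [← hQdef] at hQ ⊢
    apply (Nat.pow_le_pow_iff_left (show 8 * t ≠ 0 by omega)).1
    calc ((Q ^ M) ^ (t + 1) * (n.choose k) ^ t) ^ (8 * t)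
        = Q ^ (M * (t + 1) * (8 * t)) * ((n.choose k) ^ (8 * t)) ^ t := by
          rw [mul_pow, ← pow_mul, ← pow_mul, ← pow_mul, ← pow_mul, mul_comm t (8 * t)]
          rw [mul_assoc M (t + 1) (8 * t)]
      _ ≤ (W ^ (2 * e)) ^ (M * (t + 1) * (8 * t)) * (W ^ (k * (8 * t + 1))) ^ t :=
          Nat.mul_le_mul (Nat.pow_le_pow_left hQ _) (Nat.pow_le_pow_left hCT _)
      _ = W ^ (2 * e * M * (t + 1) * (8 * t) + k * (8 * t + 1) * t) := by
          rw [← pow_mul, ← pow_mul, ← pow_add]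
          ring_nf
      _ ≤ W ^ (A * e * M * (t + 1) * (8 * t)) := by
          apply Nat.pow_le_pow_right hW1
          refine le_trans ?_ hexp
          apply Nat.add_le_add_left
          apply Nat.mul_le_mul_right
          apply Nat.mul_le_mul_right
          rw [← hm]
          exact hku
      _ = (((W ^ (m + 1)) ^ M) ^ (t + 1)) ^ (8 * t) := by
          rw [hm, ← pow_mul, ← pow_mul, ← pow_mul]
          congr 1
          ring

end Pool.Agent.T9h35.Sharp
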