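import Mathlib

set_option autoImplicit false

namespace Pool.Agent.T9h35.Sharp

open Finset
open scoped Classical

theorem exists_perm {n : ℕ} {S T : Finset (Fin n)} (h : S.card = T.card) :
    ∃ σ : Equiv.Perm (Fin n), S.map σ.toEmbedding = T := by
  obtain ⟨e⟩ : Nonempty ({x // x ∈ S} ≃ {x // x ∈ T}) := by
    apply Fintype.card_eq.1
    rw [Fintype.card_coe, Fintype.card_coe, h]
  refine ⟨e.extendSubtype, ?_⟩
  apply eq_of_subset_of_card_le
  · intro x hx
    rw [mem_map] at hx
    obtain ⟨a, ha, rfl⟩ := hx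
    exact e.extendSubtype_mem a ha
  · rw [card_map, h]

/-- The number of permutations that map `T` to `S`. -/
noncomputable def cnt {n : ℕ} (S T : Finset (Fin n)) : ℕ :=
  (univ.filter fun π : Equiv.Perm (Fin n) => T.map π.toEmbedding = S).card

theorem cnt_le {n : ℕ} {S T S' T' : Finset (Fin n)} (hS : S.card = S'.card)
    (hT : T.card = T'.card) : cnt S T ≤ cnt S' T' := by
  obtain ⟨σ, hσ⟩ := exists_perm hS
  obtain ⟨τ, hτ⟩ := exists_perm hT.symm
  apply card_le_card_of_injOn (fun π => τ.trans (π.trans σ))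
  · intro π hπ
    rw [mem_coe, mem_filter] at hπ ⊢
    refine ⟨mem_univ _, ?_⟩
    rw [← hσ, ← hπ.2, ← hτ, map_map, map_map]
    rfl
  · intro π _ π' _ h
    ext x
    have := congrArg (fun ρ : Equiv.Perm (Fin n) => ρ (τ.symm x)) h
    simp only [Equiv.trans_apply, Equiv.apply_symm_apply] at this
    rw [σ.injective this]

theorem cnt_eq {n : ℕ} {S T S' T' : Finset (Fin n)} (hS : S.card = S'.card)
    (hT : T.card = T'.card) : cnt S T = cnt S' T' :=
  le_antisymm (cnt_le hS hT) (cnt_le hS.symm hT.symm)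

/-- Averaging over all permutations. -/
theorem averaging {n k : ℕ} (F : Finset (Finset (Fin n))) (hF : ∀ S ∈ F, S.card = k)
    {Y : Type} [Fintype Y] (T : Y → Finset (Fin n)) (hT : ∀ y, (T y).card = k) (B : ℕ)
    (hB : ∀ π : Equiv.Perm (Fin n),
      (univ.filter fun y => (T y).map π.toEmbedding ∈ F).card ≤ B) :
    F.card * Fintype.card Y ≤ B * n.choose k := by
  rcases isEmpty_or_nonempty Y with hY | ⟨⟨y₀⟩⟩
  · rw [Fintype.card_eq_zero, mul_zero]
    exact Nat.zero_le _
  obtain ⟨c₀, hc₀⟩ : ∃ c₀, c₀ = cnt (T y₀) (T y₀) := ⟨_, rfl⟩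
  have hall : Fintype.card (Equiv.Perm (Fin n)) = n.choose k * c₀ := by
    have h1 : (univ : Finset (Equiv.Perm (Fin n))).card =
        ∑ S ∈ powersetCard k (univ : Finset (Fin n)),
          (univ.filter fun π : Equiv.Perm (Fin n) => (T y₀).map π.toEmbedding = S).card := by
      apply card_eq_sum_card_fiberwise
      intro π _
      rw [mem_coe, mem_powersetCard]
      exact ⟨subset_univ _, by rw [card_map, hT]⟩
    rw [← card_univ, h1]
    have h2 : ∀ S ∈ powersetCard k (univ : Finset (Fin n)),
        (univ.filter fun π : Equiv.Perm (Fin n) => (T y₀).map π.toEmbedding = S).card = c₀ := by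
      intro S hS
      rw [hc₀]
      exact cnt_eq (by rw [(mem_powersetCard.1 hS).2, hT]) rfl
    rw [sum_congr rfl h2, sum_const, card_powersetCard, card_univ, Fintype.card_fin, smul_eq_mul]
  have hpos : 0 < c₀ := by
    have h1 : 0 < Fintype.card (Equiv.Perm (Fin n)) := Fintype.card_pos
    rw [hall] at h1
    exact Nat.pos_of_mul_pos_left h1
  have hsum : F.card * Fintype.card Y * c₀ = ∑ π : Equiv.Perm (Fin n),
      (univ.filter fun y => (T y).map π.toEmbedding ∈ F).card := by
    have h1 : ∀ π : Equiv.Perm (Fin n), (univ.filter fun y => (T y).map π.toEmbedding ∈ F).card =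
        ∑ y : Y, ∑ S ∈ F, if (T y).map π.toEmbedding = S then 1 else 0 := by
      intro π
      rw [card_filter]
      refine sum_congr rfl fun y _ => ?_
      rw [sum_ite_eq]
    rw [sum_congr rfl fun π _ => h1 π, sum_comm]
    have h2 : ∀ y : Y, (∑ π : Equiv.Perm (Fin n), ∑ S ∈ F,
        if (T y).map π.toEmbedding = S then 1 else 0) = F.card * c₀ := by
      intro y
      rw [sum_comm]
      have h3 : ∀ S ∈ F, (∑ π : Equiv.Perm (Fin n),
          if (T y).map π.toEmbedding = S then 1 else 0) = c₀ := by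
        intro S hS
        rw [← card_filter, hc₀]
        exact cnt_eq (by rw [hF S hS, hT]) (by rw [hT, hT])
      rw [sum_congr rfl h3, sum_const, smul_eq_mul]
    rw [sum_congr rfl fun y _ => h2 y, sum_const, card_univ, smul_eq_mul]
    ring
  apply Nat.le_of_mul_le_mul_right _ hpos
  calc F.card * Fintype.card Y * c₀ = ∑ π : Equiv.Perm (Fin n),
      (univ.filter fun y => (T y).map π.toEmbedding ∈ F).card := hsum
    _ ≤ ∑ _π : Equiv.Perm (Fin n), B := sum_le_sum fun π _ => hB π
    _ = B * n.choose k * c₀ := by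
        rw [sum_const, card_univ, smul_eq_mul, hall]
        ring

end Pool.Agent.T9h35.Sharp
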