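import Pool.Agent.T9h35.Sharp.Tree

set_option autoImplicit false
set_option linter.unusedSectionVars false

namespace Pool.Agent.T9h35.Sharp

open Finset Pool.Agent.T9h16
open scoped Classical

/-- Points of the block: `κ` parts with `w` points each. -/
abbrev Vx (κ w : ℕ) : Type := Fin κ × Fin w

/-- Variables of the block: pairs of points in different parts. -/
abbrev EE (κ w : ℕ) : Type := {p : Vx κ w × Vx κ w // p.1.1 < p.2.1}

/-- The positive test given by the transversal `φ`. -/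
def posG {κ w : ℕ} (φ : Fin κ → Fin w) : Set (EE κ w) :=
  {e | φ e.1.1.1 = e.1.1.2 ∧ φ e.1.2.1 = e.1.2.2}

/-- The negative test given by the colouring `χ`. -/
def negG {κ w m : ℕ} (χ : Vx κ w → Fin m) : Set (EE κ w) := {e | χ e.1.1 ≠ χ e.1.2}

/-- The partial colouring `ρ` gives two points of `W` the same colour. -/
def HitC {V : Type} {m : ℕ} (ρ : Finset (V × Fin m)) (W : Finset V) : Prop :=
  ∃ u ∈ W, ∃ v ∈ W, u ≠ v ∧ ∃ a, (u, a) ∈ ρ ∧ (v, a) ∈ ρ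

section
variable {κ w m : ℕ} (c : ℕ)

/-- `h` has a pair of approximators, correct outside of the error sets. -/
def Appr (PE : Finset (Fin κ → Fin w)) (NE : Finset (Vx κ w → Fin m)) (h : Set (EE κ w) → Prop) :
    Prop :=
  ∃ (𝒲 : Set (Finset (Vx κ w))) (𝒞 : Set (Finset (Vx κ w × Fin m))),
    (∀ W ∈ 𝒲, W.card ≤ m) ∧ (∀ ρ ∈ 𝒞, ρ.card ≤ c) ∧ (∀ W ∈ 𝒲, ∀ ρ ∈ 𝒞, HitC ρ W) ∧
    (∀ φ, φ ∉ PE → h (posG φ) → ∃ W ∈ 𝒲, ∀ v ∈ W, φ v.1 = v.2) ∧
    (∀ χ, χ ∉ NE → ¬ h (negG χ) → ∃ ρ ∈ 𝒞, ∀ x ∈ ρ, χ x.1 = x.2)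

variable {c}

theorem Appr.mono {PE PE' : Finset (Fin κ → Fin w)} {NE NE' : Finset (Vx κ w → Fin m)}
    {h : Set (EE κ w) → Prop} (hP : PE ⊆ PE') (hN : NE ⊆ NE') (H : Appr c PE NE h) :
    Appr c PE' NE' h := by
  obtain ⟨𝒲, 𝒞, h1, h2, h3, h4, h5⟩ := H
  exact ⟨𝒲, 𝒞, h1, h2, h3, fun φ hφ => h4 φ (fun h => hφ (hP h)),
    fun χ hχ => h5 χ (fun h => hχ (hN h))⟩

theorem Appr.congr {PE : Finset (Fin κ → Fin w)} {NE : Finset (Vx κ w → Fin m)}
    {h h' : Set (EE κ w) → Prop} (hh : ∀ z, h' z ↔ h z) (H : Appr c PE NE h) :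
    Appr c PE NE h' := by
  obtain ⟨𝒲, 𝒞, h1, h2, h3, h4, h5⟩ := H
  exact ⟨𝒲, 𝒞, h1, h2, h3, fun φ hφ h => h4 φ hφ ((hh _).1 h),
    fun χ hχ h => h5 χ hχ (fun h' => h ((hh _).2 h'))⟩

theorem appr_leaf (hm : 2 ≤ m) (hc : 2 ≤ c) {h : Set (EE κ w) → Prop} (hh : Leaf h) :
    Appr (m := m) c ∅ ∅ h := by
  rcases hh with ⟨e, he⟩ | ⟨t, ht⟩
  · have hne : e.1.1 ≠ e.1.2 := by
      intro h
      have h1 := e.2
      rw [h] at h1
      exact lt_irrefl _ h1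
    refine ⟨{{e.1.1, e.1.2}}, {ρ | ∃ a, ρ = {(e.1.1, a), (e.1.2, a)}}, ?_, ?_, ?_, ?_, ?_⟩
    · rintro W rfl
      exact (card_le_two).trans hm
    · rintro ρ ⟨a, rfl⟩
      exact (card_le_two).trans hc
    · rintro W rfl ρ ⟨a, rfl⟩
      exact ⟨e.1.1, by simp, e.1.2, by simp, hne, a, by simp, by simp⟩
    · intro φ _ hφ
      refine ⟨_, rfl, ?_⟩
      have := (he _).1 hφ
      intro v hv
      rw [mem_insert, mem_singleton] at hv
      rcases hv with rfl | rfl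
      · exact this.1
      · exact this.2
    · intro χ _ hχ
      rw [he] at hχ
      have hχ' : χ e.1.1 = χ e.1.2 := by
        by_contra hcon
        exact hχ hcon
      refine ⟨_, ⟨χ e.1.1, rfl⟩, ?_⟩
      intro x hx
      rw [mem_insert, mem_singleton] at hx
      rcases hx with rfl | rfl
      · rfl
      · exact hχ'.symm
  · by_cases t
    case pos htt =>
      refine ⟨{∅}, ∅, ?_, ?_, ?_, ?_, ?_⟩
      · rintro W rfl; simp
      · intro F hF; exact hF.elim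
      · intro W _ F hF; exact hF.elim
      · intro φ _ _
        exact ⟨∅, rfl, by simp⟩
      · intro χ _ hχ
        exact (hχ ((ht _).2 htt)).elim
    case neg htt =>
      refine ⟨∅, {∅}, ?_, ?_, ?_, ?_, ?_⟩
      · intro F hF; exact hF.elim
      · rintro W rfl; simp
      · intro W hW; exact hW.elim
      · intro φ _ hφ
        exact (htt ((ht _).1 hφ)).elim
      · intro χ _ _
        exact ⟨∅, rfl, by simp⟩

theorem appr_and (hw : 1 ≤ w) (hc : 1 ≤ c) {PE : Finset (Fin κ → Fin w)}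
    {NE : Finset (Vx κ w → Fin m)} {p q : Set (EE κ w) → Prop}
    (hp : Appr c PE NE p) (hq : Appr c PE NE q) :
    ∃ D : Finset (Fin κ → Fin w),
      D.card * w ^ (m + 1) ≤ (c * c) ^ (m + 1) * Fintype.card (Fin κ → Fin w) ∧
      Appr c (PE ∪ D) NE (fun z => p z ∧ q z) := by
  obtain ⟨𝒲₁, 𝒞₁, h1, h2, h3, h4, h5⟩ := hp
  obtain ⟨𝒲₂, 𝒞₂, k1, k2, k3, k4, k5⟩ := hq
  set R : Set (Finset (Finset (Vx κ w))) :=
    {r | ∃ ρ ∈ 𝒞₁ ∪ 𝒞₂, r = ((ρ ×ˢ ρ).filter fun x => x.1.1 ≠ x.2.1 ∧ x.1.2 = x.2.2).image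
      fun x => {x.1.1, x.2.1}} with hR
  have hRc : ∀ r ∈ R, r.card ≤ c * c := by
    rintro r ⟨ρ, hρ, rfl⟩
    have hρc : ρ.card ≤ c := by
      rcases hρ with hρ | hρ
      · exact h2 ρ hρ
      · exact k2 ρ hρ
    refine card_image_le.trans ((card_filter_le _ _).trans ?_)
    rw [card_product]
    exact Nat.mul_le_mul hρc hρc
  have hbr := branching (Ω := Fin κ → Fin w) (X := Vx κ w) (fun φ v => φ v.1 = v.2) w (c * c) m hw
    (Nat.mul_pos hc hc) (fun Y => by convert card_prescribed w Y) R hRc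
  refine ⟨_, hbr, ?_⟩
  refine ⟨{W | W.card ≤ m ∧ ∀ ρ ∈ 𝒞₁ ∪ 𝒞₂, HitC ρ W}, 𝒞₁ ∪ 𝒞₂, fun W hW => hW.1, ?_,
    fun W hW F hF => hW.2 F hF, ?_, ?_⟩
  · rintro F (hF | hF)
    · exact h2 F hF
    · exact k2 F hF
  · rintro φ hφ ⟨hpz, hqz⟩
    rw [notMem_union] at hφ
    obtain ⟨W₁, hW₁, hφ₁⟩ := h4 φ hφ.1 hpz
    obtain ⟨W₂, hW₂, hφ₂⟩ := k4 φ hφ.1 hqz
    have hD := hφ.2
    simp only [mem_filter, mem_univ, true_and, not_and, not_forall, not_exists] at hD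
    have hsat : ∀ r ∈ R, ∃ O ∈ r, ∀ v ∈ O, φ v.1 = v.2 := by
      rintro r ⟨ρ, hρ, rfl⟩
      rcases hρ with hρ | hρ
      · obtain ⟨u, hu, v, hv, hne, a, hua, hva⟩ := h3 W₁ hW₁ ρ hρ
        refine ⟨{u, v}, mem_image.2 ⟨((u, a), (v, a)), ?_, rfl⟩, ?_⟩
        · rw [mem_filter, mem_product]
          exact ⟨⟨hua, hva⟩, hne, rfl⟩
        · intro x hx
          rw [mem_insert, mem_singleton] at hx
          rcases hx with rfl | rfl
          · exact hφ₁ _ hu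
          · exact hφ₁ _ hv
      · obtain ⟨u, hu, v, hv, hne, a, hua, hva⟩ := k3 W₂ hW₂ ρ hρ
        refine ⟨{u, v}, mem_image.2 ⟨((u, a), (v, a)), ?_, rfl⟩, ?_⟩
        · rw [mem_filter, mem_product]
          exact ⟨⟨hua, hva⟩, hne, rfl⟩
        · intro x hx
          rw [mem_insert, mem_singleton] at hx
          rcases hx with rfl | rfl
          · exact hφ₂ _ hu
          · exact hφ₂ _ hv
    obtain ⟨Y, hYc, hYφ, hY⟩ := hD hsat
    refine ⟨Y, ⟨hYc, ?_⟩, hYφ⟩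
    intro ρ hρ
    obtain ⟨O, hO, hOY⟩ := hY _ ⟨ρ, hρ, rfl⟩
    rw [not_not] at hOY
    rw [mem_image] at hO
    obtain ⟨x, hx, rfl⟩ := hO
    rw [mem_filter, mem_product] at hx
    refine ⟨x.1.1, hOY (by simp), x.2.1, hOY (by simp), hx.2.1, x.1.2, hx.1.1, ?_⟩
    rw [hx.2.2]
    exact hx.1.2
  · intro χ hχ hnot
    rw [not_and_or] at hnot
    rcases hnot with hnot | hnot
    · obtain ⟨F, hF, hFχ⟩ := h5 χ hχ hnot
      exact ⟨F, Or.inl hF, hFχ⟩
    · obtain ⟨F, hF, hFχ⟩ := k5 χ hχ hnot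
      exact ⟨F, Or.inr hF, hFχ⟩

theorem appr_or (hm : 1 ≤ m) (j : ℕ) (hjc : j * m ≤ c) {PE : Finset (Fin κ → Fin w)}
    {NE : Finset (Vx κ w → Fin m)} {p q : Set (EE κ w) → Prop}
    (hp : Appr c PE NE p) (hq : Appr c PE NE q) :
    ∃ D : Finset (Vx κ w → Fin m),
      D.card * (m ^ m) ^ j ≤ (m ^ m - m.factorial) ^ j * m ^ Fintype.card (Vx κ w) ∧
      Appr c PE (NE ∪ D) (fun z => p z ∨ q z) := by
  obtain ⟨𝒲₁, 𝒞₁, h1, h2, h3, h4, h5⟩ := hp
  obtain ⟨𝒲₂, 𝒞₂, k1, k2, k3, k4, k5⟩ := hq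
  have hWc : ∀ W ∈ 𝒲₁ ∪ 𝒲₂, W.card ≤ m := by
    rintro W (hW | hW)
    · exact h1 W hW
    · exact k1 W hW
  obtain ⟨D, hDc, hD⟩ := tree_set m c hm (𝒲₁ ∪ 𝒲₂) hWc j hjc
  refine ⟨D, hDc, ?_⟩
  refine ⟨𝒲₁ ∪ 𝒲₂, {ρ | ρ.card ≤ c ∧ ∀ W ∈ 𝒲₁ ∪ 𝒲₂, HitC ρ W}, hWc, fun F hF => hF.1,
    fun W hW F hF => hF.2 W hW, ?_, ?_⟩
  · rintro φ hφ (h | h)
    · obtain ⟨W, hW, hWφ⟩ := h4 φ hφ h
      exact ⟨W, Or.inl hW, hWφ⟩
    · obtain ⟨W, hW, hWφ⟩ := k4 φ hφ h
      exact ⟨W, Or.inr hW, hWφ⟩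
  · intro χ hχ hnot
    rw [not_or] at hnot
    rw [notMem_union] at hχ
    obtain ⟨ρ₁, hρ₁, hχ₁⟩ := h5 χ hχ.1 hnot.1
    obtain ⟨ρ₂, hρ₂, hχ₂⟩ := k5 χ hχ.1 hnot.2
    have hmono : ∀ W ∈ 𝒲₁ ∪ 𝒲₂, Mono χ W := by
      rintro W (hW | hW)
      · obtain ⟨u, hu, v, hv, hne, a, hua, hva⟩ := h3 W hW ρ₁ hρ₁
        exact ⟨u, hu, v, hv, hne, by rw [hχ₁ _ hua, hχ₁ _ hva]⟩
      · obtain ⟨u, hu, v, hv, hne, a, hua, hva⟩ := k3 W hW ρ₂ hρ₂
        exact ⟨u, hu, v, hv, hne, by rw [hχ₂ _ hua, hχ₂ _ hva]⟩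
    have hex := hD χ hχ.2 hmono
    obtain ⟨S, hSc, hS⟩ := hex
    refine ⟨S.image fun v => (v, χ v), ⟨card_image_le.trans hSc, fun W hW => ?_⟩, ?_⟩
    · obtain ⟨u, hu, v, hv, hne, huv, huS, hvS⟩ := hS W hW
      refine ⟨u, hu, v, hv, hne, χ u, mem_image_of_mem _ huS, ?_⟩
      rw [huv]
      exact mem_image_of_mem _ hvS
    · intro x hx
      rw [mem_image] at hx
      obtain ⟨v, -, rfl⟩ := hx
      rfl

/-- Approximation of a whole straight-line program. -/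
theorem appr_slp (hw : 1 ≤ w) (hm : 2 ≤ m) (hc : 2 ≤ c) (j : ℕ) (hjc : j * m ≤ c)
    (g : ℕ → Set (EE κ w) → Prop) (s : ℕ) (hg : IsSLP g s) :
    ∃ (PE : Finset (Fin κ → Fin w)) (NE : Finset (Vx κ w → Fin m)),
      PE.card * w ^ (m + 1) ≤ s * ((c * c) ^ (m + 1) * Fintype.card (Fin κ → Fin w)) ∧
      NE.card * (m ^ m) ^ j ≤ s * ((m ^ m - m.factorial) ^ j * m ^ Fintype.card (Vx κ w)) ∧
      ∀ i < s, Appr c PE NE (g i) := by
  induction s with
  | zero => exact ⟨∅, ∅, by simp, by simp, by intro i hi; omega⟩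
  | succ s ih =>
    obtain ⟨PE, NE, hPE, hNE, happ⟩ := ih (fun i hi => hg i (by omega))
    have havail : ∀ p, Avail g s p → Appr c PE NE p := by
      rintro p (hp | ⟨j, hj, hp⟩)
      · exact (appr_leaf hm hc hp).mono (by simp) (by simp)
      · exact (happ j hj).congr hp
    rcases hg s (by omega) with hleaf | ⟨p, q, hp, hq, hgs⟩
    · refine ⟨PE, NE, hPE.trans (Nat.mul_le_mul_right _ (by omega)),
        hNE.trans (Nat.mul_le_mul_right _ (by omega)), ?_⟩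
      intro i hi
      rcases Nat.lt_succ_iff_lt_or_eq.1 hi with hi | rfl
      · exact happ i hi
      · exact (appr_leaf hm hc hleaf).mono (by simp) (by simp)
    · rcases hgs with hgs | hgs
      · obtain ⟨D, hD, hap⟩ := appr_and hw (by omega) (havail p hp) (havail q hq)
        refine ⟨PE ∪ D, NE, ?_, hNE.trans (Nat.mul_le_mul_right _ (by omega)), ?_⟩
        · calc (PE ∪ D).card * w ^ (m + 1) ≤ (PE.card + D.card) * w ^ (m + 1) :=
                Nat.mul_le_mul_right _ (card_union_le _ _)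
            _ = PE.card * w ^ (m + 1) + D.card * w ^ (m + 1) := by ring
            _ ≤ s * ((c * c) ^ (m + 1) * Fintype.card (Fin κ → Fin w)) +
                (c * c) ^ (m + 1) * Fintype.card (Fin κ → Fin w) := Nat.add_le_add hPE hD
            _ = (s + 1) * ((c * c) ^ (m + 1) * Fintype.card (Fin κ → Fin w)) := by ring
        · intro i hi
          rcases Nat.lt_succ_iff_lt_or_eq.1 hi with hi | rfl
          · exact (happ i hi).mono subset_union_left (by simp)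
          · exact hap.congr hgs
      · obtain ⟨D, hD, hap⟩ := appr_or (by omega) j hjc (havail p hp) (havail q hq)
        refine ⟨PE, NE ∪ D, hPE.trans (Nat.mul_le_mul_right _ (by omega)), ?_, ?_⟩
        · calc (NE ∪ D).card * (m ^ m) ^ j ≤ (NE.card + D.card) * (m ^ m) ^ j :=
                Nat.mul_le_mul_right _ (card_union_le _ _)
            _ = NE.card * (m ^ m) ^ j + D.card * (m ^ m) ^ j := by ring
            _ ≤ s * ((m ^ m - m.factorial) ^ j * m ^ Fintype.card (Vx κ w)) +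
                (m ^ m - m.factorial) ^ j * m ^ Fintype.card (Vx κ w) := Nat.add_le_add hNE hD
            _ = (s + 1) * ((m ^ m - m.factorial) ^ j * m ^ Fintype.card (Vx κ w)) := by ring
        · intro i hi
          rcases Nat.lt_succ_iff_lt_or_eq.1 hi with hi | rfl
          · exact (happ i hi).mono (by simp) subset_union_left
          · exact hap.congr hgs

/-- Few transversals are accepted by a small monotone program that rejects all colourings. -/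
theorem few_accepted (hw : 1 ≤ w) (hm : 2 ≤ m) (hc : 2 ≤ c) (j : ℕ) (hjc : j * m ≤ c)
    (g : ℕ → Set (EE (m + 1) w) → Prop) (s : ℕ) (hg : IsSLP g s) (h : Set (EE (m + 1) w) → Prop)
    (hh : Avail g s h) (hneg : ∀ χ : Vx (m + 1) w → Fin m, ¬ h (negG χ))
    (hs : m ^ m * (s * (m ^ m - m.factorial) ^ j) < (m ^ m) ^ j) :
    (univ.filter fun φ : Fin (m + 1) → Fin w => h (posG φ)).card ≤ s * (c * c) ^ (m + 1) := by
  obtain ⟨PE, NE, hPE, hNE, happ⟩ := appr_slp (κ := m + 1) hw hm hc j hjc g s hg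
  have hA : Appr c PE NE h := by
    rcases hh with hp | ⟨j, hj, hp⟩
    · exact (appr_leaf hm hc hp).mono (by simp) (by simp)
    · exact (happ j hj).congr hp
  obtain ⟨𝒲, 𝒞, h1, h2, h3, h4, h5⟩ := hA
  have hWe : ∀ W, W ∉ 𝒲 := by
    intro W hW
    obtain ⟨χr, hχr⟩ := exists_rainbow (m := m) (by omega) W (h1 W hW)
    have hagree := card_agree χr W NE (by
      intro χ hχ
      by_contra hcon
      obtain ⟨ρ, hρ, hρχ⟩ := h5 χ hcon (hneg χ)
      obtain ⟨u, hu, v, hv, hne, a, hua, hva⟩ := h3 W hW ρ hρ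
      apply hχr
      refine ⟨u, hu, v, hv, hne, ?_⟩
      rw [← hχ u hu, ← hχ v hv, hρχ _ hua, hρχ _ hva])
    have h6 : m ^ Fintype.card (Vx (m + 1) w) ≤ NE.card * m ^ m :=
      hagree.trans (Nat.mul_le_mul_left _ (Nat.pow_le_pow_right (by omega) (h1 W hW)))
    have h7 : m ^ Fintype.card (Vx (m + 1) w) * (m ^ m) ^ j ≤
        m ^ Fintype.card (Vx (m + 1) w) * (m ^ m * (s * (m ^ m - m.factorial) ^ j)) := by
      calc m ^ Fintype.card (Vx (m + 1) w) * (m ^ m) ^ j ≤ (NE.card * m ^ m) * (m ^ m) ^ j :=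
            Nat.mul_le_mul_right _ h6
        _ = (NE.card * (m ^ m) ^ j) * m ^ m := by ring
        _ ≤ (s * ((m ^ m - m.factorial) ^ j * m ^ Fintype.card (Vx (m + 1) w))) * m ^ m :=
            Nat.mul_le_mul_right _ hNE
        _ = m ^ Fintype.card (Vx (m + 1) w) * (m ^ m * (s * (m ^ m - m.factorial) ^ j)) := by ring
    have h8 : 0 < m ^ Fintype.card (Vx (m + 1) w) := Nat.pow_pos (by omega)
    have h9 := Nat.le_of_mul_le_mul_left h7 h8
    omega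
  have hsubP : (univ.filter fun φ : Fin (m + 1) → Fin w => h (posG φ)) ⊆ PE := by
    intro φ hφ
    rw [mem_filter] at hφ
    by_contra hcon
    obtain ⟨W, hW, -⟩ := h4 φ hcon hφ.2
    exact hWe W hW
  refine (card_le_card hsubP).trans ?_
  rw [Fintype.card_fun, Fintype.card_fin, Fintype.card_fin, ← mul_assoc] at hPE
  exact Nat.le_of_mul_le_mul_right hPE (Nat.pow_pos hw)

end

end Pool.Agent.T9h35.Sharp
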