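import Pool.Agent.T9h35.Sharp.Sunflower
import Pool.Agent.T9h35.Sharp.Approx

set_option autoImplicit false
set_option linter.unusedSectionVars false

namespace Pool.Agent.T9h35.Sharp

open Finset Pool.Agent.T9h16
open scoped Classical

/-- Some member of the family is rainbow. -/
def Acc {V : Type} {m : ℕ} (𝒲 : Finset (Finset V)) (χ : V → Fin m) : Prop :=
  ∃ W ∈ 𝒲, ¬ Mono χ W

/-- Closed families of small sets: a small set which almost surely brings a rainbow member with it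
is a member itself. -/
def Closed {V : Type} [Fintype V] [DecidableEq V] (m r : ℕ) (𝒲 : Finset (Finset V)) : Prop :=
  ∀ W : Finset V, W.card ≤ m →
    2 ^ r * (univ.filter fun χ : V → Fin m => ¬ Mono χ W ∧ ¬ Acc 𝒲 χ).card ≤
      m ^ Fintype.card V → W ∈ 𝒲

theorem Mono.of_subset {V : Type} {m : ℕ} {χ : V → Fin m} {W W' : Finset V} (h : W ⊆ W')
    (hW : Mono χ W) : Mono χ W' := by
  obtain ⟨u, hu, v, hv, hne, huv⟩ := hW
  exact ⟨u, h hu, v, h hv, hne, huv⟩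

theorem Closed.up {V : Type} [Fintype V] [DecidableEq V] {m r : ℕ} {𝒲 : Finset (Finset V)} (h : Closed m r 𝒲)
    {W W' : Finset V} (hW : W ∈ 𝒲) (hWW : W ⊆ W') (hm : W'.card ≤ m) : W' ∈ 𝒲 := by
  apply h W' hm
  have : (univ.filter fun χ : V → Fin m => ¬ Mono χ W' ∧ ¬ Acc 𝒲 χ) = ∅ := by
    rw [filter_eq_empty_iff]
    rintro χ - ⟨h1, h2⟩
    exact h2 ⟨W, hW, fun h => h1 (h.of_subset hWW)⟩
  rw [this, card_empty, mul_zero]
  exact Nat.zero_le _

theorem Closed.inter {V : Type} [Fintype V] [DecidableEq V] {m r : ℕ} {𝒲₁ 𝒲₂ : Finset (Finset V)}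
    (h₁ : Closed m r 𝒲₁) (h₂ : Closed m r 𝒲₂) : Closed m r (𝒲₁ ∩ 𝒲₂) := by
  intro W hW hc
  rw [mem_inter]
  refine ⟨h₁ W hW (le_trans (Nat.mul_le_mul_left _ (card_le_card ?_)) hc),
    h₂ W hW (le_trans (Nat.mul_le_mul_left _ (card_le_card ?_)) hc)⟩
  · intro χ hχ
    rw [mem_filter] at hχ ⊢
    exact ⟨hχ.1, hχ.2.1, fun ⟨W', hW', h⟩ => hχ.2.2 ⟨W', (mem_inter.1 hW').1, h⟩⟩
  · intro χ hχ
    rw [mem_filter] at hχ ⊢
    exact ⟨hχ.1, hχ.2.1, fun ⟨W', hW', h⟩ => hχ.2.2 ⟨W', (mem_inter.1 hW').2, h⟩⟩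

/-- The number of small sets. -/
noncomputable def NS (V : Type) [Fintype V] (m : ℕ) : ℕ :=
  (univ.filter fun W : Finset V => W.card ≤ m).card

theorem NS_le (V : Type) [Fintype V] (m : ℕ) : NS V m ≤ (Fintype.card V + 1) ^ m := by
  have h : (Fintype.card V + 1) ^ m = (univ : Finset (Fin m → Option V)).card := by
    rw [card_univ, Fintype.card_fun, Fintype.card_option, Fintype.card_fin]
  rw [h, NS]
  apply card_le_card_of_surjOn (fun f : Fin m → Option V => univ.filter fun v => ∃ i, f i = some v)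
  intro W hW
  rw [mem_coe, mem_filter] at hW
  obtain ⟨g⟩ : Nonempty ({v // v ∈ W} ↪ Fin m) := by
    apply Function.Embedding.nonempty_of_card_le
    rw [Fintype.card_coe, Fintype.card_fin]
    exact hW.2
  refine ⟨fun i => if h : ∃ x : {v // v ∈ W}, g x = i then some h.choose else none,
    by simp, ?_⟩
  ext v
  simp only [mem_filter, mem_univ, true_and]
  constructor
  · rintro ⟨i, hi⟩
    by_cases h : ∃ x : {v // v ∈ W}, g x = i
    · rw [dif_pos h] at hi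
      rw [← Option.some.inj hi]
      exact h.choose.2
    · rw [dif_neg h] at hi
      exact absurd hi (by simp)
  · intro hv
    refine ⟨g ⟨v, hv⟩, ?_⟩
    have h : ∃ x : {v // v ∈ W}, g x = g ⟨v, hv⟩ := ⟨_, rfl⟩
    rw [dif_pos h]
    have := g.injective h.choose_spec
    rw [this]

theorem closure_exists {V : Type} [Fintype V] [DecidableEq V] (m r n : ℕ) :
    ∀ 𝒲 : Finset (Finset V), (∀ W ∈ 𝒲, W.card ≤ m) → NS V m - 𝒲.card ≤ n →
    ∃ 𝒲' : Finset (Finset V), 𝒲 ⊆ 𝒲' ∧ (∀ W ∈ 𝒲', W.card ≤ m) ∧ Closed m r 𝒲' ∧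
      ∃ D : Finset (V → Fin m), 2 ^ r * D.card ≤ n * m ^ Fintype.card V ∧
        ∀ χ, χ ∉ D → Acc 𝒲' χ → Acc 𝒲 χ := by
  induction n with
  | zero =>
    intro 𝒲 h𝒲 hn
    refine ⟨𝒲, subset_rfl, h𝒲, ?_, ∅, by simp, fun χ _ h => h⟩
    have h1 : 𝒲 ⊆ univ.filter fun W : Finset V => W.card ≤ m := fun W hW =>
      mem_filter.2 ⟨mem_univ _, h𝒲 W hW⟩
    have h2 : 𝒲 = univ.filter fun W : Finset V => W.card ≤ m := by
      apply eq_of_subset_of_card_le h1
      rw [NS] at hn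
      omega
    intro W hW _
    rw [h2, mem_filter]
    exact ⟨mem_univ _, hW⟩
  | succ n ih =>
    intro 𝒲 h𝒲 hn
    by_cases hcl : Closed m r 𝒲
    · exact ⟨𝒲, subset_rfl, h𝒲, hcl, ∅, by simp, fun χ _ h => h⟩
    · rw [Closed] at hcl
      push Not at hcl
      obtain ⟨W, hW, hWc, hW𝒲⟩ := hcl
      obtain ⟨𝒲', hsub, hcard, hclosed, D, hD, hacc⟩ := ih (insert W 𝒲) (by
          intro W' hW'
          rcases mem_insert.1 hW' with rfl | h
          · exact hW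
          · exact h𝒲 W' h) (by
          rw [card_insert_of_notMem hW𝒲]
          omega)
      obtain ⟨E, hE⟩ : ∃ E, E = univ.filter fun χ : V → Fin m => ¬ Mono χ W ∧ ¬ Acc 𝒲 χ :=
        ⟨_, rfl⟩
      rw [← hE] at hWc
      refine ⟨𝒲', (subset_insert _ _).trans hsub, hcard, hclosed, D ∪ E, ?_, ?_⟩
      · calc 2 ^ r * (D ∪ E).card ≤ 2 ^ r * (D.card + E.card) :=
              Nat.mul_le_mul_left _ (card_union_le _ _)
          _ = 2 ^ r * D.card + 2 ^ r * E.card := by ring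
          _ ≤ n * m ^ Fintype.card V + m ^ Fintype.card V := Nat.add_le_add hD hWc
          _ = (n + 1) * m ^ Fintype.card V := by ring
      · intro χ hχ hχ'
        rw [notMem_union] at hχ
        obtain ⟨W', hW', hWχ⟩ := hacc χ hχ.1 hχ'
        rcases mem_insert.1 hW' with rfl | h
        · by_contra hcon
          apply hχ.2
          rw [hE, mem_filter]
          exact ⟨mem_univ _, hWχ, hcon⟩
        · exact ⟨W', h, hWχ⟩

/-- The closure of a family. -/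
theorem closure_exists' {V : Type} [Fintype V] [DecidableEq V] (m r : ℕ) (𝒲 : Finset (Finset V))
    (h𝒲 : ∀ W ∈ 𝒲, W.card ≤ m) :
    ∃ 𝒲' : Finset (Finset V), 𝒲 ⊆ 𝒲' ∧ (∀ W ∈ 𝒲', W.card ≤ m) ∧ Closed m r 𝒲' ∧
      ∃ D : Finset (V → Fin m), 2 ^ r * D.card ≤ NS V m * m ^ Fintype.card V ∧
        ∀ χ, χ ∉ D → Acc 𝒲' χ → Acc 𝒲 χ :=
  closure_exists m r (NS V m) 𝒲 h𝒲 (Nat.sub_le _ _)

section
variable {κ w m : ℕ}

/-- The minimal members which are partial transversals. -/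
noncomputable def mins (𝒲 : Finset (Finset (Fin κ × Fin w))) : Finset (Finset (Fin κ × Fin w)) :=
  𝒲.filter fun W => Set.InjOn Prod.fst (W : Set (Fin κ × Fin w)) ∧ ∀ W' ∈ 𝒲, W' ⊆ W → W' = W

theorem mins_card (r b : ℕ) (hm : 1 ≤ m) (hr : 1 ≤ r) (hb : 2 * m ≤ b)
    (𝒲 : Finset (Finset (Fin κ × Fin w))) (h𝒲 : ∀ W ∈ 𝒲, W.card ≤ m) (hcl : Closed m r 𝒲) :
    (mins 𝒲).card ≤ 2 ^ κ * (b * (m * r)) ^ m := by
  have hB : 1 ≤ b * (m * r) := Nat.mul_pos (by omega) (Nat.mul_pos hm hr)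
  have hfib : ∀ P : Finset (Fin κ),
      ((mins 𝒲).filter fun W => W.image Prod.fst = P).card ≤ (b * (m * r)) ^ m := by
    intro P
    obtain ⟨F, hFdef⟩ : ∃ F, F = (mins 𝒲).filter fun W => W.image Prod.fst = P := ⟨_, rfl⟩
    rw [← hFdef]
    have hFm : ∀ W ∈ F, W ∈ 𝒲 ∧ (∀ W' ∈ 𝒲, W' ⊆ W → W' = W) ∧ W.image Prod.fst = P ∧
        W.card = P.card := by
      intro W hW
      rw [hFdef, mem_filter, mins, mem_filter] at hW
      refine ⟨hW.1.1, hW.1.2.2, hW.2, ?_⟩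
      rw [← hW.2, card_image_of_injOn hW.1.2.1]
    rcases F.eq_empty_or_nonempty with h0 | ⟨W₀, hW₀⟩
    · rw [h0, card_empty]
      exact Nat.zero_le _
    · have hPm : P.card ≤ m := by
        rw [← (hFm W₀ hW₀).2.2.2]
        exact h𝒲 W₀ (hFm W₀ hW₀).1
      refine le_trans ?_ (Nat.pow_le_pow_right hB hPm)
      by_contra hcon
      rw [not_le] at hcon
      obtain ⟨K, ⟨W, hW, hKW⟩, hK⟩ := sunflower r b hm hr hb P hPm F
        (fun W hW => (hFm W hW).2.2) hcon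
      have hK𝒲 : K ∈ 𝒲 := by
        apply hcl K
        · exact (card_le_card hKW.subset).trans (h𝒲 W (hFm W hW).1)
        · refine le_trans (Nat.mul_le_mul_left _ (card_le_card ?_)) hK
          intro χ hχ
          rw [mem_filter] at hχ ⊢
          refine ⟨hχ.1, hχ.2.1, fun W' hW' => ?_⟩
          by_contra hcon
          exact hχ.2.2 ⟨W', (hFm W' hW').1, hcon⟩
      exact hKW.ne ((hFm W hW).2.1 K hK𝒲 hKW.subset)
  calc (mins 𝒲).card = ∑ P : Finset (Fin κ),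
        ((mins 𝒲).filter fun W => W.image Prod.fst = P).card := by
        apply card_eq_sum_card_fiberwise
        intro W _
        exact mem_coe.2 (mem_univ _)
    _ ≤ ∑ _P : Finset (Fin κ), (b * (m * r)) ^ m := sum_le_sum fun P _ => hfib P
    _ = 2 ^ κ * (b * (m * r)) ^ m := by
        rw [sum_const, card_univ, Fintype.card_finset, Fintype.card_fin, smul_eq_mul]

/-- `h` is approximated by a closed family, outside of the error sets. -/
def Apc (r : ℕ) (PE : Finset (Fin κ → Fin w)) (NE : Finset (Vx κ w → Fin m))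
    (h : Set (EE κ w) → Prop) : Prop :=
  ∃ 𝒲 : Finset (Finset (Vx κ w)), (∀ W ∈ 𝒲, W.card ≤ m) ∧ Closed m r 𝒲 ∧
    (∀ φ, φ ∉ PE → h (posG φ) → ∃ W ∈ 𝒲, ∀ v ∈ W, φ v.1 = v.2) ∧
    (∀ χ, χ ∉ NE → Acc 𝒲 χ → h (negG χ))

theorem Apc.mono {r : ℕ} {PE PE' : Finset (Fin κ → Fin w)} {NE NE' : Finset (Vx κ w → Fin m)}
    {h : Set (EE κ w) → Prop} (hP : PE ⊆ PE') (hN : NE ⊆ NE') (H : Apc r PE NE h) :
    Apc r PE' NE' h := by
  obtain ⟨𝒲, h1, h2, h4, h5⟩ := H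
  exact ⟨𝒲, h1, h2, fun φ hφ => h4 φ (fun h => hφ (hP h)),
    fun χ hχ => h5 χ (fun h => hχ (hN h))⟩

theorem Apc.congr {r : ℕ} {PE : Finset (Fin κ → Fin w)} {NE : Finset (Vx κ w → Fin m)}
    {h h' : Set (EE κ w) → Prop} (hh : ∀ z, h' z ↔ h z) (H : Apc r PE NE h) :
    Apc r PE NE h' := by
  obtain ⟨𝒲, h1, h2, h4, h5⟩ := H
  exact ⟨𝒲, h1, h2, fun φ hφ h => h4 φ hφ ((hh _).1 h), fun χ hχ h => (hh _).2 (h5 χ hχ h)⟩

theorem apc_leaf (r : ℕ) (hm : 2 ≤ m) {h : Set (EE κ w) → Prop} (hh : Leaf h) :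
    ∃ D : Finset (Vx κ w → Fin m),
      2 ^ r * D.card ≤ NS (Vx κ w) m * m ^ Fintype.card (Vx κ w) ∧
      Apc (m := m) r ∅ D h := by
  have key : ∀ 𝒲 : Finset (Finset (Vx κ w)), (∀ W ∈ 𝒲, W.card ≤ m) →
      (∀ φ, h (posG φ) → ∃ W ∈ 𝒲, ∀ v ∈ W, φ v.1 = v.2) →
      (∀ χ : Vx κ w → Fin m, Acc 𝒲 χ → h (negG χ)) →
      ∃ D : Finset (Vx κ w → Fin m),
      2 ^ r * D.card ≤ NS (Vx κ w) m * m ^ Fintype.card (Vx κ w) ∧
      Apc (m := m) r ∅ D h := by
    intro 𝒲 h1 h2 h3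
    obtain ⟨𝒲', hsub, hcard, hcl, D, hD, hacc⟩ := closure_exists' (V := Vx κ w) m r 𝒲 h1
    refine ⟨D, hD, 𝒲', hcard, hcl, ?_, fun χ hχ hχ' => h3 χ (hacc χ hχ hχ')⟩
    intro φ _ hφ
    obtain ⟨W, hW, hWφ⟩ := h2 φ hφ
    exact ⟨W, hsub hW, hWφ⟩
  rcases hh with ⟨e, he⟩ | ⟨t, ht⟩
  · apply key {{e.1.1, e.1.2}}
    · intro W hW
      rw [mem_singleton] at hW
      subst hW
      exact (card_le_two).trans hm
    · intro φ hφ
      refine ⟨_, mem_singleton_self _, ?_⟩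
      have := (he _).1 hφ
      intro v hv
      rw [mem_insert, mem_singleton] at hv
      rcases hv with rfl | rfl
      · exact this.1
      · exact this.2
    · rintro χ ⟨W, hW, hWχ⟩
      rw [mem_singleton] at hW
      subst hW
      rw [he]
      intro hcon
      apply hWχ
      have hne : e.1.1 ≠ e.1.2 := by
        intro h
        have h1 := e.2
        rw [h] at h1
        exact lt_irrefl _ h1
      exact ⟨e.1.1, by simp, e.1.2, by simp, hne, hcon⟩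
  · by_cases t
    case pos htt =>
      apply key {∅}
      · intro W hW
        rw [mem_singleton] at hW
        subst hW
        simp
      · intro φ _
        exact ⟨∅, mem_singleton_self _, by simp⟩
      · intro χ _
        exact (ht _).2 htt
    case neg htt =>
      apply key ∅
      · intro W hW
        exact absurd hW (notMem_empty _)
      · intro φ hφ
        exact (htt ((ht _).1 hφ)).elim
      · rintro χ ⟨W, hW, -⟩
        exact absurd hW (notMem_empty _)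

/-- The points of a transversal. -/
noncomputable def gr (φ : Fin κ → Fin w) : Finset (Vx κ w) := univ.image fun p => (p, φ p)

theorem mem_gr (φ : Fin κ → Fin w) (v : Vx κ w) : v ∈ gr φ ↔ φ v.1 = v.2 := by
  rw [gr, mem_image]
  constructor
  · rintro ⟨p, -, rfl⟩
    rfl
  · intro h
    exact ⟨v.1, mem_univ _, Prod.ext rfl h⟩

theorem card_gr (φ : Fin κ → Fin w) : (gr φ).card = κ := by
  rw [gr, card_image_of_injective, card_univ, Fintype.card_fin]
  intro p p' h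
  exact (Prod.ext_iff.1 h).1

theorem exists_min {𝒲 : Finset (Finset (Vx κ w))} {φ : Fin κ → Fin w} {W : Finset (Vx κ w)}
    (hW : W ∈ 𝒲) (hWφ : W ⊆ gr φ) : ∃ W' ∈ mins 𝒲, W' ⊆ gr φ := by
  obtain ⟨W', hW', hmin⟩ := exists_min_image (𝒲.filter fun W' => W' ⊆ W) Finset.card
    ⟨W, mem_filter.2 ⟨hW, subset_rfl⟩⟩
  rw [mem_filter] at hW'
  refine ⟨W', ?_, hW'.2.trans hWφ⟩
  rw [mins, mem_filter]
  refine ⟨hW'.1, ?_, ?_⟩
  · intro u hu v hv huv
    have h1 := (mem_gr φ u).1 (hWφ (hW'.2 hu))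
    have h2 := (mem_gr φ v).1 (hWφ (hW'.2 hv))
    apply Prod.ext huv
    rw [← h1, ← h2, huv]
  · intro W'' hW'' hsub
    apply eq_of_subset_of_card_le hsub
    exact hmin W'' (mem_filter.2 ⟨hW'', hsub.trans hW'.2⟩)

end

section
variable {w m : ℕ}

theorem apc_and (r b : ℕ) (hm : 1 ≤ m) (hr : 1 ≤ r) (hb : 2 * m ≤ b)
    {PE : Finset (Fin (m + 1) → Fin w)}
    {NE : Finset (Vx (m + 1) w → Fin m)} {p q : Set (EE (m + 1) w) → Prop}
    (hp : Apc r PE NE p) (hq : Apc r PE NE q) :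
    ∃ D : Finset (Fin (m + 1) → Fin w),
      D.card ≤ (2 ^ (m + 1) * (b * (m * r)) ^ m) ^ 2 ∧
      Apc r (PE ∪ D) NE (fun z => p z ∧ q z) := by
  obtain ⟨𝒲₁, h1, h2, h4, h5⟩ := hp
  obtain ⟨𝒲₂, k1, k2, k4, k5⟩ := hq
  obtain ⟨D, hD⟩ : ∃ D : Finset (Fin (m + 1) → Fin w), D = univ.filter fun φ =>
      ∃ W : Finset (Vx (m + 1) w) × Finset (Vx (m + 1) w),
        (W.1 ∈ mins 𝒲₁ ∧ W.2 ∈ mins 𝒲₂) ∧ W.1 ∪ W.2 = gr φ := ⟨_, rfl⟩
  refine ⟨D, ?_, 𝒲₁ ∩ 𝒲₂, ?_, h2.inter k2, ?_, ?_⟩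
  · have hex : ∀ φ : Fin (m + 1) → Fin w, ∃ W : Finset (Vx (m + 1) w) × Finset (Vx (m + 1) w),
        φ ∈ D → (W.1 ∈ mins 𝒲₁ ∧ W.2 ∈ mins 𝒲₂) ∧ W.1 ∪ W.2 = gr φ := by
      intro φ
      by_cases hφ : φ ∈ D
      · have hφ' := hφ
        rw [hD, mem_filter] at hφ'
        obtain ⟨W, hW⟩ := hφ'.2
        exact ⟨W, fun _ => hW⟩
      · exact ⟨(∅, ∅), fun h => absurd h hφ⟩
    choose f hf using hex
    have hsub : D.card ≤ (mins 𝒲₁ ×ˢ mins 𝒲₂).card := by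
      apply card_le_card_of_injOn f
      · intro φ hφ
        rw [mem_coe, mem_product]
        exact (hf φ hφ).1
      · intro φ hφ φ' hφ' hff
        have h6 : gr φ = gr φ' := by
          rw [← (hf φ hφ).2, ← (hf φ' hφ').2, hff]
        funext i
        have h7 : (i, φ i) ∈ gr φ := (mem_gr φ _).2 rfl
        rw [h6] at h7
        exact ((mem_gr φ' _).1 h7).symm
    refine hsub.trans ?_
    rw [card_product, pow_two]
    exact Nat.mul_le_mul (mins_card r b hm hr hb 𝒲₁ h1 h2) (mins_card r b hm hr hb 𝒲₂ k1 k2)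
  · intro W hW
    exact h1 W (mem_inter.1 hW).1
  · rintro φ hφ ⟨hpz, hqz⟩
    rw [notMem_union] at hφ
    obtain ⟨W₁, hW₁, hφ₁⟩ := h4 φ hφ.1 hpz
    obtain ⟨W₂, hW₂, hφ₂⟩ := k4 φ hφ.1 hqz
    obtain ⟨M₁, hM₁, hM₁φ⟩ := exists_min hW₁ (fun v hv => (mem_gr φ v).2 (hφ₁ v hv))
    obtain ⟨M₂, hM₂, hM₂φ⟩ := exists_min hW₂ (fun v hv => (mem_gr φ v).2 (hφ₂ v hv))
    have hsub : M₁ ∪ M₂ ⊆ gr φ := union_subset hM₁φ hM₂φ
    have hne : M₁ ∪ M₂ ≠ gr φ := by
      intro hcon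
      apply hφ.2
      rw [hD, mem_filter]
      exact ⟨mem_univ _, (M₁, M₂), ⟨hM₁, hM₂⟩, hcon⟩
    have hcard : (M₁ ∪ M₂).card ≤ m := by
      have := card_lt_card (ssubset_of_subset_of_ne hsub hne)
      rw [card_gr] at this
      omega
    refine ⟨M₁ ∪ M₂, mem_inter.2 ⟨?_, ?_⟩, fun v hv => (mem_gr φ v).1 (hsub hv)⟩
    · exact h2.up (mem_filter.1 hM₁).1 subset_union_left hcard
    · exact k2.up (mem_filter.1 hM₂).1 subset_union_right hcard
  · rintro χ hχ ⟨W, hW, hWχ⟩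
    rw [mem_inter] at hW
    exact ⟨h5 χ hχ ⟨W, hW.1, hWχ⟩, k5 χ hχ ⟨W, hW.2, hWχ⟩⟩

theorem apc_or (r : ℕ) {PE : Finset (Fin (m + 1) → Fin w)}
    {NE : Finset (Vx (m + 1) w → Fin m)} {p q : Set (EE (m + 1) w) → Prop}
    (hp : Apc r PE NE p) (hq : Apc r PE NE q) :
    ∃ D : Finset (Vx (m + 1) w → Fin m),
      2 ^ r * D.card ≤ NS (Vx (m + 1) w) m * m ^ Fintype.card (Vx (m + 1) w) ∧
      Apc r PE (NE ∪ D) (fun z => p z ∨ q z) := by
  obtain ⟨𝒲₁, h1, h2, h4, h5⟩ := hp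
  obtain ⟨𝒲₂, k1, k2, k4, k5⟩ := hq
  obtain ⟨𝒲', hsub, hcard, hcl, D, hD, hacc⟩ := closure_exists' (V := Vx (m + 1) w) m r (𝒲₁ ∪ 𝒲₂)
    (by
      intro W hW
      rcases mem_union.1 hW with h | h
      · exact h1 W h
      · exact k1 W h)
  refine ⟨D, hD, 𝒲', hcard, hcl, ?_, ?_⟩
  · rintro φ hφ (h | h)
    · obtain ⟨W, hW, hWφ⟩ := h4 φ hφ h
      exact ⟨W, hsub (mem_union_left _ hW), hWφ⟩
    · obtain ⟨W, hW, hWφ⟩ := k4 φ hφ h
      exact ⟨W, hsub (mem_union_right _ hW), hWφ⟩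
  · intro χ hχ hχ'
    rw [notMem_union] at hχ
    obtain ⟨W, hW, hWχ⟩ := hacc χ hχ.2 hχ'
    rcases mem_union.1 hW with h | h
    · exact Or.inl (h5 χ hχ.1 ⟨W, h, hWχ⟩)
    · exact Or.inr (k5 χ hχ.1 ⟨W, h, hWχ⟩)

/-- An available operand is approximated, at the cost of one closure. -/
theorem apc_avail (r : ℕ) (hm : 2 ≤ m) (g : ℕ → Set (EE (m + 1) w) → Prop) (s : ℕ)
    {PE : Finset (Fin (m + 1) → Fin w)} {NE : Finset (Vx (m + 1) w → Fin m)}
    (happ : ∀ i < s, Apc r PE NE (g i)) {p : Set (EE (m + 1) w) → Prop} (hp : Avail g s p) :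
    ∃ D : Finset (Vx (m + 1) w → Fin m),
      2 ^ r * D.card ≤ NS (Vx (m + 1) w) m * m ^ Fintype.card (Vx (m + 1) w) ∧
      Apc r PE (NE ∪ D) p := by
  rcases hp with hp | ⟨j, hj, hp⟩
  · obtain ⟨D, hD, hA⟩ := apc_leaf (κ := m + 1) (w := w) r hm hp
    exact ⟨D, hD, hA.mono (by simp) subset_union_right⟩
  · exact ⟨∅, by simp, ((happ j hj).congr hp).mono subset_rfl (by simp)⟩

/-- Approximation of a whole straight-line program. -/
theorem apc_slp (r b : ℕ) (hm : 2 ≤ m) (hr : 1 ≤ r) (hb : 2 * m ≤ b)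
    (g : ℕ → Set (EE (m + 1) w) → Prop) (s : ℕ) (hg : IsSLP g s) :
    ∃ (PE : Finset (Fin (m + 1) → Fin w)) (NE : Finset (Vx (m + 1) w → Fin m)),
      PE.card ≤ s * (2 ^ (m + 1) * (b * (m * r)) ^ m) ^ 2 ∧
      2 ^ r * NE.card ≤ s * (3 * (NS (Vx (m + 1) w) m * m ^ Fintype.card (Vx (m + 1) w))) ∧
      ∀ i < s, Apc r PE NE (g i) := by
  induction s with
  | zero => exact ⟨∅, ∅, by simp, by simp, by intro i hi; omega⟩
  | succ s ih =>
    obtain ⟨PE, NE, hPE, hNE, happ⟩ := ih (fun i hi => hg i (by omega))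
    obtain ⟨N, hN⟩ : ∃ N, N = NS (Vx (m + 1) w) m * m ^ Fintype.card (Vx (m + 1) w) := ⟨_, rfl⟩
    obtain ⟨Q, hQ⟩ : ∃ Q, Q = (2 ^ (m + 1) * (b * (m * r)) ^ m) ^ 2 := ⟨_, rfl⟩
    rw [← hN] at hNE ⊢
    rw [← hQ] at hPE ⊢
    have hadd : ∀ A B : Finset (Vx (m + 1) w → Fin m),
        2 ^ r * (A ∪ B).card ≤ 2 ^ r * A.card + 2 ^ r * B.card := by
      intro A B
      rw [← mul_add]
      exact Nat.mul_le_mul_left _ (card_union_le _ _)
    rcases hg s (by omega) with hleaf | ⟨p, q, hp, hq, hgs⟩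
    · obtain ⟨D, hD, hA⟩ := apc_leaf (κ := m + 1) (w := w) r hm hleaf
      rw [← hN] at hD
      refine ⟨PE, NE ∪ D, hPE.trans (Nat.mul_le_mul_right _ (by omega)), ?_, ?_⟩
      · have := hadd NE D
        have e : (s + 1) * (3 * N) = s * (3 * N) + 3 * N := by ring
        omega
      · intro i hi
        rcases Nat.lt_succ_iff_lt_or_eq.1 hi with hi | rfl
        · exact (happ i hi).mono subset_rfl subset_union_left
        · exact hA.mono (by simp) subset_union_right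
    · obtain ⟨D₁, hD₁, hA₁⟩ := apc_avail r hm g s happ hp
      obtain ⟨D₂, hD₂, hA₂⟩ := apc_avail r hm g s happ hq
      rw [← hN] at hD₁ hD₂
      have hA₁' : Apc r PE (NE ∪ (D₁ ∪ D₂)) p := hA₁.mono subset_rfl
        (union_subset_union_right subset_union_left)
      have hA₂' : Apc r PE (NE ∪ (D₁ ∪ D₂)) q := hA₂.mono subset_rfl
        (union_subset_union_right subset_union_right)
      rcases hgs with hgs | hgs
      · obtain ⟨D, hD, hap⟩ := apc_and r b (by omega) hr hb hA₁' hA₂'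
        rw [← hQ] at hD
        refine ⟨PE ∪ D, NE ∪ (D₁ ∪ D₂), ?_, ?_, ?_⟩
        · have h1 := card_union_le PE D
          have e : (s + 1) * Q = s * Q + Q := by ring
          omega
        · have h1 := hadd NE (D₁ ∪ D₂)
          have h2 := hadd D₁ D₂
          have e : (s + 1) * (3 * N) = s * (3 * N) + 3 * N := by ring
          omega
        · intro i hi
          rcases Nat.lt_succ_iff_lt_or_eq.1 hi with hi | rfl
          · exact (happ i hi).mono subset_union_left subset_union_left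
          · exact hap.congr hgs
      · obtain ⟨D, hD, hap⟩ := apc_or r hA₁' hA₂'
        rw [← hN] at hD
        refine ⟨PE, NE ∪ (D₁ ∪ D₂) ∪ D, hPE.trans (Nat.mul_le_mul_right _ (by omega)), ?_, ?_⟩
        · have h0 := hadd (NE ∪ (D₁ ∪ D₂)) D
          have h1 := hadd NE (D₁ ∪ D₂)
          have h2 := hadd D₁ D₂
          have e : (s + 1) * (3 * N) = s * (3 * N) + 3 * N := by ring
          omega
        · intro i hi
          rcases Nat.lt_succ_iff_lt_or_eq.1 hi with hi | rfl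
          · exact (happ i hi).mono subset_rfl (subset_union_left.trans subset_union_left)
          · exact hap.congr hgs

/-- Few transversals are accepted by a small monotone program that rejects all colourings. -/
theorem few_accepted_exp (r b : ℕ) (hm : 2 ≤ m) (hr : 1 ≤ r) (hb : 2 * m ≤ b)
    (g : ℕ → Set (EE (m + 1) w) → Prop) (s : ℕ) (hg : IsSLP g s) (h : Set (EE (m + 1) w) → Prop)
    (hh : Avail g s h) (hneg : ∀ χ : Vx (m + 1) w → Fin m, ¬ h (negG χ))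
    (hs : m ^ m * ((3 * s + 1) * NS (Vx (m + 1) w) m) < 2 ^ r) :
    (univ.filter fun φ : Fin (m + 1) → Fin w => h (posG φ)).card ≤
      s * (2 ^ (m + 1) * (b * (m * r)) ^ m) ^ 2 := by
  obtain ⟨PE, NE, hPE, hNE, happ⟩ := apc_slp r b hm hr hb g s hg
  obtain ⟨D, hD, 𝒲, h1, h2, h4, h5⟩ := apc_avail r hm g s happ hh
  have hWe : ∀ W, W ∉ 𝒲 := by
    intro W hW
    obtain ⟨χr, hχr⟩ := exists_rainbow (m := m) (by omega) W (h1 W hW)
    have hagree := card_agree χr W (NE ∪ D) (by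
      intro χ hχ
      by_contra hcon
      apply hneg χ
      apply h5 χ hcon
      refine ⟨W, hW, ?_⟩
      rintro ⟨u, hu, v, hv, hne, huv⟩
      exact hχr ⟨u, hu, v, hv, hne, by rw [← hχ u hu, ← hχ v hv, huv]⟩)
    obtain ⟨N, hN⟩ : ∃ N, N = m ^ Fintype.card (Vx (m + 1) w) := ⟨_, rfl⟩
    rw [← hN] at hagree hNE hD
    have hN0 : 0 < N := by
      rw [hN]
      exact Nat.pow_pos (by omega)
    have h6 : N ≤ (NE ∪ D).card * m ^ m :=
      hagree.trans (Nat.mul_le_mul_left _ (Nat.pow_le_pow_right (by omega) (h1 W hW)))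
    have h7 : 2 ^ r * (NE ∪ D).card ≤ (3 * s + 1) * (NS (Vx (m + 1) w) m * N) := by
      calc 2 ^ r * (NE ∪ D).card ≤ 2 ^ r * (NE.card + D.card) :=
            Nat.mul_le_mul_left _ (card_union_le _ _)
        _ = 2 ^ r * NE.card + 2 ^ r * D.card := by ring
        _ ≤ s * (3 * (NS (Vx (m + 1) w) m * N)) + NS (Vx (m + 1) w) m * N :=
            Nat.add_le_add hNE hD
        _ = (3 * s + 1) * (NS (Vx (m + 1) w) m * N) := by ring
    have h8 : 2 ^ r * N ≤ m ^ m * ((3 * s + 1) * NS (Vx (m + 1) w) m) * N := by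
      calc 2 ^ r * N ≤ 2 ^ r * ((NE ∪ D).card * m ^ m) := Nat.mul_le_mul_left _ h6
        _ = (2 ^ r * (NE ∪ D).card) * m ^ m := by ring
        _ ≤ ((3 * s + 1) * (NS (Vx (m + 1) w) m * N)) * m ^ m := Nat.mul_le_mul_right _ h7
        _ = m ^ m * ((3 * s + 1) * NS (Vx (m + 1) w) m) * N := by ring
    have h9 := Nat.le_of_mul_le_mul_right h8 hN0
    omega
  have hsubP : (univ.filter fun φ : Fin (m + 1) → Fin w => h (posG φ)) ⊆ PE := by
    intro φ hφ
    rw [mem_filter] at hφ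
    by_contra hcon
    obtain ⟨W, hW, -⟩ := h4 φ hcon hφ.2
    exact hWe W hW
  exact (card_le_card hsubP).trans hPE

end

end Pool.Agent.T9h35.Sharp
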