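import Pool.Agent.T9h35.Sharp.Join
import Pool.Agent.T9h35.Sharp.Closed
import Pool.Agent.T9h35.Sharp.ArithExp
import Pool.Agent.T9h35.Sharp.Average

set_option autoImplicit false

namespace Pool.Agent.T9h35.Sharp

open Finset Pool.Agent.T9h16 Pool.Agent.T9h35
open scoped Classical

/-- A small sound circuit finds few cliques. -/
theorem few_cliques (n k M m w u s Q : ℕ) (hM : 1 ≤ M) (hm : 2 ≤ m)
    (hk : k = u + M * (m + 1)) (hn : M * (m + 1) * w + u ≤ n)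
    (hfew : ∀ g : ℕ → Set (EE (m + 1) w) → Prop, IsSLP g s → ∀ h : Set (EE (m + 1) w) → Prop,
      Avail g s h → (∀ χ : Vx (m + 1) w → Fin m, ¬ h (negG χ)) →
      (univ.filter fun φ : Fin (m + 1) → Fin w => h (posG φ)).card ≤ Q)
    (C : MonoCircuit n) (hC : C.size ≤ s)
    (hcl : ∀ G : SimpleGraph (Fin n), C.Accepts G →
      ∃ c : Finset (Fin n), G.IsClique (c : Set (Fin n)) ∧ k ≤ c.card) :
    (univ.filter fun S : Finset (Fin n) => S.card = k ∧
      ∀ G : SimpleGraph (Fin n), G.IsClique (S : Set (Fin n)) → C.Accepts G).card *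
        (w ^ (m + 1)) ^ M ≤ Q ^ M * n.choose k := by
  have hcard : Fintype.card (PVer M (m + 1) w u) ≤ Fintype.card (Fin n) := by
    simp only [Fintype.card_sum, Fintype.card_prod, Fintype.card_fin]
    exact hn
  obtain ⟨ι⟩ := Function.Embedding.nonempty_of_card_le hcard
  obtain ⟨F, hF⟩ : ∃ F, F = univ.filter fun S : Finset (Fin n) => S.card = k ∧
      ∀ G : SimpleGraph (Fin n), G.IsClique (S : Set (Fin n)) → C.Accepts G := ⟨_, rfl⟩
  rw [← hF]
  have hav := averaging (k := k) F (by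
      intro S hS
      rw [hF, mem_filter] at hS
      exact hS.2.1)
    (fun Φ : Fin M → Fin (m + 1) → Fin w => (tset (u := u) Φ).map ι)
    (by
      intro Φ
      rw [card_map, tset_card, hk])
    (Q ^ M) (by
      intro π
      refine (card_le_card ?_).trans
        (core_embed n k M m w u s Q hM hm hk hfew (ι.trans π.toEmbedding) C hC hcl)
      intro Φ hΦ
      rw [mem_filter, hF, mem_filter] at hΦ
      rw [mem_filter]
      refine ⟨mem_univ _, hΦ.2.2.2 _ ?_⟩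
      rw [map_map, coe_map]
      exact (tset_clique Φ).map)
  rw [Fintype.card_fun, Fintype.card_fun, Fintype.card_fin, Fintype.card_fin,
    Fintype.card_fin] at hav
  exact hav

theorem main_nat (t : ℕ) (ht : 1 ≤ t) : ∃ K, 1 ≤ K ∧ ∀ n k e : ℕ, 1 ≤ e → K * e ≤ k →
    (K * e) ^ K ≤ n / k → ∀ C : MonoCircuit n, C.size ≤ (n / k) ^ e →
    (∀ G : SimpleGraph (Fin n), C.Accepts G →
      ∃ c : Finset (Fin n), G.IsClique (c : Set (Fin n)) ∧ k ≤ c.card) →
    (univ.filter fun S : Finset (Fin n) => S.card = k ∧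
      ∀ G : SimpleGraph (Fin n), G.IsClique (S : Set (Fin n)) → C.Accepts G).card ^ (t + 1) ≤
      n.choose k := by
  obtain ⟨K, hK1, hK⟩ := params_exp t ht
  refine ⟨K, hK1, fun n k e he hek hew C hC hcl => ?_⟩
  obtain ⟨M, m, w, u, r, hM, hm, hr, hk, hn, hw, hs, hfin⟩ := hK n k e he hek hew
  obtain ⟨s, hsdef⟩ : ∃ s, s = (n / k) ^ e := ⟨_, rfl⟩
  rw [← hsdef] at hC hfin hs
  have hNS : NS (Vx (m + 1) w) m ≤ ((m + 1) * w + 1) ^ m := by
    refine (NS_le _ _).trans (le_of_eq ?_)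
    rw [Fintype.card_prod, Fintype.card_fin, Fintype.card_fin]
  have h1 := few_cliques n k M m w u s _ hM hm hk hn
    (fun g hg h hh hneg => few_accepted_exp r (2 * m) hm hr le_rfl g s hg h hh hneg
      (lt_of_le_of_lt (Nat.mul_le_mul_left _ (Nat.mul_le_mul_left _ hNS)) hs)) C hC hcl
  obtain ⟨F, hF⟩ : ∃ F, F = (univ.filter fun S : Finset (Fin n) => S.card = k ∧
      ∀ G : SimpleGraph (Fin n), G.IsClique (S : Set (Fin n)) → C.Accepts G).card := ⟨_, rfl⟩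
  obtain ⟨Q, hQ⟩ : ∃ Q, Q = (s * (2 ^ (m + 1) * (2 * m * (m * r)) ^ m) ^ 2) ^ M := ⟨_, rfl⟩
  obtain ⟨P, hP⟩ : ∃ P, P = (w ^ (m + 1)) ^ M := ⟨_, rfl⟩
  obtain ⟨N, hN⟩ : ∃ N, N = n.choose k := ⟨_, rfl⟩
  rw [← hF, ← hQ, ← hP, ← hN] at h1
  rw [← hQ, ← hP, ← hN] at hfin
  rw [← hF, ← hN]
  have hP0 : 0 < P := by
    rw [hP]
    positivity
  have h2 : F ^ (t + 1) * P ^ (t + 1) ≤ N * P ^ (t + 1) := by
    calc F ^ (t + 1) * P ^ (t + 1) = (F * P) ^ (t + 1) := by rw [mul_pow]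
      _ ≤ (Q * N) ^ (t + 1) := Nat.pow_le_pow_left h1 _
      _ = N * (Q ^ (t + 1) * N ^ t) := by rw [mul_pow]; ring
      _ ≤ N * P ^ (t + 1) := Nat.mul_le_mul_left _ hfin
  exact Nat.le_of_mul_le_mul_right h2 (Nat.pow_pos hP0)

/-- The quantitative theorem. -/
theorem main_sharp (ε : ℝ) (hε : 0 < ε) : ∃ K : ℕ, 0 < K ∧ ∀ (U : Type) [Fintype U] (n k e : ℕ)
    (D : U → MonoCircuit n), 0 < e → K * e ≤ k → (K * e) ^ K ≤ n / k →
    (∀ a, (D a).size ≤ (n / k) ^ e) →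
    (∀ a (G : SimpleGraph (Fin n)), (D a).Accepts G →
      ∃ c : Finset (Fin n), G.IsClique (c : Set (Fin n)) ∧ k ≤ c.card) →
    (({S : Finset (Fin n) | S.card = k ∧ ∃ a, ∀ G : SimpleGraph (Fin n),
      G.IsClique (S : Set (Fin n)) → (D a).Accepts G}.ncard : ℕ) : ℝ) ≤
      Fintype.card U * ((n.choose k : ℕ) : ℝ) ^ ε := by
  obtain ⟨t, ht⟩ := exists_nat_gt (1 / ε)
  have ht0 : (0 : ℝ) < t := lt_trans (by positivity) ht
  have ht1 : 1 ≤ t := by exact_mod_cast ht0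
  obtain ⟨K, hK1, hK⟩ := main_nat t ht1
  refine ⟨K, hK1, fun U _ n k e D he hek hew hD hcl => ?_⟩
  have hk0 : 1 ≤ k := by
    have : 1 * 1 ≤ K * e := Nat.mul_le_mul hK1 he
    omega
  have hW : 1 ≤ n / k := by
    refine le_trans ?_ hew
    exact Nat.one_le_pow _ _ (Nat.mul_pos hK1 he)
  have hkn : k ≤ n := by
    by_contra hcon
    rw [Nat.div_eq_of_lt (by omega)] at hW
    omega
  have hN1 : (1 : ℝ) ≤ ((n.choose k : ℕ) : ℝ) := by
    exact_mod_cast Nat.choose_pos hkn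
  obtain ⟨F, hF⟩ : ∃ F : U → Finset (Finset (Fin n)), ∀ a, F a =
      univ.filter fun S : Finset (Fin n) => S.card = k ∧
      ∀ G : SimpleGraph (Fin n), G.IsClique (S : Set (Fin n)) → (D a).Accepts G :=
    ⟨_, fun _ => rfl⟩
  have h1 : ∀ a, ((F a).card : ℝ) ≤ ((n.choose k : ℕ) : ℝ) ^ ε := by
    intro a
    have h2 := hK n k e he hek hew (D a) (hD a) (hcl a)
    rw [← hF] at h2
    have h3 : ((F a).card : ℝ) ^ ((t + 1 : ℕ) : ℝ) ≤ ((n.choose k : ℕ) : ℝ) := by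
      rw [Real.rpow_natCast]
      exact_mod_cast h2
    have hpos : (0 : ℝ) < ((t + 1 : ℕ) : ℝ) := by positivity
    have h4 : ((F a).card : ℝ) ≤ ((n.choose k : ℕ) : ℝ) ^ (((t + 1 : ℕ) : ℝ)⁻¹) := by
      have h5 := Real.rpow_le_rpow (by positivity) h3 (inv_nonneg.2 hpos.le)
      rw [← Real.rpow_mul (Nat.cast_nonneg _), mul_inv_cancel₀ hpos.ne', Real.rpow_one] at h5
      exact h5
    refine h4.trans (Real.rpow_le_rpow_of_exponent_le hN1 ?_)
    rw [inv_le_comm₀ hpos hε]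
    rw [one_div] at ht
    push_cast
    linarith
  have h2 : {S : Finset (Fin n) | S.card = k ∧ ∃ a, ∀ G : SimpleGraph (Fin n),
      G.IsClique (S : Set (Fin n)) → (D a).Accepts G} ⊆
      (((univ : Finset U).biUnion F : Finset (Finset (Fin n))) : Set (Finset (Fin n))) := by
    rintro S ⟨hS, a, ha⟩
    rw [mem_coe, mem_biUnion]
    refine ⟨a, mem_univ _, ?_⟩
    rw [hF, mem_filter]
    exact ⟨mem_univ _, hS, ha⟩
  have h3 := Set.ncard_le_ncard h2 (Finset.finite_toSet _)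
  rw [Set.ncard_coe_finset] at h3
  calc (({S : Finset (Fin n) | S.card = k ∧ ∃ a, ∀ G : SimpleGraph (Fin n),
      G.IsClique (S : Set (Fin n)) → (D a).Accepts G}.ncard : ℕ) : ℝ)
      ≤ ((∑ a : U, (F a).card : ℕ) : ℝ) := by
        exact_mod_cast h3.trans card_biUnion_le
    _ = ∑ a : U, ((F a).card : ℝ) := by push_cast; rfl
    _ ≤ ∑ _a : U, ((n.choose k : ℕ) : ℝ) ^ ε := sum_le_sum fun a _ => h1 a
    _ = Fintype.card U * ((n.choose k : ℕ) : ℝ) ^ ε := by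
        rw [sum_const, card_univ, nsmul_eq_mul]

end Pool.Agent.T9h35.Sharp
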