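import Pool.Agent.T9h35.Sharp.Approx
import Pool.Agent.T9h35.Join
import Pool.Agent.T9h35.Circ

set_option autoImplicit false

namespace Pool.Agent.T9h35.Sharp

open Finset Pool.Agent.T9h16 Pool.Agent.T9h35
open scoped Classical

/-- Vertices of the join of `M` blocks and `u` universal vertices. -/
abbrev PVer (M κ w u : ℕ) : Type := ((Fin M × Fin κ) × Fin w) ⊕ Fin u

/-- Adjacency in the join of the blocks. -/
def padj {M κ w u : ℕ} (y : Fin M → Set (EE κ w)) : PVer M κ w u → PVer M κ w u → Prop
  | .inl a, .inl b => a.1 ≠ b.1 ∧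
      ((∀ h : a.1.1 = b.1.1 ∧ a.1.2 < b.1.2, (⟨((a.1.2, a.2), (b.1.2, b.2)), h.2⟩ : EE κ w) ∈ y a.1.1) ∧
       (∀ h : b.1.1 = a.1.1 ∧ b.1.2 < a.1.2, (⟨((b.1.2, b.2), (a.1.2, a.2)), h.2⟩ : EE κ w) ∈ y b.1.1))
  | .inr a, .inr b => a ≠ b
  | .inr _, .inl _ => True
  | .inl _, .inr _ => True

/-- The join of the blocks. -/
def PG {M κ w u : ℕ} (y : Fin M → Set (EE κ w)) : SimpleGraph (PVer M κ w u) where
  Adj := padj y
  symm := ⟨by
    rintro (a | a) (b | b) h
    · exact ⟨Ne.symm h.1, h.2.2, h.2.1⟩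
    · trivial
    · trivial
    · exact Ne.symm h⟩
  loopless := ⟨by
    rintro (a | a) h
    · exact h.1 rfl
    · exact h rfl⟩

theorem PG_mono {M κ w u : ℕ} {y y' : Fin M → Set (EE κ w)} (h : ∀ i, y i ⊆ y' i) :
    (PG y : SimpleGraph (PVer M κ w u)) ≤ PG y' := by
  intro a b hab
  change padj y a b at hab
  change padj y' a b
  rcases a with a | a <;> rcases b with b | b
  · exact ⟨hab.1, fun e => h _ (hab.2.1 e), fun e => h _ (hab.2.2 e)⟩
  · exact hab
  · exact hab
  · exact hab

/-- Every adjacency is constant or a block variable. -/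
theorem PG_leaf {M κ w u : ℕ} (a b : PVer M κ w u) :
    (∃ t : Prop, ∀ y : Fin M → Set (EE κ w), (PG y).Adj a b ↔ t) ∨
    (∃ i e, ∀ y : Fin M → Set (EE κ w), (PG y).Adj a b ↔ e ∈ y i) := by
  rcases a with a | a <;> rcases b with b | b
  · by_cases h1 : a.1.1 = b.1.1
    · rcases lt_trichotomy a.1.2 b.1.2 with h2 | h2 | h2
      · refine Or.inr ⟨a.1.1, ⟨((a.1.2, a.2), (b.1.2, b.2)), h2⟩, fun y => ?_⟩
        constructor
        · intro h
          exact h.2.1 ⟨h1, h2⟩
        · intro h
          refine ⟨fun hab => ?_, fun _ => h, fun h3 => ?_⟩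
          · rw [hab] at h2
            exact lt_irrefl _ h2
          · exact absurd h3.2 (not_lt_of_gt h2)
      · refine Or.inl ⟨False, fun y => ?_⟩
        constructor
        · intro h
          exact h.1 (Prod.ext h1 h2)
        · exact fun h => h.elim
      · refine Or.inr ⟨b.1.1, ⟨((b.1.2, b.2), (a.1.2, a.2)), h2⟩, fun y => ?_⟩
        constructor
        · intro h
          exact h.2.2 ⟨h1.symm, h2⟩
        · intro h
          refine ⟨fun hab => ?_, fun h3 => ?_, fun _ => h⟩
          · rw [hab] at h2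
            exact lt_irrefl _ h2
          · exact absurd h3.2 (not_lt_of_gt h2)
    · refine Or.inl ⟨True, fun y => ?_⟩
      constructor
      · exact fun _ => trivial
      · intro _
        exact ⟨fun hab => h1 (by rw [hab]), fun h3 => absurd h3.1 h1, fun h3 => absurd h3.1.symm h1⟩
  · exact Or.inl ⟨_, fun y => Iff.rfl⟩
  · exact Or.inl ⟨_, fun y => Iff.rfl⟩
  · exact Or.inl ⟨_, fun y => Iff.rfl⟩

theorem PG_clique {M κ w u : ℕ} (y : Fin M → Set (EE κ w)) :
    (∃ c : Finset (PVer M κ w u), (PG y).IsClique (c : Set (PVer M κ w u)) ∧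
      u + M * κ ≤ c.card) ↔ ∀ i, ∃ φ : Fin κ → Fin w, posG φ ⊆ y i := by
  have hC : Fintype.card (Fin M × Fin κ) = M * κ := by
    rw [Fintype.card_prod, Fintype.card_fin, Fintype.card_fin]
  constructor
  · rintro ⟨c, hc, hcard⟩
    have hadj : ∀ a ∈ c, ∀ b ∈ c, a ≠ b → padj y a b := fun a ha b hb hab => hc ha hb hab
    have hL := jtransversal c.toLeft (by
      intro a ha b hb hab
      rw [mem_toLeft] at ha hb
      exact (hadj _ ha _ hb (fun h => hab (Sum.inl_injective h))).1)
    rw [hC] at hL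
    have hU : c.toRight.card ≤ u := by
      have := card_le_univ c.toRight
      simpa using this
    have h1 := card_toLeft_add_card_toRight (u := c)
    obtain ⟨φ, hφ⟩ := hL.2 (by have := hL.1; omega)
    intro i
    refine ⟨fun p => φ (i, p), ?_⟩
    intro e he
    have h1 := hφ (i, e.1.1.1)
    have h2 := hφ (i, e.1.2.1)
    rw [mem_toLeft] at h1 h2
    have h3 := (hadj _ h1 _ h2 (by
      intro h
      have := e.2
      have h' := congrArg (fun a => a.1.2) (Sum.inl_injective h)
      simp only at h'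
      rw [h'] at this
      exact lt_irrefl _ this)).2.1 ⟨rfl, e.2⟩
    have h4 : e = ⟨((e.1.1.1, φ (i, e.1.1.1)), (e.1.2.1, φ (i, e.1.2.1))), e.2⟩ := by
      apply Subtype.ext
      have h5 : φ (i, e.1.1.1) = e.1.1.2 := he.1
      have h6 : φ (i, e.1.2.1) = e.1.2.2 := he.2
      rw [h5, h6]
    rw [h4]
    exact h3
  · intro h
    choose φ h using h
    obtain ⟨cL, hcL⟩ : ∃ cL : Finset ((Fin M × Fin κ) × Fin w), cL =
      univ.image fun x : Fin M × Fin κ => (x, φ x.1 x.2) := ⟨_, rfl⟩
    have hL : cL.card = M * κ := by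
      rw [hcL, card_image_of_injective, card_univ, hC]
      intro x x' hx
      simp only [Prod.mk.injEq] at hx
      exact hx.1
    refine ⟨cL.disjSum univ, ?_, ?_⟩
    · intro a ha b hb hab
      change padj y a b
      rcases a with a | a <;> rcases b with b | b <;>
        simp only [mem_coe, Sum.inl.injEq, Sum.inr.injEq, reduceCtorEq,
          inl_mem_disjSum, inr_mem_disjSum, mem_univ, ne_eq, hcL, mem_image, true_and,
          not_false_eq_true] at ha hb hab ⊢
      · obtain ⟨x, rfl⟩ := ha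
        obtain ⟨x', rfl⟩ := hb
        refine ⟨?_, ?_, ?_⟩
        · intro hxx
          apply hab
          simp only at hxx
          rw [hxx]
        · rintro ⟨h1, h2⟩
          simp only at h1 h2 ⊢
          refine h x.1 ⟨rfl, ?_⟩
          simp only
          rw [h1]
        · rintro ⟨h1, h2⟩
          simp only at h1 h2 ⊢
          refine h x'.1 ⟨rfl, ?_⟩
          simp only
          rw [h1]
      · trivial
      · trivial
      · exact hab
    · rw [card_disjSum, hL, card_univ, Fintype.card_fin]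
      omega

/-- Cliques of size at least two of a graph placed on some vertices of a bigger vertex set. -/
theorem clique_map {V W : Type} [Fintype V] (G : SimpleGraph V) (ι : V ↪ W) (k : ℕ) (hk : 2 ≤ k) :
    (∃ c : Finset W, (G.map ι).IsClique (c : Set W) ∧ k ≤ c.card) ↔
      ∃ c : Finset V, G.IsClique (c : Set V) ∧ k ≤ c.card := by
  constructor
  · rintro ⟨c, hc, hck⟩
    have hrange : ∀ a ∈ c, ∃ a', ι a' = a := by
      intro a ha
      obtain ⟨b, hb, hba⟩ : ∃ b ∈ c, b ≠ a := by
        apply exists_mem_ne (by omega)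
      have := hc hb ha hba
      rw [SimpleGraph.map_adj] at this
      obtain ⟨u', v', _, _, h⟩ := this
      exact ⟨v', h⟩
    refine ⟨univ.filter fun a => ι a ∈ c, ?_, ?_⟩
    · intro a ha b hb hab
      simp only [coe_filter, mem_univ, true_and, Set.mem_ofPred_eq] at ha hb
      have := hc ha hb (fun h => hab (ι.injective h))
      rwa [SimpleGraph.map_adj_apply] at this
    · have : c ⊆ (univ.filter fun a => ι a ∈ c).map ι := by
        intro a ha
        obtain ⟨a', rfl⟩ := hrange a ha
        simp only [mem_map, mem_filter, mem_univ, true_and]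
        exact ⟨a', ha, rfl⟩
      have := card_le_card this
      rw [card_map] at this
      omega
  · rintro ⟨c, hc, hck⟩
    refine ⟨c.map ι, ?_, ?_⟩
    · rw [coe_map]
      exact hc.map
    · rw [card_map]
      omega

/-- A colouring with `m` colours does not contain the complete graph on `m + 1` points. -/
theorem neg_no_pos {m w : ℕ} (χ : Vx (m + 1) w → Fin m) (φ : Fin (m + 1) → Fin w) :
    ¬ (posG φ ⊆ (negG χ : Set (EE (m + 1) w))) := by
  intro h
  obtain ⟨p, p', hne, hpp⟩ := Fintype.exists_ne_map_eq_of_card_lt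
    (fun p : Fin (m + 1) => χ (p, φ p)) (by simp)
  rcases lt_or_gt_of_ne hne with hlt | hlt
  · exact h (show (⟨((p, φ p), (p', φ p')), hlt⟩ : EE (m + 1) w) ∈ posG φ from ⟨rfl, rfl⟩) hpp
  · exact h (show (⟨((p', φ p'), (p, φ p)), hlt⟩ : EE (m + 1) w) ∈ posG φ from ⟨rfl, rfl⟩) hpp.symm

/-- The points of the transversals and all universal vertices. -/
noncomputable def tset {M κ w u : ℕ} (Φ : Fin M → Fin κ → Fin w) : Finset (PVer M κ w u) :=
  ((univ : Finset (Fin M × Fin κ)).image fun x => (x, Φ x.1 x.2)).disjSum univ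

theorem tset_card {M κ w u : ℕ} (Φ : Fin M → Fin κ → Fin w) :
    (tset (u := u) Φ).card = u + M * κ := by
  rw [tset, card_disjSum, card_image_of_injective, card_univ, card_univ, Fintype.card_prod,
    Fintype.card_fin, Fintype.card_fin, Fintype.card_fin, add_comm]
  intro x x' hx
  simp only [Prod.mk.injEq] at hx
  exact hx.1

theorem tset_clique {M κ w u : ℕ} (Φ : Fin M → Fin κ → Fin w) :
    (PG (u := u) fun i => posG (Φ i)).IsClique (tset (u := u) Φ : Set (PVer M κ w u)) := by
  intro a ha b hb hab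
  change padj (fun i => posG (Φ i)) a b
  rcases a with a | a <;> rcases b with b | b <;>
    simp only [mem_coe, Sum.inl.injEq, Sum.inr.injEq, reduceCtorEq, tset,
      inl_mem_disjSum, inr_mem_disjSum, mem_univ, ne_eq, mem_image, true_and,
      not_false_eq_true] at ha hb hab ⊢
  · obtain ⟨x, rfl⟩ := ha
    obtain ⟨x', rfl⟩ := hb
    refine ⟨?_, ?_, ?_⟩
    · intro hxx
      apply hab
      simp only at hxx
      rw [hxx]
    · rintro ⟨h1, h2⟩
      simp only at h1 h2 ⊢
      refine ⟨rfl, ?_⟩
      simp only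
      rw [h1]
    · rintro ⟨h1, h2⟩
      simp only at h1 h2 ⊢
      refine ⟨rfl, ?_⟩
      simp only
      rw [h1]
  · trivial
  · trivial
  · exact hab

/-- The main inequality: a small sound circuit accepts few tuples of transversals. -/
theorem core_embed (n k M m w u s Q : ℕ) (hM : 1 ≤ M) (hm : 2 ≤ m)
    (hk : k = u + M * (m + 1))
    (hfew : ∀ g : ℕ → Set (EE (m + 1) w) → Prop, IsSLP g s → ∀ h : Set (EE (m + 1) w) → Prop,
      Avail g s h → (∀ χ : Vx (m + 1) w → Fin m, ¬ h (negG χ)) →
      (univ.filter fun φ : Fin (m + 1) → Fin w => h (posG φ)).card ≤ Q)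
    (ι : PVer M (m + 1) w u ↪ Fin n) (C : MonoCircuit n) (hC : C.size ≤ s)
    (hcl : ∀ G : SimpleGraph (Fin n), C.Accepts G →
      ∃ c : Finset (Fin n), G.IsClique (c : Set (Fin n)) ∧ k ≤ c.card) :
    (univ.filter fun Φ : Fin M → Fin (m + 1) → Fin w =>
      C.Accepts ((PG (u := u) fun i => posG (Φ i)).map ι)).card ≤ Q ^ M := by
  have hk2 : 2 ≤ k := by
    have : 1 * (m + 1) ≤ M * (m + 1) := Nat.mul_le_mul_right _ hM
    omega
  obtain ⟨G, hG⟩ : ∃ G : (Fin M → Set (EE (m + 1) w)) → SimpleGraph (Fin n),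
      ∀ y, G y = (PG (u := u) y).map ι := ⟨_, fun _ => rfl⟩
  have hGm : ∀ y y', (∀ i, y i ⊆ y' i) → G y ≤ G y' := by
    intro y y' h
    rw [hG, hG]
    exact SimpleGraph.map_monotone ι (PG_mono h)
  have hGl : ∀ a b : Fin n, (∃ t : Prop, ∀ y, (G y).Adj a b ↔ t) ∨
      (∃ i e, ∀ y, (G y).Adj a b ↔ e ∈ y i) := by
    intro a b
    simp only [hG]
    by_cases ha : ∃ u', ι u' = a
    · by_cases hb : ∃ v', ι v' = b
      · obtain ⟨a', rfl⟩ := ha
        obtain ⟨b', rfl⟩ := hb
        simp only [SimpleGraph.map_adj_apply]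
        exact PG_leaf a' b'
      · left
        refine ⟨False, fun y => ?_⟩
        simp only [SimpleGraph.map_adj, iff_false, not_exists, not_and]
        rintro u' v' _ _ h
        exact hb ⟨v', h⟩
    · left
      refine ⟨False, fun y => ?_⟩
      simp only [SimpleGraph.map_adj, iff_false, not_exists, not_and]
      rintro u' v' _ h _
      exact ha ⟨u', h⟩
  have hGc : ∀ y, C.Accepts (G y) → ∀ i, ∃ φ : Fin (m + 1) → Fin w, posG φ ⊆ y i := by
    intro y hy
    have h1 := hcl _ hy
    rw [hG, clique_map _ ι k hk2, hk, PG_clique] at h1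
    exact h1
  -- the transversals accepted in one block, the other blocks being full
  obtain ⟨A, hA⟩ : ∃ A : Fin M → Finset (Fin (m + 1) → Fin w), ∀ i, A i =
      univ.filter fun φ => C.Accepts (G (Function.update (fun _ => Set.univ) i (posG φ))) :=
    ⟨_, fun _ => rfl⟩
  have hAc : ∀ i, (A i).card ≤ Q := by
    intro i
    obtain ⟨Γ, hΓ⟩ : ∃ Γ : Set (EE (m + 1) w) → SimpleGraph (Fin n),
        ∀ z, Γ z = G (Function.update (fun _ => Set.univ) i z) := ⟨_, fun _ => rfl⟩
    have hleaf : ∀ x y, Leaf fun z => (Γ z).Adj x y := by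
      intro x y
      rcases hGl x y with ⟨t, ht⟩ | ⟨i', e, he⟩
      · refine Or.inr ⟨t, fun z => ?_⟩
        show (Γ z).Adj x y ↔ _
        rw [hΓ, ht]
      · by_cases hii : i' = i
        · refine Or.inl ⟨e, fun z => ?_⟩
          show (Γ z).Adj x y ↔ _
          rw [hΓ, he, hii, Function.update_self]
        · refine Or.inr ⟨True, fun z => ?_⟩
          show (Γ z).Adj x y ↔ _
          rw [hΓ, he, Function.update_of_ne hii]
          exact iff_of_true (Set.mem_univ _) trivial
    obtain ⟨gt, hgt, hav⟩ := (C.slp Γ hleaf).mono subset_rfl hC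
    have hfew' := hfew gt hgt (fun z => C.Accepts (Γ z))
      (hav _ rfl) (by
        intro χ hχ
        have hχ' : C.Accepts (Γ (negG χ)) := hχ
        rw [hΓ] at hχ'
        obtain ⟨φ, hφ⟩ := hGc _ hχ' i
        rw [Function.update_self] at hφ
        exact neg_no_pos χ φ hφ)
    rw [hA]
    simp only [hΓ] at hfew'
    exact hfew'
  have hcover : (univ.filter fun Φ : Fin M → Fin (m + 1) → Fin w =>
      C.Accepts ((PG (u := u) fun i => posG (Φ i)).map ι)) ⊆ Fintype.piFinset A := by
    intro Φ hΦ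
    rw [mem_filter, ← hG] at hΦ
    rw [Fintype.mem_piFinset]
    intro i
    rw [hA, mem_filter]
    refine ⟨mem_univ _, C.mono (hGm _ _ ?_) hΦ.2⟩
    intro i'
    by_cases hii : i' = i
    · subst hii
      rw [Function.update_self]
    · rw [Function.update_of_ne hii]
      exact Set.subset_univ _
  refine (card_le_card hcover).trans ?_
  rw [Fintype.card_piFinset]
  refine (prod_le_pow_card _ _ _ fun i _ => hAc i).trans ?_
  rw [card_univ, Fintype.card_fin]

end Pool.Agent.T9h35.Sharp
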