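import Mathlib

set_option autoImplicit false

namespace Pool.Agent.T9h35.Sharp

open Finset

theorem pow_le_fact (m : ℕ) : m ^ m ≤ 3 ^ m * m.factorial := by
  have h1 := Real.pow_div_factorial_le_exp (x := (m : ℝ)) (Nat.cast_nonneg m) m
  have h2 : (0 : ℝ) < (m.factorial : ℝ) := by exact_mod_cast Nat.factorial_pos m
  rw [div_le_iff₀ h2] at h1
  have h3 : Real.exp (m : ℝ) ≤ 3 ^ m := by
    have h4 : Real.exp (m : ℝ) = Real.exp 1 ^ m := by
      rw [← Real.exp_nat_mul, mul_one]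
    rw [h4]
    apply pow_le_pow_left₀ (Real.exp_pos 1).le
    have := Real.exp_one_lt_d9
    linarith
  have h5 : (m : ℝ) ^ m ≤ 3 ^ m * m.factorial := h1.trans (mul_le_mul_of_nonneg_right h3 h2.le)
  exact_mod_cast h5

theorem bern (X Y N : ℕ) : X ^ N * (X + N * Y) ≤ (X + Y) ^ N * X := by
  induction N with
  | zero => simp
  | succ N ih =>
    calc X ^ (N + 1) * (X + (N + 1) * Y) = X ^ N * (X * X + (N + 1) * (X * Y)) := by ring
      _ ≤ X ^ N * (X * X + (N + 1) * (X * Y) + N * (Y * Y)) :=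
          Nat.mul_le_mul_left _ (Nat.le_add_right _ _)
      _ = (X + Y) * (X ^ N * (X + N * Y)) := by ring
      _ ≤ (X + Y) * ((X + Y) ^ N * X) := Nat.mul_le_mul_left _ ih
      _ = (X + Y) ^ (N + 1) * X := by ring

theorem half_step (m : ℕ) :
    2 * (m ^ m - m.factorial) ^ (3 ^ m) ≤ (m ^ m) ^ (3 ^ m) := by
  obtain ⟨X, hX⟩ : ∃ X, X = m ^ m - m.factorial := ⟨_, rfl⟩
  have h1 : m.factorial ≤ m ^ m := Nat.factorial_le_pow _
  have h2 : m ^ m = X + m.factorial := by omega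
  have h3 := pow_le_fact m
  rw [← hX, h2]
  rcases Nat.eq_zero_or_pos X with h0 | h0
  · rw [h0, zero_pow (by positivity)]
    simp
  · have h4 := bern X m.factorial (3 ^ m)
    apply Nat.le_of_mul_le_mul_right _ h0
    refine le_trans ?_ h4
    calc 2 * X ^ 3 ^ m * X = X ^ 3 ^ m * (X + X) := by ring
      _ ≤ X ^ 3 ^ m * (X + 3 ^ m * m.factorial) := by
          apply Nat.mul_le_mul_left
          omega

theorem many_steps (m s L : ℕ) (hm : 2 ≤ m) (hL : m ^ m * s < 2 ^ L) :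
    m ^ m * (s * (m ^ m - m.factorial) ^ (3 ^ m * L)) < (m ^ m) ^ (3 ^ m * L) := by
  have hpos : 0 < m ^ m - m.factorial := by
    have : m.factorial < m ^ m := by
      obtain ⟨m', rfl⟩ : ∃ m', m = m' + 1 := ⟨m - 1, by omega⟩
      rw [Nat.factorial_succ, pow_succ, mul_comm]
      apply Nat.mul_lt_mul_of_pos_right _ (Nat.succ_pos _)
      exact lt_of_le_of_lt (Nat.factorial_le_pow _)
        (Nat.pow_lt_pow_left (Nat.lt_succ_self _) (by omega))
    omega
  have h1 : 2 ^ L * (m ^ m - m.factorial) ^ (3 ^ m * L) ≤ (m ^ m) ^ (3 ^ m * L) := by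
    rw [pow_mul, pow_mul, ← mul_pow]
    exact Nat.pow_le_pow_left (half_step m) L
  refine lt_of_lt_of_le ?_ h1
  rw [← mul_assoc]
  exact Nat.mul_lt_mul_of_pos_right hL (Nat.pow_pos hpos)

theorem choose_le (n k W : ℕ) (hk : 1 ≤ k) (hW : 1 ≤ W) (hn : n < (W + 1) * k) :
    n.choose k ≤ (6 * W) ^ k := by
  have h1 : n.choose k * k.factorial ≤ n ^ k := by
    rw [mul_comm, ← Nat.descFactorial_eq_factorial_mul_choose]
    exact Nat.descFactorial_le_pow _ _
  have h2 := pow_le_fact k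
  have h3 : n ≤ 2 * W * k := by nlinarith
  apply Nat.le_of_mul_le_mul_right _ (Nat.pow_pos (n := k) hk)
  calc n.choose k * k ^ k ≤ n.choose k * (3 ^ k * k.factorial) := Nat.mul_le_mul_left _ h2
    _ = 3 ^ k * (n.choose k * k.factorial) := by ring
    _ ≤ 3 ^ k * (2 * W * k) ^ k :=
        Nat.mul_le_mul_left _ (h1.trans (Nat.pow_le_pow_left h3 _))
    _ = (6 * W) ^ k * k ^ k := by
        rw [← mul_pow, ← mul_pow]
        congr 1
        ring

theorem exists_large (A : ℕ) : ∃ K1, ∀ l : ℕ, K1 ≤ l → (9 * l ^ 6) ^ (2 * A) ≤ 2 ^ l := by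
  have h := tendsto_pow_const_div_const_pow_of_one_lt (12 * A) (r := (2 : ℝ)) (by norm_num)
  have h2 : ∀ᶠ l : ℕ in Filter.atTop, (l : ℝ) ^ (12 * A) / 2 ^ l < 1 / 9 ^ (2 * A) :=
    h.eventually_lt_const (by positivity)
  obtain ⟨K1, hK1⟩ := Filter.eventually_atTop.1 h2
  refine ⟨K1, fun l hl => ?_⟩
  have h3 := hK1 l hl
  rw [div_lt_div_iff₀ (by positivity) (by positivity), one_mul] at h3
  have h4 : ((9 * l ^ 6 : ℕ) : ℝ) ^ (2 * A) ≤ 2 ^ l := by
    push_cast
    rw [mul_pow, ← pow_mul, show 6 * (2 * A) = 12 * A by ring, mul_comm]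
    exact h3.le
  exact_mod_cast h4

/-- The choice of the parameters. -/
theorem params (t : ℕ) (ht : 1 ≤ t) : ∃ K, 1 ≤ K ∧ ∀ n k : ℕ, K ≤ min k (Nat.log 2 (n / k)) →
    ∃ M m w u c j : ℕ, 1 ≤ M ∧ 2 ≤ m ∧ 1 ≤ w ∧ 2 ≤ c ∧ j * m ≤ c ∧ k = u + M * (m + 1) ∧
      M * (m + 1) * w + u ≤ n ∧
      m ^ m * ((n / k) ^ (min k (Nat.log 2 (n / k)) / K) * (m ^ m - m.factorial) ^ j) <
        (m ^ m) ^ j ∧
      (((n / k) ^ (min k (Nat.log 2 (n / k)) / K) * (c * c) ^ (m + 1)) ^ M) ^ (t + 1) *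
        (n.choose k) ^ t ≤ ((w ^ (m + 1)) ^ M) ^ (t + 1) := by
  obtain ⟨A, hA⟩ : ∃ A, A = 16 * t + 2 := ⟨_, rfl⟩
  obtain ⟨K1, hK1⟩ := exists_large A
  refine ⟨8 * (A * A) + K1, by nlinarith, ?_⟩
  intro n k hd
  obtain ⟨K, hK⟩ : ∃ K, K = 8 * (A * A) + K1 := ⟨_, rfl⟩
  obtain ⟨W, hW⟩ : ∃ W, W = n / k := ⟨_, rfl⟩
  rw [← hW] at hd ⊢
  obtain ⟨l, hl⟩ : ∃ l, l = Nat.log 2 W := ⟨_, rfl⟩
  rw [← hl] at hd ⊢
  obtain ⟨d, hd'⟩ : ∃ d, d = min k l := ⟨_, rfl⟩
  rw [← hd', ← hK] at hd ⊢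
  obtain ⟨e, he⟩ : ∃ e, e = d / K := ⟨_, rfl⟩
  rw [← he]
  have hKpos : 1 ≤ K := by nlinarith
  have he1 : 1 ≤ e := by
    rw [he]
    exact (Nat.one_le_div_iff hKpos).2 hd
  have hKe : K * e ≤ d := by
    rw [he]
    exact Nat.mul_div_le _ _
  have hdk : d ≤ k := by rw [hd']; exact min_le_left _ _
  have hdl : d ≤ l := by rw [hd']; exact min_le_right _ _
  have hAA : 8 * (A * A) ≤ K := by omega
  have hK1l : K1 ≤ l := by omega
  have hlK : K ≤ l := by omega
  have hl1 : 1 ≤ l := by omega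
  have hW2 : 2 ^ l ≤ W := by
    rw [hl]
    apply Nat.pow_log_le_self
    rintro h0
    rw [h0] at hl
    simp at hl
    omega
  have hW1 : 1 ≤ W := le_trans (Nat.one_le_two_pow) hW2
  have hWl : W < 2 ^ (l + 1) := by
    rw [hl]
    exact Nat.lt_pow_succ_log_self (by norm_num) _
  have hk1 : 1 ≤ k := by omega
  -- the number of parts of a block
  obtain ⟨m, hm⟩ : ∃ m, m + 1 = A * e := ⟨A * e - 1, by
    have : 1 ≤ A * e := Nat.mul_pos (by omega) he1
    omega⟩
  have hm2 : 2 ≤ m := by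
    have : 18 * 1 ≤ A * e := Nat.mul_le_mul (by omega) he1
    omega
  obtain ⟨M, hM⟩ : ∃ M, M = k / (m + 1) := ⟨_, rfl⟩
  obtain ⟨u, hu⟩ : ∃ u, u = k % (m + 1) := ⟨_, rfl⟩
  have hkM : k = u + M * (m + 1) := by
    rw [hM, hu, add_comm, mul_comm]
    exact (Nat.div_add_mod k (m + 1)).symm
  have hku : k ≤ (M + 1) * (m + 1) := by
    have : u < m + 1 := by rw [hu]; exact Nat.mod_lt _ (by omega)
    rw [hkM]
    nlinarith
  have hM8 : 8 * t ≤ M := by
    rw [hM]
    apply (Nat.le_div_iff_mul_le (by omega)).2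
    rw [hm]
    calc 8 * t * (A * e) = (8 * t * A) * e := by ring
      _ ≤ K * e := by
          apply Nat.mul_le_mul_right
          refine le_trans ?_ hAA
          have : t * A ≤ A * A := Nat.mul_le_mul_right _ (by omega)
          nlinarith
      _ ≤ k := hKe.trans hdk
  obtain ⟨L, hL⟩ : ∃ L, L = m * m + (l + 1) * e := ⟨_, rfl⟩
  have hLs : m ^ m * W ^ e < 2 ^ L := by
    rw [hL, pow_add, pow_mul, pow_mul]
    have h1 : m ^ m ≤ (2 ^ m) ^ m := Nat.pow_le_pow_left (Nat.lt_two_pow_self).le _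
    have h2 : W ^ e < (2 ^ (l + 1)) ^ e := Nat.pow_lt_pow_left hWl (by omega)
    exact Nat.mul_lt_mul_of_le_of_lt h1 h2 (by positivity)
  have hL1 : 1 ≤ L := by
    rw [hL]
    nlinarith
  refine ⟨M, m, W, u, 3 ^ m * L * m, 3 ^ m * L, by omega, hm2, hW1, ?_, le_rfl, hkM, ?_,
    many_steps m (W ^ e) L hm2 hLs, ?_⟩
  · have : 1 ≤ 3 ^ m * L := Nat.mul_pos (by positivity) hL1
    nlinarith
  · calc M * (m + 1) * W + u ≤ M * (m + 1) * W + u * W :=
          Nat.add_le_add_left (Nat.le_mul_of_pos_right _ hW1) _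
      _ = k * W := by rw [hkM]; ring
      _ ≤ n := by rw [hW]; exact Nat.mul_div_le _ _
  · -- bounds
    obtain ⟨c, hc⟩ : ∃ c, c = 3 ^ m * L * m := ⟨_, rfl⟩
    rw [← hc]
    have hAe : 8 * A * (A * e) ≤ l := by
      calc 8 * A * (A * e) = 8 * (A * A) * e := by ring
        _ ≤ K * e := Nat.mul_le_mul_right _ hAA
        _ ≤ l := hKe.trans hdl
    have hml : m ≤ l := by
      have : 1 * (A * e) ≤ 8 * A * (A * e) := Nat.mul_le_mul_right _ (by omega)
      omega
    have hel : e ≤ l := by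
      have : 1 * e ≤ K * e := Nat.mul_le_mul_right _ hKpos
      omega
    have hL3 : L ≤ 3 * l ^ 2 := by
      rw [hL]
      have h1 : m * m ≤ l * l := Nat.mul_le_mul hml hml
      have h2 : (l + 1) * e ≤ (l + 1) * l := Nat.mul_le_mul_left _ hel
      nlinarith
    have hc1 : c ≤ 3 ^ m * (3 * l ^ 3) := by
      rw [hc]
      calc 3 ^ m * L * m ≤ 3 ^ m * (3 * l ^ 2) * l :=
            Nat.mul_le_mul (Nat.mul_le_mul_left _ hL3) hml
        _ = 3 ^ m * (3 * l ^ 3) := by ring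
    have hc2 : ((c * c) ^ A) ^ 2 ≤ W ^ 2 := by
      calc ((c * c) ^ A) ^ 2 = (c ^ 2) ^ (2 * A) := by rw [← pow_mul, ← pow_two]; ring_nf
        _ ≤ ((3 ^ m * (3 * l ^ 3)) ^ 2) ^ (2 * A) :=
            Nat.pow_le_pow_left (Nat.pow_le_pow_left hc1 2) _
        _ = (9 ^ m) ^ (2 * A) * (9 * l ^ 6) ^ (2 * A) := by
            rw [← mul_pow]
            congr 1
            rw [mul_pow, ← pow_mul, mul_comm m 2, pow_mul]
            ring
        _ ≤ 2 ^ l * 2 ^ l := by
            apply Nat.mul_le_mul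
            · calc (9 ^ m) ^ (2 * A) ≤ ((2 ^ 4) ^ m) ^ (2 * A) :=
                    Nat.pow_le_pow_left (Nat.pow_le_pow_left (by norm_num) _) _
                _ = 2 ^ (8 * A * m) := by rw [← pow_mul, ← pow_mul]; ring_nf
                _ ≤ 2 ^ l := by
                    apply Nat.pow_le_pow_right (by norm_num)
                    refine le_trans ?_ hAe
                    apply Nat.mul_le_mul_left
                    omega
            · exact hK1 l hK1l
        _ ≤ W * W := Nat.mul_le_mul hW2 hW2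
        _ = W ^ 2 := by ring
    have hc3 : (c * c) ^ A ≤ W := (Nat.pow_le_pow_iff_left (by norm_num)).1 hc2
    have hQ : W ^ e * (c * c) ^ (m + 1) ≤ W ^ (2 * e) := by
      rw [hm, pow_mul, two_mul, pow_add]
      exact Nat.mul_le_mul_left _ (Nat.pow_le_pow_left hc3 _)
    have hC : n.choose k ≤ (6 * W) ^ k := by
      apply choose_le n k W hk1 hW1
      rw [hW, mul_comm]
      exact Nat.lt_mul_div_succ _ hk1
    have h6 : 6 ^ (8 * t) ≤ W := by
      calc 6 ^ (8 * t) ≤ 8 ^ (8 * t) := Nat.pow_le_pow_left (by norm_num) _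
        _ = 2 ^ (24 * t) := by
            rw [show (8 : ℕ) = 2 ^ 3 by norm_num, ← pow_mul]
            ring_nf
        _ ≤ 2 ^ l := by
            apply Nat.pow_le_pow_right (by norm_num)
            nlinarith
        _ ≤ W := hW2
    have hCT : (n.choose k) ^ (8 * t) ≤ W ^ (k * (8 * t + 1)) := by
      calc (n.choose k) ^ (8 * t) ≤ ((6 * W) ^ k) ^ (8 * t) := Nat.pow_le_pow_left hC _
        _ = (6 ^ (8 * t)) ^ k * W ^ (k * (8 * t)) := by
            rw [mul_pow, mul_pow, ← pow_mul, ← pow_mul, ← pow_mul]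
            ring_nf
        _ ≤ W ^ k * W ^ (k * (8 * t)) := Nat.mul_le_mul_right _ (Nat.pow_le_pow_left h6 _)
        _ = W ^ (k * (8 * t + 1)) := by rw [← pow_add]; ring_nf
    have hexp : 2 * e * M * (t + 1) * (8 * t) + (M + 1) * (A * e) * (8 * t + 1) * t ≤
        A * e * M * (t + 1) * (8 * t) := by
      have h1 : (M + 1) * (8 * t) ≤ M * (8 * t + 1) := by nlinarith
      have h2 : (M + 1) * A * (8 * t + 1) * t ≤ 16 * t * M * (t + 1) * (8 * t) := by
        have h3 : 8 * ((M + 1) * A * (8 * t + 1) * t) ≤ 8 * (16 * t * M * (t + 1) * (8 * t)) := by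
          calc 8 * ((M + 1) * A * (8 * t + 1) * t) = ((M + 1) * (8 * t)) * (A * (8 * t + 1)) := by
                ring
            _ ≤ (M * (8 * t + 1)) * (A * (8 * t + 1)) := Nat.mul_le_mul_right _ h1
            _ = M * ((16 * t + 2) * (8 * t + 1) * (8 * t + 1)) := by rw [hA]; ring
            _ ≤ M * (1024 * t * t * (t + 1)) := by
                apply Nat.mul_le_mul_left
                nlinarith [Nat.mul_le_mul ht ht, Nat.mul_le_mul (Nat.mul_le_mul ht ht) ht]
            _ = 8 * (16 * t * M * (t + 1) * (8 * t)) := by ring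
        omega
      calc 2 * e * M * (t + 1) * (8 * t) + (M + 1) * (A * e) * (8 * t + 1) * t
          = e * (2 * M * (t + 1) * (8 * t) + (M + 1) * A * (8 * t + 1) * t) := by ring
        _ ≤ e * (2 * M * (t + 1) * (8 * t) + 16 * t * M * (t + 1) * (8 * t)) :=
            Nat.mul_le_mul_left _ (Nat.add_le_add_left h2 _)
        _ = A * e * M * (t + 1) * (8 * t) := by rw [hA]; ring
    apply (Nat.pow_le_pow_iff_left (show 8 * t ≠ 0 by omega)).1
    calc (((W ^ e * (c * c) ^ (m + 1)) ^ M) ^ (t + 1) * (n.choose k) ^ t) ^ (8 * t)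
        = (W ^ e * (c * c) ^ (m + 1)) ^ (M * (t + 1) * (8 * t)) *
            ((n.choose k) ^ (8 * t)) ^ t := by
          rw [mul_pow, ← pow_mul, ← pow_mul, ← pow_mul, ← pow_mul]
          ring_nf
      _ ≤ (W ^ (2 * e)) ^ (M * (t + 1) * (8 * t)) * (W ^ (k * (8 * t + 1))) ^ t :=
          Nat.mul_le_mul (Nat.pow_le_pow_left hQ _) (Nat.pow_le_pow_left hCT _)
      _ = W ^ (2 * e * M * (t + 1) * (8 * t) + k * (8 * t + 1) * t) := by
          rw [← pow_mul, ← pow_mul, ← pow_add]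
          ring_nf
      _ ≤ W ^ (A * e * M * (t + 1) * (8 * t)) := by
          apply Nat.pow_le_pow_right hW1
          refine le_trans ?_ hexp
          apply Nat.add_le_add_left
          apply Nat.mul_le_mul_right
          apply Nat.mul_le_mul_right
          rw [← hm]
          exact hku
      _ = (((W ^ (m + 1)) ^ M) ^ (t + 1)) ^ (8 * t) := by
          rw [hm, ← pow_mul, ← pow_mul, ← pow_mul]
          ring_nf

end Pool.Agent.T9h35.Sharp
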