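import Mathlib

set_option autoImplicit false

/-!
Second moment bound for spread set families (from the library `Pool.Agent.T9h34` of a teammate).
-/

namespace Pool.Agent.T9h35.Sharp.Moment

open Finset

/-- The real number `1` if `p` holds and `0` otherwise. -/
noncomputable def ind (p : Prop) : ℝ := by
  classical
  exact if p then 1 else 0

theorem ind_of {p : Prop} (h : p) : ind p = 1 := by simp [ind, h]

theorem ind_not {p : Prop} (h : ¬ p) : ind p = 0 := by simp [ind, h]

theorem ind_nonneg (p : Prop) : 0 ≤ ind p := by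
  by_cases h : p
  · rw [ind_of h]; norm_num
  · rw [ind_not h]

theorem ind_le_one (p : Prop) : ind p ≤ 1 := by
  by_cases h : p
  · rw [ind_of h]
  · rw [ind_not h]; norm_num

theorem ind_compl (p : Prop) : ind (¬ p) = 1 - ind p := by
  by_cases hp : p
  · rw [ind_of hp, ind_not (by simpa using hp)]; norm_num
  · rw [ind_not hp, ind_of hp]; norm_num

theorem ind_and (p q : Prop) : ind (p ∧ q) = ind p * ind q := by
  by_cases hp : p
  · by_cases hq : q
    · rw [ind_of hp, ind_of hq, ind_of ⟨hp, hq⟩]; norm_num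
    · rw [ind_not hq, ind_not (by tauto)]; norm_num
  · rw [ind_not hp, ind_not (by tauto)]; norm_num

variable {X : Type*} [Fintype X] [DecidableEq X]

/-- The set of points that `φ` sends to the first colour. -/
def zset (D : ℕ) (φ : X → Fin D) : Finset X := univ.filter (fun x => (φ x : ℕ) = 0)

/-- Average of `F` over a random set containing each point independently with
probability `1 / D`. -/
noncomputable def Ez (D : ℕ) (F : Finset X → ℝ) : ℝ :=
  (∑ φ : X → Fin D, F (zset D φ)) / (D : ℝ) ^ (Fintype.card X)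

theorem Ez_mono {D : ℕ} {F G : Finset X → ℝ} (h : ∀ z, F z ≤ G z) : Ez D F ≤ Ez D G := by
  unfold Ez
  apply div_le_div_of_nonneg_right _ (by positivity)
  exact Finset.sum_le_sum (fun φ _ => h _)

theorem Ez_const_mul (D : ℕ) (c : ℝ) (F : Finset X → ℝ) :
    Ez D (fun z => c * F z) = c * Ez D F := by
  unfold Ez
  rw [← Finset.mul_sum, mul_div_assoc]

theorem Ez_sum {α : Type*} (D : ℕ) (s : Finset α) (F : α → Finset X → ℝ) :
    Ez D (fun z => ∑ a ∈ s, F a z) = ∑ a ∈ s, Ez D (F a) := by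
  unfold Ez
  rw [Finset.sum_comm, Finset.sum_div]

theorem Ez_const {D : ℕ} (hD : 0 < D) (c : ℝ) : Ez (X := X) D (fun _ => c) = c := by
  unfold Ez
  have hD' : (D : ℝ) ≠ 0 := by positivity
  rw [Finset.sum_const, Finset.card_univ, Fintype.card_fun, Fintype.card_fin, nsmul_eq_mul]
  push_cast
  field_simp

theorem Ez_nonneg {D : ℕ} {F : Finset X → ℝ} (h : ∀ z, 0 ≤ F z) : 0 ≤ Ez D F := by
  unfold Ez
  exact div_nonneg (Finset.sum_nonneg (fun φ _ => h _)) (by positivity)

theorem Ez_sub (D : ℕ) (F G : Finset X → ℝ) :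
    Ez D (fun z => F z - G z) = Ez D F - Ez D G := by
  unfold Ez
  rw [Finset.sum_sub_distrib, sub_div]

/-- Product formula for the average over one noise set. -/
theorem Ez_prod {D : ℕ} (hD : 0 < D) (a b : X → ℝ) :
    Ez D (fun z => ∏ x, if x ∈ z then a x else b x)
      = ∏ x, (a x / D + (1 - 1 / (D : ℝ)) * b x) := by
  unfold Ez
  have hD' : (D : ℝ) ≠ 0 := by positivity
  have h1 : ∀ φ : X → Fin D, (∏ x, if x ∈ zset D φ then a x else b x)
      = ∏ x, (if ((φ x : Fin D) : ℕ) = 0 then a x else b x) := by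
    intro φ
    apply Finset.prod_congr rfl
    intro x _
    simp [zset]
  simp only [h1]
  have h2 : (∑ φ : X → Fin D, ∏ x, (if ((φ x : Fin D) : ℕ) = 0 then a x else b x))
      = ∏ x, ∑ i : Fin D, (if (i : ℕ) = 0 then a x else b x) := by
    rw [Finset.prod_univ_sum]
    rw [Fintype.piFinset_univ]
  rw [h2]
  have h3 : ∀ x : X, (∑ i : Fin D, (if (i : ℕ) = 0 then a x else b x))
      = a x + ((D : ℝ) - 1) * b x := by
    intro x
    obtain ⟨D', rfl⟩ : ∃ D', D = D' + 1 := ⟨D - 1, by omega⟩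
    rw [Fin.sum_univ_succ]
    simp
  simp only [h3]
  rw [← Finset.card_univ, ← Finset.prod_const, ← Finset.prod_div_distrib]
  apply Finset.prod_congr rfl
  intro x _
  field_simp

theorem Ez_subset {D : ℕ} (hD : 0 < D) (T : Finset X) :
    Ez D (fun z => ind (T ⊆ z)) = (1 / (D : ℝ)) ^ T.card := by
  have h := Ez_prod (X := X) hD (fun _ => 1) (fun x => if x ∈ T then 0 else 1)
  have h1 : (fun z : Finset X => ∏ x, if x ∈ z then (1 : ℝ) else if x ∈ T then 0 else 1)
      = fun z => ind (T ⊆ z) := by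
    funext z
    by_cases hz : T ⊆ z
    · rw [ind_of hz]
      apply Finset.prod_eq_one
      intro x _
      by_cases hx : x ∈ z
      · simp [hx]
      · have : x ∉ T := fun h => hx (hz h)
        simp [hx, this]
    · rw [ind_not hz]
      rw [Finset.not_subset] at hz
      obtain ⟨x, hxT, hxz⟩ := hz
      apply Finset.prod_eq_zero (Finset.mem_univ x)
      simp [hxT, hxz]
  rw [h1] at h
  rw [h]
  have h2 : ∀ x : X, ((1 : ℝ) / D + (1 - 1 / (D : ℝ)) * (if x ∈ T then (0 : ℝ) else 1))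
      = if x ∈ T then (1 / (D : ℝ)) else 1 := by
    intro x
    split_ifs <;> ring
  simp only [h2]
  rw [Finset.prod_ite_mem, Finset.univ_inter, Finset.prod_const]

theorem pow_add_one_le {β : ℝ} {n : ℕ} (hβ : 2 * (n : ℝ) ≤ β) : (1 + β) ^ n ≤ 2 * β ^ n := by
  by_cases hn : n = 0
  · subst hn; norm_num
  have hn1 : (1 : ℝ) ≤ n := by exact_mod_cast Nat.one_le_iff_ne_zero.2 hn
  have hβ0 : 0 < 1 + β := by linarith
  have h1 : 1 + (n : ℝ) * (-(1 / (1 + β))) ≤ (1 + (-(1 / (1 + β)))) ^ n := by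
    apply one_add_mul_le_pow
    have : 1 / (1 + β) ≤ 1 := by rw [div_le_one hβ0]; linarith
    linarith
  have h2 : 1 + (-(1 / (1 + β))) = β / (1 + β) := by field_simp; ring
  rw [h2, div_pow] at h1
  have h3 : (1 : ℝ) / 2 ≤ 1 + (n : ℝ) * (-(1 / (1 + β))) := by
    have : (n : ℝ) * (1 / (1 + β)) ≤ 1 / 2 := by
      rw [mul_one_div, div_le_div_iff₀ hβ0 (by norm_num)]
      linarith
    linarith
  have h4 : (1 : ℝ) / 2 ≤ β ^ n / (1 + β) ^ n := le_trans h3 h1
  rw [div_le_div_iff₀ (by norm_num) (by positivity)] at h4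
  linarith

/-- Second moment bound: a family of `n`-sets with small degrees that is large is hit by the noise. -/
theorem cover_prob {D n : ℕ} (hD : 0 < D) (𝒯 : Finset (Finset X)) {β : ℝ}
    (hβ : 2 * (n : ℝ) ≤ β) (hβ0 : 0 ≤ β) (hcard : ∀ T ∈ 𝒯, T.card = n)
    (hdeg : ∀ K : Finset X, K.Nonempty → ((𝒯.filter (fun T => K ⊆ T)).card : ℝ)
      ≤ (β * D) ^ (n - K.card)) :
    (𝒯.card : ℝ) * (1 - Ez D (fun z => ind (∃ T ∈ 𝒯, T ⊆ z)))
      ≤ Ez D (fun z => ind (∃ T ∈ 𝒯, T ⊆ z)) * (β * D) ^ n := by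
  set P := Ez D (fun z => ind (∃ T ∈ 𝒯, T ⊆ z)) with hP
  have hP0 : 0 ≤ P := Ez_nonneg (fun z => ind_nonneg _)
  have hD0 : (0 : ℝ) < D := by exact_mod_cast hD
  have hD1 : (1 : ℝ) ≤ D := by exact_mod_cast hD
  -- first moment
  have hfirst : Ez D (fun z => ∑ T ∈ 𝒯, ind (T ⊆ z)) = 𝒯.card * (1 / (D : ℝ)) ^ n := by
    rw [Ez_sum]
    have : ∀ T ∈ 𝒯, Ez D (fun z => ind (T ⊆ z)) = (1 / (D : ℝ)) ^ n := by
      intro T hT
      rw [Ez_subset hD, hcard T hT]
    rw [Finset.sum_congr rfl this, Finset.sum_const, nsmul_eq_mul]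
  -- second moment
  have hsecond : Ez D (fun z => (∑ T ∈ 𝒯, ind (T ⊆ z)) ^ 2)
      ≤ 𝒯.card * (1 / (D : ℝ)) ^ n * (𝒯.card * (1 / (D : ℝ)) ^ n + β ^ n) := by
    have h1 : ∀ z : Finset X, (∑ T ∈ 𝒯, ind (T ⊆ z)) ^ 2
        = ∑ T ∈ 𝒯, ∑ T' ∈ 𝒯, ind (T ∪ T' ⊆ z) := by
      intro z
      rw [sq, Finset.sum_mul_sum]
      apply Finset.sum_congr rfl; intro T _
      apply Finset.sum_congr rfl; intro T' _
      rw [← ind_and]
      congr 1
      rw [Finset.union_subset_iff]
    simp only [h1]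
    rw [Ez_sum]
    have h2 : ∀ T ∈ 𝒯, Ez D (fun z => ∑ T' ∈ 𝒯, ind (T ∪ T' ⊆ z))
        ≤ (1 / (D : ℝ)) ^ n * (𝒯.card * (1 / (D : ℝ)) ^ n + β ^ n) := by
      intro T hT
      rw [Ez_sum]
      have h3 : ∀ T' ∈ 𝒯, Ez D (fun z => ind (T ∪ T' ⊆ z))
          ≤ (1 / (D : ℝ)) ^ (2 * n) * (1 + ∑ K ∈ T.powerset.erase ∅,
              (D : ℝ) ^ K.card * ind (K ⊆ T')) := by
        intro T' hT'
        rw [Ez_subset hD]
        have hc : (T ∪ T').card + (T ∩ T').card = 2 * n := by
          rw [Finset.card_union_add_card_inter, hcard T hT, hcard T' hT']; ring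
        have h4 : (1 / (D : ℝ)) ^ (T ∪ T').card
            = (1 / (D : ℝ)) ^ (2 * n) * (D : ℝ) ^ (T ∩ T').card := by
          rw [← hc, pow_add, mul_assoc, ← mul_pow]
          rw [one_div, inv_mul_cancel₀ hD0.ne', one_pow, mul_one]
        rw [h4]
        apply mul_le_mul_of_nonneg_left _ (by positivity)
        by_cases hI : T ∩ T' = ∅
        · rw [hI]
          simp only [Finset.card_empty, pow_zero]
          have : 0 ≤ ∑ K ∈ T.powerset.erase ∅, (D : ℝ) ^ K.card * ind (K ⊆ T') :=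
            Finset.sum_nonneg (fun K _ => mul_nonneg (by positivity) (ind_nonneg _))
          linarith
        · have hmem : T ∩ T' ∈ T.powerset.erase ∅ := by
            rw [Finset.mem_erase, Finset.mem_powerset]
            exact ⟨hI, Finset.inter_subset_left⟩
          have := Finset.single_le_sum (f := fun K => (D : ℝ) ^ K.card * ind (K ⊆ T'))
            (fun K _ => mul_nonneg (by positivity) (ind_nonneg _)) hmem
          rw [ind_of Finset.inter_subset_right, mul_one] at this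
          linarith
      refine le_trans (Finset.sum_le_sum h3) ?_
      rw [← Finset.mul_sum, Finset.sum_add_distrib, Finset.sum_comm]
      have h5 : ∀ K ∈ T.powerset.erase ∅,
          ∑ T' ∈ 𝒯, (D : ℝ) ^ K.card * ind (K ⊆ T')
            ≤ (D : ℝ) ^ n * β ^ (n - K.card) := by
        intro K hK
        rw [Finset.mem_erase, Finset.mem_powerset] at hK
        have hKn : K.card ≤ n := by rw [← hcard T hT]; exact Finset.card_le_card hK.2
        rw [← Finset.mul_sum]
        have h6 : ∑ T' ∈ 𝒯, ind (K ⊆ T') = ((𝒯.filter (fun T => K ⊆ T)).card : ℝ) := by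
          rw [Finset.card_filter]
          push_cast
          apply Finset.sum_congr rfl
          intro T' _
          by_cases h : K ⊆ T'
          · rw [ind_of h, if_pos h]
          · rw [ind_not h, if_neg h]
        rw [h6]
        have h7 := hdeg K (Finset.nonempty_iff_ne_empty.2 hK.1)
        calc (D : ℝ) ^ K.card * ((𝒯.filter (fun T => K ⊆ T)).card : ℝ)
            ≤ (D : ℝ) ^ K.card * (β * D) ^ (n - K.card) := by
              apply mul_le_mul_of_nonneg_left h7 (by positivity)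
          _ = (D : ℝ) ^ n * β ^ (n - K.card) := by
              rw [mul_pow, mul_comm (β ^ (n - K.card)), ← mul_assoc, ← pow_add]
              congr 2
              omega
      have h8 : ∑ K ∈ T.powerset.erase ∅, β ^ (n - K.card) ≤ β ^ n := by
        have h9 : ∑ K ∈ T.powerset, β ^ (n - K.card) = (1 + β) ^ n := by
          have := Finset.sum_pow_mul_eq_add_pow (1 : ℝ) β T
          rw [hcard T hT] at this
          simpa using this
        have h10 : ∑ K ∈ T.powerset.erase ∅, β ^ (n - K.card) + β ^ (n - (∅ : Finset X).card)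
            = ∑ K ∈ T.powerset, β ^ (n - K.card) :=
          Finset.sum_erase_add _ _ (Finset.empty_mem_powerset T)
        rw [h9] at h10
        simp only [Finset.card_empty, Nat.sub_zero] at h10
        have := pow_add_one_le hβ
        linarith
      have h11 : ∑ K ∈ T.powerset.erase ∅, ∑ T' ∈ 𝒯, (D : ℝ) ^ K.card * ind (K ⊆ T')
          ≤ (D : ℝ) ^ n * β ^ n := by
        refine le_trans (Finset.sum_le_sum h5) ?_
        rw [← Finset.mul_sum]
        exact mul_le_mul_of_nonneg_left h8 (by positivity)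
      have h12 : ∑ T' ∈ 𝒯, (1 : ℝ) = 𝒯.card := by simp
      rw [h12]
      calc (1 / (D : ℝ)) ^ (2 * n) * (𝒯.card
            + ∑ K ∈ T.powerset.erase ∅, ∑ T' ∈ 𝒯, (D : ℝ) ^ K.card * ind (K ⊆ T'))
          ≤ (1 / (D : ℝ)) ^ (2 * n) * (𝒯.card + (D : ℝ) ^ n * β ^ n) := by
            apply mul_le_mul_of_nonneg_left _ (by positivity)
            linarith
        _ = (1 / (D : ℝ)) ^ n * (𝒯.card * (1 / (D : ℝ)) ^ n + β ^ n) := by
            have : (1 / (D : ℝ)) ^ n * (D : ℝ) ^ n = 1 := by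
              rw [← mul_pow, one_div, inv_mul_cancel₀ hD0.ne', one_pow]
            rw [two_mul, pow_add]
            linear_combination ((1 / (D : ℝ)) ^ n * β ^ n) * this
    refine le_trans (Finset.sum_le_sum h2) ?_
    rw [Finset.sum_const, nsmul_eq_mul, mul_assoc]
  -- Cauchy-Schwarz
  have hcs : (Ez D (fun z => ∑ T ∈ 𝒯, ind (T ⊆ z))) ^ 2
      ≤ Ez D (fun z => (∑ T ∈ 𝒯, ind (T ⊆ z)) ^ 2) * P := by
    rw [hP]
    unfold Ez
    have h1 := Finset.sum_mul_sq_le_sq_mul_sq (Finset.univ : Finset (X → Fin D))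
      (fun φ => ∑ T ∈ 𝒯, ind (T ⊆ zset D φ)) (fun φ => ind (∃ T ∈ 𝒯, T ⊆ zset D φ))
    have h2 : ∀ φ : X → Fin D, (∑ T ∈ 𝒯, ind (T ⊆ zset D φ)) * ind (∃ T ∈ 𝒯, T ⊆ zset D φ)
        = ∑ T ∈ 𝒯, ind (T ⊆ zset D φ) := by
      intro φ
      by_cases h : ∃ T ∈ 𝒯, T ⊆ zset D φ
      · rw [ind_of h, mul_one]
      · rw [ind_not h, mul_zero]
        symm
        apply Finset.sum_eq_zero
        intro T hT
        exact ind_not (fun h' => h ⟨T, hT, h'⟩)
    have h3 : ∀ φ : X → Fin D, ind (∃ T ∈ 𝒯, T ⊆ zset D φ) ^ 2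
        = ind (∃ T ∈ 𝒯, T ⊆ zset D φ) := by
      intro φ
      by_cases h : ∃ T ∈ 𝒯, T ⊆ zset D φ
      · rw [ind_of h]; norm_num
      · rw [ind_not h]; norm_num
    simp only [h2, h3] at h1
    rw [div_pow, div_mul_div_comm, ← sq]
    exact div_le_div_of_nonneg_right h1 (by positivity)
  rw [hfirst] at hcs
  set μ := (𝒯.card : ℝ) * (1 / (D : ℝ)) ^ n with hμ
  have hμ0 : 0 ≤ μ := by positivity
  have h5 : μ ^ 2 ≤ μ * (μ + β ^ n) * P := le_trans hcs (mul_le_mul_of_nonneg_right hsecond hP0)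
  have h6 : μ * (1 - P) ≤ P * β ^ n := by
    by_cases h0 : μ = 0
    · rw [h0, zero_mul]
      positivity
    · have hpos : 0 < μ := lt_of_le_of_ne hμ0 (Ne.symm h0)
      have : μ ≤ (μ + β ^ n) * P := by
        by_contra hlt
        push Not at hlt
        have := mul_lt_mul_of_pos_left hlt hpos
        nlinarith
      nlinarith
  have h7 : (𝒯.card : ℝ) = μ * (D : ℝ) ^ n := by
    rw [hμ, mul_assoc, ← mul_pow, one_div, inv_mul_cancel₀ hD0.ne', one_pow, mul_one]
  rw [h7, mul_pow]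
  calc μ * (D : ℝ) ^ n * (1 - P) = (μ * (1 - P)) * (D : ℝ) ^ n := by ring
    _ ≤ (P * β ^ n) * (D : ℝ) ^ n := mul_le_mul_of_nonneg_right h6 (by positivity)
    _ = P * (β ^ n * (D : ℝ) ^ n) := by ring

end Pool.Agent.T9h35.Sharp.Moment
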