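import Pool.Agent.T9h16.Approx

set_option autoImplicit false

namespace Pool.Agent.T9h35.Sharp

open Finset Pool.Agent.T9h16
open scoped Classical

/-- Two different points of `W` have the same colour. -/
def Mono {V : Type} {m : ℕ} (χ : V → Fin m) (W : Finset V) : Prop :=
  ∃ u ∈ W, ∃ v ∈ W, u ≠ v ∧ χ u = χ v

/-- Two different points of `W` in `S` have the same colour. -/
def MonoIn {V : Type} {m : ℕ} (χ : V → Fin m) (S W : Finset V) : Prop :=
  ∃ u ∈ W, ∃ v ∈ W, u ≠ v ∧ χ u = χ v ∧ u ∈ S ∧ v ∈ S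

theorem fact_arith (m a b : ℕ) (h : a + b ≤ m) :
    m ^ b * m.factorial ≤ (m - a).descFactorial b * m ^ m := by
  have h1 := Nat.factorial_mul_descFactorial (show a ≤ m by omega)
  have h2 := Nat.factorial_mul_descFactorial (show b ≤ m - a by omega)
  have h3 : m.descFactorial a ≤ m ^ a := Nat.descFactorial_le_pow _ _
  have h4 : (m - a - b).factorial ≤ m ^ (m - a - b) :=
    (Nat.factorial_le_pow _).trans (Nat.pow_le_pow_left (by omega) _)
  calc m ^ b * m.factorial = (m - a).descFactorial b * (m ^ b * m.descFactorial a *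
        (m - a - b).factorial) := by rw [← h1, ← h2]; ring
    _ ≤ (m - a).descFactorial b * (m ^ b * m ^ a * m ^ (m - a - b)) := by
        apply Nat.mul_le_mul_left
        exact Nat.mul_le_mul (Nat.mul_le_mul_left _ h3) h4
    _ = (m - a).descFactorial b * m ^ m := by
        rw [← pow_add, ← pow_add]
        congr 2
        omega

/-- There are many extensions that are rainbow on `W`. -/
theorem rainbow_count {V : Type} [Fintype V] {m : ℕ} (χ₀ : V → Fin m) (S W : Finset V)
    (hW : W.card ≤ m) (h : ¬ MonoIn χ₀ S W) :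
    m ^ (W \ S).card * m.factorial ≤
      (univ.filter fun χ : V → Fin m => (∀ v, v ∉ W \ S → χ v = χ₀ v) ∧ ¬ Mono χ W).card *
        m ^ m := by
  have hinj : Set.InjOn χ₀ (W ∩ S : Finset V) := by
    intro u hu v hv huv
    rw [mem_coe, mem_inter] at hu hv
    by_contra hne
    exact h ⟨u, hu.1, v, hv.1, hne, huv, hu.2, hv.2⟩
  have h1 : ((W ∩ S).image χ₀).card = (W ∩ S).card := card_image_of_injOn hinj
  have h2 : (W \ S).card + (W ∩ S).card = W.card := by
    rw [add_comm]
    exact card_inter_add_card_sdiff W S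
  have hcard1 : Fintype.card {v : V // v ∈ W \ S} = (W \ S).card := Fintype.card_coe _
  have hcard2 : Fintype.card {c : Fin m // c ∉ (W ∩ S).image χ₀} = m - (W ∩ S).card := by
    rw [Fintype.card_subtype_compl, Fintype.card_coe, Fintype.card_fin, h1]
  have hemb : Fintype.card ({v : V // v ∈ W \ S} ↪ {c : Fin m // c ∉ (W ∩ S).image χ₀}) =
      (m - (W ∩ S).card).descFactorial (W \ S).card := by
    rw [Fintype.card_embedding_eq, hcard1, hcard2]
  refine (fact_arith m (W ∩ S).card (W \ S).card (by omega)).trans ?_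
  apply Nat.mul_le_mul_right
  rw [← hemb, ← card_univ]
  obtain ⟨E, hE⟩ : ∃ E : ({v : V // v ∈ W \ S} ↪ {c : Fin m // c ∉ (W ∩ S).image χ₀}) →
      V → Fin m, ∀ f v, E f v = if hv : v ∈ W \ S then (f ⟨v, hv⟩ : Fin m) else χ₀ v :=
    ⟨_, fun _ _ => rfl⟩
  apply card_le_card_of_injOn E
  · intro f _
    rw [mem_coe, mem_filter]
    refine ⟨mem_univ _, ?_, ?_⟩
    · intro v hv
      rw [hE, dif_neg hv]
    · rintro ⟨u, hu, v, hv, hne, huv⟩
      have key : ∀ x ∈ W, x ∉ W \ S → x ∈ W ∩ S := by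
        intro x hx hx'
        rw [mem_sdiff, not_and, not_not] at hx'
        exact mem_inter.2 ⟨hx, hx' hx⟩
      rw [hE f u, hE f v] at huv
      by_cases hu' : u ∈ W \ S <;> by_cases hv' : v ∈ W \ S
      · rw [dif_pos hu', dif_pos hv'] at huv
        have := f.injective (Subtype.ext huv)
        exact hne (Subtype.ext_iff.1 this)
      · rw [dif_pos hu', dif_neg hv'] at huv
        apply (f ⟨u, hu'⟩).2
        rw [huv]
        exact mem_image_of_mem _ (key v hv hv')
      · rw [dif_neg hu', dif_pos hv'] at huv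
        apply (f ⟨v, hv'⟩).2
        rw [← huv]
        exact mem_image_of_mem _ (key u hu hu')
      · rw [dif_neg hu', dif_neg hv'] at huv
        exact hne (hinj (key u hu hu') (key v hv hv') huv)
  · intro f _ f' _ hff
    ext x
    have := congrFun hff x.1
    rw [hE, hE, dif_pos x.2, dif_pos x.2] at this
    rw [this]

theorem card_free {V : Type} [Fintype V] {m : ℕ} (χ₀ : V → Fin m) (T : Finset V) :
    (univ.filter fun χ : V → Fin m => ∀ v, v ∉ T → χ v = χ₀ v).card = m ^ T.card := by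
  have e : (univ.filter fun χ : V → Fin m => ∀ v, v ∉ T → χ v = χ₀ v) =
      Fintype.piFinset (fun v => if v ∈ T then (univ : Finset (Fin m)) else {χ₀ v}) := by
    ext χ
    simp only [mem_filter, mem_univ, true_and, Fintype.mem_piFinset]
    refine forall_congr' fun v => ?_
    by_cases hv : v ∈ T <;> simp [hv]
  rw [e, Fintype.card_piFinset]
  have e2 : ∀ v : V, (if v ∈ T then (univ : Finset (Fin m)) else {χ₀ v}).card =
      if v ∈ T then m else 1 := by
    intro v
    split_ifs <;> simp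
  simp_rw [e2]
  rw [prod_ite_mem, univ_inter, prod_const]

/-- Few of the extensions are not rainbow on `W`. -/
theorem mono_count {V : Type} [Fintype V] {m : ℕ} (χ₀ : V → Fin m) (S W : Finset V)
    (hW : W.card ≤ m) (h : ¬ MonoIn χ₀ S W) :
    (univ.filter fun χ : V → Fin m => (∀ v, v ∉ W \ S → χ v = χ₀ v) ∧ Mono χ W).card * m ^ m ≤
      m ^ (W \ S).card * (m ^ m - m.factorial) := by
  have h1 := rainbow_count χ₀ S W hW h
  have h2 : (univ.filter fun χ : V → Fin m => (∀ v, v ∉ W \ S → χ v = χ₀ v) ∧ Mono χ W).card +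
      (univ.filter fun χ : V → Fin m => (∀ v, v ∉ W \ S → χ v = χ₀ v) ∧ ¬ Mono χ W).card =
      m ^ (W \ S).card := by
    rw [← card_free χ₀ (W \ S), ← card_union_of_disjoint]
    · congr 1
      ext χ
      simp only [mem_union, mem_filter, mem_univ, true_and]
      tauto
    · rw [disjoint_left]
      intro χ h1 h2
      exact (mem_filter.1 h2).2.2 (mem_filter.1 h1).2.2
  have h3 : m.factorial ≤ m ^ m := Nat.factorial_le_pow _
  rw [Nat.mul_sub, ← h2, add_mul]
  rw [← h2] at h1
  omega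

/-- The colourings that are not rainbow on any `W ∈ 𝒲`, though this cannot be seen on few points. -/
noncomputable def bad {V : Type} [Fintype V] (m c : ℕ) (𝒲 : Set (Finset V)) : Finset (V → Fin m) :=
  univ.filter fun χ => (∀ W ∈ 𝒲, Mono χ W) ∧
    ¬ ∃ S : Finset V, S.card ≤ c ∧ ∀ W ∈ 𝒲, MonoIn χ S W

/-- Colourings for which every `W ∈ 𝒲` has two points of the same colour, but this cannot be seen
on few points, are rare. -/
theorem tree {V : Type} [Fintype V] (m c : ℕ) (hm : 1 ≤ m) (𝒲 : Set (Finset V))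
    (h𝒲 : ∀ W ∈ 𝒲, W.card ≤ m) (j : ℕ) :
    ∀ (S : Finset V) (χ₀ : V → Fin m), S.card + j * m ≤ c →
      ((bad m c 𝒲).filter fun χ => ∀ v ∈ S, χ v = χ₀ v).card *
          m ^ S.card * (m ^ m) ^ j ≤ (m ^ m - m.factorial) ^ j * m ^ Fintype.card V := by
  induction j with
  | zero =>
    intro S χ₀ _
    rw [pow_zero, pow_zero, mul_one, one_mul]
    have h1 : ((bad m c 𝒲).filter fun χ => ∀ v ∈ S, χ v = χ₀ v).card ≤ m ^ (univ \ S).card := by
      rw [← card_free χ₀ (univ \ S)]
      apply card_le_card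
      intro χ hχ
      rw [mem_filter] at hχ ⊢
      refine ⟨mem_univ _, fun v hv => hχ.2 v ?_⟩
      rw [mem_sdiff, not_and, not_not] at hv
      exact hv (mem_univ _)
    calc _ ≤ m ^ (univ \ S).card * m ^ S.card := Nat.mul_le_mul_right _ h1
      _ = m ^ Fintype.card V := by
        rw [← pow_add, card_sdiff_add_card_eq_card (subset_univ S), card_univ]
  | succ j ih =>
    intro S χ₀ hS
    by_cases hcert : ∀ W ∈ 𝒲, MonoIn χ₀ S W
    · have hempty : ((bad m c 𝒲).filter fun χ => ∀ v ∈ S, χ v = χ₀ v) = ∅ := by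
        rw [filter_eq_empty_iff]
        intro χ hχ h3
        rw [bad, mem_filter] at hχ
        apply hχ.2.2
        refine ⟨S, by omega, fun W hW => ?_⟩
        obtain ⟨u, hu, v, hv, hne, huv, huS, hvS⟩ := hcert W hW
        exact ⟨u, hu, v, hv, hne, by rw [h3 u huS, h3 v hvS, huv], huS, hvS⟩
      rw [hempty]
      simp
    · push Not at hcert
      obtain ⟨W, hW, hWn⟩ := hcert
      have hWc := h𝒲 W hW
      obtain ⟨X, hX⟩ : ∃ X : Finset (V → Fin m), X =
        univ.filter fun χ => (∀ v, v ∉ W \ S → χ v = χ₀ v) ∧ Mono χ W := ⟨_, rfl⟩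
      have h4 : X.card * m ^ m ≤ m ^ (W \ S).card * (m ^ m - m.factorial) := by
        rw [hX]
        exact mono_count χ₀ S W hWc hWn
      have hsum : ((bad m c 𝒲).filter fun χ => ∀ v ∈ S, χ v = χ₀ v).card ≤
          ∑ χ₁ ∈ X, ((bad m c 𝒲).filter fun χ => ∀ v ∈ S ∪ W, χ v = χ₁ v).card := by
        refine le_trans (card_le_card ?_) card_biUnion_le
        intro χ hχ
        rw [mem_filter] at hχ
        obtain ⟨h1, h2⟩ := hχ
        rw [mem_biUnion]
        obtain ⟨χ', hχ'⟩ : ∃ χ' : V → Fin m, ∀ v, χ' v = if v ∈ S ∪ W then χ v else χ₀ v :=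
          ⟨_, fun _ => rfl⟩
        refine ⟨χ', ?_, ?_⟩
        · rw [hX, mem_filter]
          refine ⟨mem_univ _, fun v hv => ?_, ?_⟩
          · rw [hχ']
            by_cases hvS : v ∈ S ∪ W
            · rw [if_pos hvS]
              apply h2
              rw [mem_sdiff, not_and, not_not] at hv
              rcases mem_union.1 hvS with h | h
              · exact h
              · exact hv h
            · rw [if_neg hvS]
          · rw [bad, mem_filter] at h1
            obtain ⟨u, hu, v, hv, hne, huv⟩ := h1.2.1 W hW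
            exact ⟨u, hu, v, hv, hne, by
              rw [hχ', hχ', if_pos (mem_union_right _ hu), if_pos (mem_union_right _ hv), huv]⟩
        · rw [mem_filter]
          exact ⟨h1, fun v hv => by rw [hχ', if_pos hv]⟩
      have hcardU : (S ∪ W).card = S.card + (W \ S).card := by
        rw [← union_sdiff_self_eq_union, card_union_of_disjoint disjoint_sdiff]
      have hle : (W \ S).card ≤ m := (card_le_card sdiff_subset).trans hWc
      have hpos : 0 < m ^ (W \ S).card := Nat.pow_pos hm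
      have hih : ∀ χ₁ ∈ X, ((bad m c 𝒲).filter fun χ => ∀ v ∈ S ∪ W, χ v = χ₁ v).card *
            (m ^ (S ∪ W).card * (m ^ m) ^ j) ≤
            (m ^ m - m.factorial) ^ j * m ^ Fintype.card V := by
        intro χ₁ _
        rw [← mul_assoc]
        apply ih
        rw [hcardU]
        have : (j + 1) * m = j * m + m := by ring
        omega
      have h3 : (∑ χ₁ ∈ X, ((bad m c 𝒲).filter fun χ => ∀ v ∈ S ∪ W, χ v = χ₁ v).card) *
          (m ^ (S ∪ W).card * (m ^ m) ^ j) ≤
            X.card * ((m ^ m - m.factorial) ^ j * m ^ Fintype.card V) := by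
        rw [sum_mul]
        calc _ ≤ ∑ _χ₁ ∈ X, (m ^ m - m.factorial) ^ j * m ^ Fintype.card V := sum_le_sum hih
          _ = X.card * ((m ^ m - m.factorial) ^ j * m ^ Fintype.card V) := by
            rw [sum_const, smul_eq_mul]
      obtain ⟨B, hB⟩ : ∃ B, B = ((bad m c 𝒲).filter fun χ => ∀ v ∈ S, χ v = χ₀ v).card := ⟨_, rfl⟩
      rw [← hB] at hsum ⊢
      apply Nat.le_of_mul_le_mul_left _ hpos
      calc m ^ (W \ S).card * (B * m ^ S.card * (m ^ m) ^ (j + 1))
          = B * (m ^ (S ∪ W).card * (m ^ m) ^ j) * m ^ m := by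
            rw [hcardU, pow_add]
            ring
        _ ≤ (∑ χ₁ ∈ X, ((bad m c 𝒲).filter fun χ => ∀ v ∈ S ∪ W, χ v = χ₁ v).card) *
            (m ^ (S ∪ W).card * (m ^ m) ^ j) * m ^ m :=
            Nat.mul_le_mul_right _ (Nat.mul_le_mul_right _ hsum)
        _ ≤ X.card * ((m ^ m - m.factorial) ^ j * m ^ Fintype.card V) * m ^ m :=
            Nat.mul_le_mul_right _ h3
        _ = (X.card * m ^ m) * ((m ^ m - m.factorial) ^ j * m ^ Fintype.card V) := by ring
        _ ≤ (m ^ (W \ S).card * (m ^ m - m.factorial)) *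
            ((m ^ m - m.factorial) ^ j * m ^ Fintype.card V) := Nat.mul_le_mul_right _ h4
        _ = m ^ (W \ S).card * ((m ^ m - m.factorial) ^ (j + 1) * m ^ Fintype.card V) := by ring

/-- The form of `tree` which is used below. -/
theorem tree_set {V : Type} [Fintype V] (m c : ℕ) (hm : 1 ≤ m) (𝒲 : Set (Finset V))
    (h𝒲 : ∀ W ∈ 𝒲, W.card ≤ m) (j : ℕ) (hj : j * m ≤ c) :
    ∃ D : Finset (V → Fin m),
      D.card * (m ^ m) ^ j ≤ (m ^ m - m.factorial) ^ j * m ^ Fintype.card V ∧
      ∀ χ, χ ∉ D → (∀ W ∈ 𝒲, Mono χ W) →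
        ∃ S : Finset V, S.card ≤ c ∧ ∀ W ∈ 𝒲, MonoIn χ S W := by
  have htree := tree m c hm 𝒲 h𝒲 j ∅ (fun _ => ⟨0, hm⟩) (by simpa using hj)
  rw [card_empty, pow_zero, mul_one] at htree
  refine ⟨_, htree, ?_⟩
  intro χ hχ hmono
  by_contra hcon
  apply hχ
  rw [mem_filter, bad, mem_filter]
  exact ⟨⟨mem_univ _, ⟨hmono, hcon⟩⟩, fun v hv => absurd hv (notMem_empty v)⟩

/-- A small set has a rainbow colouring. -/
theorem exists_rainbow {V : Type} [Fintype V] {m : ℕ} (hm : 1 ≤ m) (W : Finset V)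
    (hW : W.card ≤ m) : ∃ χ : V → Fin m, ¬ Mono χ W := by
  have h1 := rainbow_count (m := m) (fun _ => ⟨0, hm⟩) ∅ W hW (by
    rintro ⟨u, -, v, -, -, -, hu, -⟩
    exact absurd hu (notMem_empty u))
  have h2 : 0 < m ^ (W \ ∅).card * m.factorial :=
    Nat.mul_pos (Nat.pow_pos hm) (Nat.factorial_pos _)
  have h3 := Nat.pos_of_mul_pos_right (lt_of_lt_of_le h2 h1)
  obtain ⟨χ, hχ⟩ := card_pos.1 h3
  exact ⟨χ, (mem_filter.1 hχ).2.2⟩

/-- A set of colourings which contains all colourings that agree with a given one on `W`. -/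
theorem card_agree {V : Type} [Fintype V] {m : ℕ} (χ₀ : V → Fin m) (W : Finset V)
    (N : Finset (V → Fin m)) (h : ∀ χ : V → Fin m, (∀ v ∈ W, χ v = χ₀ v) → χ ∈ N) :
    m ^ Fintype.card V ≤ N.card * m ^ W.card := by
  have h1 : (univ.filter fun χ : V → Fin m => ∀ v, v ∉ univ \ W → χ v = χ₀ v) ⊆ N := by
    intro χ hχ
    rw [mem_filter] at hχ
    apply h
    intro v hv
    exact hχ.2 v (fun hx => (mem_sdiff.1 hx).2 hv)
  have h2 := card_le_card h1
  rw [card_free] at h2
  calc m ^ Fintype.card V = m ^ (univ \ W).card * m ^ W.card := by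
        rw [← pow_add, card_sdiff_add_card_eq_card (subset_univ W), card_univ]
    _ ≤ N.card * m ^ W.card := Nat.mul_le_mul_right _ h2

end Pool.Agent.T9h35.Sharp
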