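import Pool.Agent.T9h35.Sharp.Moment
import Pool.Agent.T9h35.Sharp.Tree

set_option autoImplicit false

namespace Pool.Agent.T9h35.Sharp

open Finset Pool.Agent.T9h35.Sharp.Moment
open scoped Classical

/-- A large spread family is hit with probability at least one half. -/
theorem half_hit {X : Type} [Fintype X] [DecidableEq X] {D b n : ℕ} (hD : 0 < D) (hb : 2 * n ≤ b)
    (T : Finset (Finset X)) (hcard : ∀ W ∈ T, W.card = n)
    (hdeg : ∀ K : Finset X, K.Nonempty → (T.filter fun W => K ⊆ W).card ≤ (b * D) ^ (n - K.card))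
    (hbig : (b * D) ^ n < T.card) :
    2 * (univ.filter fun ζ : X → Fin D => ¬ ∃ W ∈ T, W ⊆ zset D ζ).card ≤ D ^ Fintype.card X := by
  have h1 := cover_prob (X := X) (n := n) hD T (β := (b : ℝ)) (by exact_mod_cast hb)
    (Nat.cast_nonneg b) hcard (fun K hK => by exact_mod_cast hdeg K hK)
  obtain ⟨P, hP⟩ : ∃ P, P = Ez D (fun z : Finset X => ind (∃ W ∈ T, W ⊆ z)) := ⟨_, rfl⟩
  rw [← hP] at h1
  have hP0 : 0 ≤ P := by rw [hP]; exact Ez_nonneg (fun z => ind_nonneg _)
  have hT0 : (0 : ℝ) < T.card := by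
    have : 0 < T.card := by omega
    exact_mod_cast this
  have hTb : ((b : ℝ) * D) ^ n ≤ T.card := by exact_mod_cast hbig.le
  have h2 : (T.card : ℝ) * (1 - P) ≤ T.card * P := by
    refine h1.trans ?_
    rw [mul_comm]
    exact mul_le_mul_of_nonneg_right hTb hP0
  have h3 : 1 - P ≤ P := le_of_mul_le_mul_left h2 hT0
  have h4 : (1 : ℝ) - P = (univ.filter fun ζ : X → Fin D => ¬ ∃ W ∈ T, W ⊆ zset D ζ).card /
      (D : ℝ) ^ Fintype.card X := by
    have h5 : (1 : ℝ) - P = Ez D (fun z : Finset X => ind (¬ ∃ W ∈ T, W ⊆ z)) := by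
      have : (fun z : Finset X => ind (¬ ∃ W ∈ T, W ⊆ z)) =
          fun z => (1 : ℝ) - ind (∃ W ∈ T, W ⊆ z) := by
        funext z
        exact ind_compl _
      rw [this, Ez_sub, Ez_const hD, hP]
    rw [h5, Ez]
    congr 1
    rw [card_filter]
    push_cast
    refine sum_congr rfl fun ζ _ => ?_
    by_cases h : ∃ W ∈ T, W ⊆ zset D ζ
    · rw [ind_not (not_not.2 h), if_neg (not_not.2 h)]
    · rw [ind_of h, if_pos h]
  have hDX : (0 : ℝ) < (D : ℝ) ^ Fintype.card X := by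
    have : (0 : ℝ) < D := by exact_mod_cast hD
    positivity
  have h5 : (2 : ℝ) * (univ.filter fun ζ : X → Fin D => ¬ ∃ W ∈ T, W ⊆ zset D ζ).card ≤
      (D : ℝ) ^ Fintype.card X := by
    have h6 : 2 * (1 - P) ≤ 1 := by linarith
    rw [h4, ← mul_div_assoc, div_le_one hDX] at h6
    exact h6
  exact_mod_cast h5

theorem exists_perm_of {α : Type} [Fintype α] {S T : Finset α} (h : S.card = T.card) :
    ∃ σ : Equiv.Perm α, S.map σ.toEmbedding = T := by
  obtain ⟨e⟩ : Nonempty ({x // x ∈ S} ≃ {x // x ∈ T}) := by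
    apply Fintype.card_eq.1
    rw [Fintype.card_coe, Fintype.card_coe, h]
  refine ⟨e.extendSubtype, ?_⟩
  apply eq_of_subset_of_card_le
  · intro x hx
    rw [mem_map] at hx
    obtain ⟨a, ha, rfl⟩ := hx
    exact e.extendSubtype_mem a ha
  · rw [card_map, h]

theorem card_free' {V : Type} [Fintype V] [DecidableEq V] {m : ℕ} (χ₀ : V → Fin m)
    (T : Finset V) [DecidablePred fun χ : V → Fin m => ∀ v, v ∉ T → χ v = χ₀ v] :
    (univ.filter fun χ : V → Fin m => ∀ v, v ∉ T → χ v = χ₀ v).card = m ^ T.card := by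
  have e : (univ.filter fun χ : V → Fin m => ∀ v, v ∉ T → χ v = χ₀ v) =
      Fintype.piFinset (fun v => if v ∈ T then (univ : Finset (Fin m)) else {χ₀ v}) := by
    ext χ
    simp only [mem_filter, mem_univ, true_and, Fintype.mem_piFinset]
    refine forall_congr' fun v => ?_
    by_cases hv : v ∈ T <;> simp [hv]
  rw [e, Fintype.card_piFinset]
  have e2 : ∀ v : V, (if v ∈ T then (univ : Finset (Fin m)) else {χ₀ v}).card =
      if v ∈ T then m else 1 := by
    intro v
    split_ifs <;> simp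
  simp_rw [e2]
  rw [prod_ite_mem, univ_inter, prod_const]

theorem card_fix {r N : ℕ} (hN : 0 < N) (i : Fin r) :
    (univ.filter fun ω : Fin r → Fin N => (ω i : ℕ) = 0).card ≤ N ^ (r - 1) := by
  obtain ⟨T, hT, hTc⟩ : ∃ T : Finset (Fin r), (∀ v, v ∈ T ↔ v ≠ i) ∧ T.card = r - 1 :=
    ⟨univ.erase i, fun v => by simp, by
      rw [card_erase_of_mem (mem_univ i), card_univ, Fintype.card_fin]⟩
  rw [← hTc]
  refine le_trans (card_le_card ?_) (le_of_eq (card_free' (fun _ => (⟨0, hN⟩ : Fin N)) T))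
  intro ω hω
  rw [mem_filter] at hω ⊢
  refine ⟨mem_univ _, fun v hv => ?_⟩
  rw [hT, not_not] at hv
  rw [hv]
  exact Fin.ext hω.2

/-- Coupling of a uniformly random colour with `r` rare independent events. -/
theorem exists_coupling (m r : ℕ) (hm : 1 ≤ m) (hr : 1 ≤ r) (c : Fin m) :
    ∃ e : (Fin r → Fin (m * r)) ≃ Fin m × Fin (m ^ (r - 1) * r ^ r),
      ∀ ω, (∃ i, (ω i : ℕ) = 0) → (e ω).1 = c := by
  have hmr : 0 < m * r := Nat.mul_pos hm hr
  have hcard : Fintype.card (Fin r → Fin (m * r)) =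
      Fintype.card (Fin m × Fin (m ^ (r - 1) * r ^ r)) := by
    rw [Fintype.card_fun, Fintype.card_prod, Fintype.card_fin, Fintype.card_fin, Fintype.card_fin,
      Fintype.card_fin, mul_pow, ← mul_assoc, ← pow_succ']
    congr 2
    omega
  obtain ⟨e₀⟩ := Fintype.card_eq.1 hcard
  obtain ⟨Z, hZ⟩ : ∃ Z : Finset (Fin r → Fin (m * r)),
      Z = univ.filter fun ω => ∃ i, (ω i : ℕ) = 0 := ⟨_, rfl⟩
  have hZc : Z.card ≤ m ^ (r - 1) * r ^ r := by
    have h1 : Z ⊆ (univ : Finset (Fin r)).biUnion fun i =>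
        univ.filter fun ω : Fin r → Fin (m * r) => (ω i : ℕ) = 0 := by
      intro ω hω
      rw [hZ, mem_filter] at hω
      obtain ⟨i, hi⟩ := hω.2
      rw [mem_biUnion]
      refine ⟨i, mem_univ _, ?_⟩
      rw [mem_filter]
      exact ⟨mem_univ _, hi⟩
    refine ((card_le_card h1).trans card_biUnion_le).trans ?_
    calc ∑ i : Fin r, (univ.filter fun ω : Fin r → Fin (m * r) => (ω i : ℕ) = 0).card
        ≤ ∑ _i : Fin r, (m * r) ^ (r - 1) := sum_le_sum fun i _ => card_fix hmr i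
      _ = r * (m * r) ^ (r - 1) := by rw [sum_const, card_univ, Fintype.card_fin, smul_eq_mul]
      _ = m ^ (r - 1) * (r * r ^ (r - 1)) := by rw [mul_pow]; ring
      _ = m ^ (r - 1) * r ^ r := by
          rw [← pow_succ']
          congr 2
          omega
      _ ≤ m ^ (r - 1) * r ^ r := le_rfl
  obtain ⟨Y, hY⟩ : ∃ Y : Finset (Fin m × Fin (m ^ (r - 1) * r ^ r)),
      Y = ({c} : Finset (Fin m)) ×ˢ univ := ⟨_, rfl⟩
  have hYc : Y.card = m ^ (r - 1) * r ^ r := by
    rw [hY, card_product, card_singleton, card_univ, Fintype.card_fin, one_mul]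
  obtain ⟨Y', hY', hY'c⟩ := exists_subset_card_eq (s := Y) (n := Z.card) (by rw [hYc]; exact hZc)
  obtain ⟨σ, hσ⟩ := exists_perm_of (S := Z.map e₀.toEmbedding) (T := Y') (by rw [card_map, hY'c])
  refine ⟨e₀.trans σ, fun ω hω => ?_⟩
  have h1 : σ (e₀ ω) ∈ Y' := by
    rw [← hσ, mem_map]
    refine ⟨e₀ ω, ?_, rfl⟩
    rw [mem_map]
    exact ⟨ω, by rw [hZ, mem_filter]; exact ⟨mem_univ _, hω⟩, rfl⟩
  have h2 := hY' h1
  rw [hY, mem_product, mem_singleton] at h2
  exact h2.1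

/-- Amplification: `r` independent attempts. -/
theorem amplify {X : Type} [Fintype X] [DecidableEq X] (T : Finset (Finset X)) (m r : ℕ)
    (hm : 1 ≤ m) (hr : 1 ≤ r) (t : X → Fin m)
    (h : 2 * (univ.filter fun ζ : X → Fin (m * r) => ¬ ∃ W ∈ T, W ⊆ zset (m * r) ζ).card ≤
      (m * r) ^ Fintype.card X) :
    2 ^ r * (univ.filter fun χ : X → Fin m => ¬ ∃ W ∈ T, ∀ v ∈ W, χ v = t v).card ≤
      m ^ Fintype.card X := by
  choose e he using fun v => exists_coupling m r hm hr (t v)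
  obtain ⟨f, hf⟩ : ∃ f, f = m ^ (r - 1) * r ^ r := ⟨_, rfl⟩
  obtain ⟨A, hA⟩ : ∃ A : Finset (X → Fin r → Fin (m * r)),
      A = univ.filter fun Ψ => ¬ ∃ W ∈ T, ∀ v ∈ W, (e v (Ψ v)).1 = t v := ⟨_, rfl⟩
  obtain ⟨N, hN⟩ : ∃ N, N = univ.filter fun χ : X → Fin m => ¬ ∃ W ∈ T, ∀ v ∈ W, χ v = t v :=
    ⟨_, rfl⟩
  obtain ⟨Z, hZ⟩ : ∃ Z, Z = univ.filter fun ζ : X → Fin (m * r) =>
    ¬ ∃ W ∈ T, W ⊆ zset (m * r) ζ := ⟨_, rfl⟩
  rw [← hZ] at h
  rw [← hN]
  have h1 : N.card * f ^ Fintype.card X ≤ A.card := by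
    have : N.card * f ^ Fintype.card X =
        (N ×ˢ (univ : Finset (X → Fin (m ^ (r - 1) * r ^ r)))).card := by
      rw [card_product, card_univ, Fintype.card_fun, Fintype.card_fin, hf]
    rw [this]
    apply card_le_card_of_injOn (fun p => fun v => (e v).symm (p.1 v, p.2 v))
    · intro p hp
      rw [mem_coe, mem_product, hN, mem_filter] at hp
      rw [mem_coe, hA, mem_filter]
      refine ⟨mem_univ _, ?_⟩
      simp only [Equiv.apply_symm_apply]
      exact hp.1.2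
    · intro p _ p' _ hpp
      have : ∀ v, (p.1 v, p.2 v) = (p'.1 v, p'.2 v) := fun v =>
        (e v).symm.injective (congrFun hpp v)
      exact Prod.ext (funext fun v => (Prod.ext_iff.1 (this v)).1)
        (funext fun v => (Prod.ext_iff.1 (this v)).2)
  have h2 : A.card ≤ Z.card ^ r := by
    have : Z.card ^ r = (Fintype.piFinset fun _ : Fin r => Z).card := by
      rw [Fintype.card_piFinset, prod_const, card_univ, Fintype.card_fin]
    rw [this]
    apply card_le_card_of_injOn (fun Ψ => fun i v => Ψ v i)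
    · intro Ψ hΨ
      rw [mem_coe, hA, mem_filter] at hΨ
      rw [mem_coe, Fintype.mem_piFinset]
      intro i
      rw [hZ, mem_filter]
      refine ⟨mem_univ _, ?_⟩
      rintro ⟨W, hW, hWz⟩
      apply hΨ.2
      refine ⟨W, hW, fun v hv => he v _ ⟨i, ?_⟩⟩
      have := hWz hv
      rw [zset, mem_filter] at this
      exact this.2
    · intro Ψ _ Ψ' _ hΨ
      funext v i
      exact congrFun (congrFun hΨ i) v
  have hf0 : 0 < f ^ Fintype.card X := by
    rw [hf]
    positivity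
  apply Nat.le_of_mul_le_mul_right _ hf0
  calc 2 ^ r * N.card * f ^ Fintype.card X = 2 ^ r * (N.card * f ^ Fintype.card X) := by ring
    _ ≤ 2 ^ r * Z.card ^ r := Nat.mul_le_mul_left _ (h1.trans h2)
    _ = (2 * Z.card) ^ r := by rw [mul_pow]
    _ ≤ ((m * r) ^ Fintype.card X) ^ r := Nat.pow_le_pow_left h r
    _ = ((m * r) ^ r) ^ Fintype.card X := by rw [← pow_mul, ← pow_mul, mul_comm r]
    _ = (m * f) ^ Fintype.card X := by
        congr 1
        rw [hf, mul_pow, ← mul_assoc, ← pow_succ']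
        congr 2
        omega
    _ = m ^ Fintype.card X * f ^ Fintype.card X := by rw [mul_pow]

end Pool.Agent.T9h35.Sharp
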