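import Pool.Agent.T9h35.Sharp.Robust

set_option autoImplicit false

namespace Pool.Agent.T9h35.Sharp

open Finset Pool.Agent.T9h35.Sharp.Moment
open scoped Classical

section
variable {κ w m : ℕ}

/-- Robust sunflowers for random colourings: in a large family of transversals of the same parts
there is a core `K` such that for almost all colourings which are rainbow on `K` some member of the
family is rainbow. -/
theorem sunflower (r b : ℕ) (hm : 1 ≤ m) (hr : 1 ≤ r) (hb : 2 * m ≤ b) (P : Finset (Fin κ))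
    (hP : P.card ≤ m) (F : Finset (Finset (Fin κ × Fin w)))
    (hF : ∀ W ∈ F, W.image Prod.fst = P ∧ W.card = P.card)
    (hbig : (b * (m * r)) ^ P.card < F.card) :
    ∃ K, (∃ W ∈ F, K ⊂ W) ∧
      2 ^ r * (univ.filter fun χ : Fin κ × Fin w → Fin m =>
        ¬ Mono χ K ∧ ∀ W ∈ F, Mono χ W).card ≤ m ^ Fintype.card (Fin κ × Fin w) := by
  obtain ⟨D, hD⟩ : ∃ D, D = m * r := ⟨_, rfl⟩
  rw [← hD] at hbig
  have hD0 : 0 < D := by rw [hD]; exact Nat.mul_pos hm hr
  have hbD : 0 < b * D := Nat.mul_pos (by omega) hD0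
  -- choose the core
  obtain ⟨C, hC⟩ : ∃ C : Finset (Finset (Fin κ × Fin w)), C = univ.filter fun K =>
      K.card ≤ P.card ∧ (b * D) ^ (P.card - K.card) < (F.filter fun W => K ⊆ W).card := ⟨_, rfl⟩
  have hCne : C.Nonempty := by
    refine ⟨∅, ?_⟩
    rw [hC, mem_filter]
    refine ⟨mem_univ _, by simp, ?_⟩
    simpa using hbig
  obtain ⟨K, hKC, hKmax⟩ := exists_max_image C Finset.card hCne
  rw [hC, mem_filter] at hKC
  obtain ⟨-, hKP, hKbig⟩ := hKC
  obtain ⟨FK, hFK⟩ : ∃ FK, FK = F.filter fun W => K ⊆ W := ⟨_, rfl⟩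
  rw [← hFK] at hKbig
  have hFKm : ∀ W ∈ FK, W ∈ F ∧ K ⊆ W := by
    intro W hW
    rw [hFK, mem_filter] at hW
    exact hW
  have hKlt : K.card < P.card := by
    rcases lt_or_eq_of_le hKP with h | h
    · exact h
    · exfalso
      rw [h, Nat.sub_self, pow_zero] at hKbig
      have : FK ⊆ {K} := by
        intro W hW
        rw [mem_singleton]
        have h1 := hFKm W hW
        exact (eq_of_subset_of_card_le h1.2 (by rw [(hF W h1.1).2, h])).symm
      have := card_le_card this
      rw [card_singleton] at this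
      omega
  have hinj : ∀ W ∈ F, Set.InjOn Prod.fst (W : Set (Fin κ × Fin w)) := by
    intro W hW
    apply card_image_iff.1
    rw [(hF W hW).1, (hF W hW).2]
  obtain ⟨W₀, hW₀⟩ : ∃ W₀, W₀ ∈ FK := by
    apply card_pos.1
    omega
  have hW₀F := hFKm W₀ hW₀
  have hKsub : K ⊂ W₀ := by
    refine ssubset_of_subset_of_ne hW₀F.2 ?_
    intro h
    rw [h, (hF W₀ hW₀F.1).2] at hKlt
    exact lt_irrefl _ hKlt
  refine ⟨K, ⟨W₀, hW₀F.1, hKsub⟩, ?_⟩
  -- the link of the core
  obtain ⟨T, hT⟩ : ∃ T, T = FK.image fun W => W \ K := ⟨_, rfl⟩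
  have hTc : T.card = FK.card := by
    rw [hT]
    apply card_image_of_injOn
    intro W hW W' hW' h
    have h1 := (hFKm W hW).2
    have h2 := (hFKm W' hW').2
    simp only at h
    calc W = K ∪ (W \ K) := (union_sdiff_of_subset h1).symm
      _ = K ∪ (W' \ K) := by rw [h]
      _ = W' := union_sdiff_of_subset h2
  have hTcard : ∀ S ∈ T, S.card = P.card - K.card := by
    intro S hS
    rw [hT, mem_image] at hS
    obtain ⟨W, hW, rfl⟩ := hS
    rw [card_sdiff_of_subset (hFKm W hW).2, (hF W (hFKm W hW).1).2]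
  have hhalf : 2 * (univ.filter fun ζ : Fin κ × Fin w → Fin D =>
      ¬ ∃ S ∈ T, S ⊆ zset D ζ).card ≤ D ^ Fintype.card (Fin κ × Fin w) := by
    apply half_hit (n := P.card - K.card) hD0 (b := b) (by omega) T hTcard
    · intro A hA
      by_cases hAK : Disjoint A K
      · -- the sets of the link which contain `A` come from the sets which contain `K ∪ A`
        have h1 : (T.filter fun S => A ⊆ S).card ≤ (F.filter fun W => K ∪ A ⊆ W).card := by
          have h2 : (T.filter fun S => A ⊆ S) ⊆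
              (F.filter fun W => K ∪ A ⊆ W).image fun W => W \ K := by
            intro S hS
            rw [mem_filter, hT, mem_image] at hS
            obtain ⟨⟨W, hW, rfl⟩, hAS⟩ := hS
            rw [mem_image]
            refine ⟨W, ?_, rfl⟩
            rw [mem_filter]
            exact ⟨(hFKm W hW).1, union_subset (hFKm W hW).2 (hAS.trans sdiff_subset)⟩
          exact (card_le_card h2).trans card_image_le
        refine h1.trans ?_
        have hc : (K ∪ A).card = K.card + A.card := card_union_of_disjoint hAK.symm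
        have hA1 : 1 ≤ A.card := card_pos.2 hA
        by_cases hle : (K ∪ A).card ≤ P.card
        · by_contra hcon
          rw [not_le] at hcon
          have : K ∪ A ∈ C := by
            rw [hC, mem_filter]
            refine ⟨mem_univ _, hle, ?_⟩
            rw [hc, ← Nat.sub_sub]
            exact hcon
          have := hKmax _ this
          omega
        · have : (F.filter fun W => K ∪ A ⊆ W) = ∅ := by
            rw [filter_eq_empty_iff]
            intro W hW hsub
            have := card_le_card hsub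
            rw [(hF W hW).2] at this
            omega
          rw [this, card_empty]
          exact Nat.zero_le _
      · have : (T.filter fun S => A ⊆ S) = ∅ := by
          rw [filter_eq_empty_iff]
          intro S hS hAS
          rw [hT, mem_image] at hS
          obtain ⟨W, hW, rfl⟩ := hS
          exact hAK (disjoint_of_subset_left hAS sdiff_disjoint)
        rw [this, card_empty]
        exact Nat.zero_le _
    · rw [hTc]
      exact hKbig
  -- the target colours, given the colours of the core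
  have htarget : ∀ χ₀ : Fin κ × Fin w → Fin m, ¬ Mono χ₀ K → ∃ t : Fin κ × Fin w → Fin m,
      ∀ W ∈ FK, ∀ χ : Fin κ × Fin w → Fin m, (∀ v ∈ W \ K, χ v = t v) → (∀ v ∈ K, χ v = χ₀ v) →
        ¬ Mono χ W := by
    intro χ₀ hχ₀
    have hKP' : K.image Prod.fst ⊆ P := by
      rw [← (hF W₀ hW₀F.1).1]
      exact image_subset_image hW₀F.2
    have hKc : (K.image Prod.fst).card = K.card := by
      apply card_image_of_injOn
      exact (hinj W₀ hW₀F.1).mono (by exact_mod_cast hW₀F.2)
    have hχc : (K.image χ₀).card = K.card := by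
      apply card_image_of_injOn
      intro u hu v hv huv
      by_contra hne
      exact hχ₀ ⟨u, hu, v, hv, hne, huv⟩
    have hcard : Fintype.card {p : Fin κ // p ∈ P \ K.image Prod.fst} ≤
        Fintype.card {a : Fin m // a ∉ K.image χ₀} := by
      rw [Fintype.card_coe, Fintype.card_subtype_compl, Fintype.card_coe, Fintype.card_fin, hχc,
        card_sdiff_of_subset hKP', hKc]
      omega
    obtain ⟨c⟩ := Function.Embedding.nonempty_of_card_le hcard
    refine ⟨fun v => if h : v.1 ∈ P \ K.image Prod.fst then (c ⟨v.1, h⟩ : Fin m) else ⟨0, hm⟩, ?_⟩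
    intro W hW χ hχ1 hχ2
    obtain ⟨hWF, hKW⟩ := hFKm W hW
    have hpart : ∀ v ∈ W \ K, v.1 ∈ P \ K.image Prod.fst := by
      intro v hv
      rw [mem_sdiff] at hv
      rw [mem_sdiff]
      refine ⟨?_, ?_⟩
      · rw [← (hF W hWF).1]
        exact mem_image_of_mem _ hv.1
      · intro hcon
        rw [mem_image] at hcon
        obtain ⟨k, hk, hkv⟩ := hcon
        have := hinj W hWF (hKW hk) hv.1 hkv
        rw [this] at hk
        exact hv.2 hk
    have hval : ∀ v (hv : v ∈ W \ K), χ v = (c ⟨v.1, hpart v hv⟩ : Fin m) := by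
      intro v hv
      rw [hχ1 v hv]
      exact dif_pos (hpart v hv)
    rintro ⟨u, hu, v, hv, hne, huv⟩
    by_cases huK : u ∈ K <;> by_cases hvK : v ∈ K
    · exact hχ₀ ⟨u, huK, v, hvK, hne, by rw [← hχ2 u huK, ← hχ2 v hvK, huv]⟩
    · have hv' : v ∈ W \ K := mem_sdiff.2 ⟨hv, hvK⟩
      apply (c ⟨v.1, hpart v hv'⟩).2
      rw [← hval v hv', ← huv, hχ2 u huK]
      exact mem_image_of_mem _ huK
    · have hu' : u ∈ W \ K := mem_sdiff.2 ⟨hu, huK⟩
      apply (c ⟨u.1, hpart u hu'⟩).2
      rw [← hval u hu', huv, hχ2 v hvK]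
      exact mem_image_of_mem _ hvK
    · have hu' : u ∈ W \ K := mem_sdiff.2 ⟨hu, huK⟩
      have hv' : v ∈ W \ K := mem_sdiff.2 ⟨hv, hvK⟩
      rw [hval u hu', hval v hv'] at huv
      have h1 := c.injective (Subtype.ext huv)
      have h2 : u.1 = v.1 := Subtype.ext_iff.1 h1
      exact hne (hinj W hWF hu hv h2)
  -- for a fixed colouring of the core almost all extensions are good
  obtain ⟨mix, hmix⟩ : ∃ mix : (Fin κ × Fin w → Fin m) → (Fin κ × Fin w → Fin m) →
      Fin κ × Fin w → Fin m, ∀ a b v, mix a b v = if v ∈ K then a v else b v :=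
    ⟨_, fun _ _ _ => rfl⟩
  have hfix : ∀ χ₀ : Fin κ × Fin w → Fin m, ¬ Mono χ₀ K →
      2 ^ r * (univ.filter fun χ => ∀ W ∈ FK, Mono (mix χ₀ χ) W).card ≤
        m ^ Fintype.card (Fin κ × Fin w) := by
    intro χ₀ hχ₀
    obtain ⟨t, ht⟩ := htarget χ₀ hχ₀
    rw [hD] at hhalf
    refine le_trans (Nat.mul_le_mul_left _ (card_le_card ?_)) (amplify T m r hm hr t hhalf)
    intro χ hχ
    rw [mem_filter] at hχ
    rw [mem_filter]
    refine ⟨mem_univ _, ?_⟩
    rintro ⟨S, hS, hSχ⟩
    rw [hT, mem_image] at hS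
    obtain ⟨W, hW, rfl⟩ := hS
    refine ht W hW (mix χ₀ χ) ?_ ?_ (hχ.2 W hW)
    · intro v hv
      rw [hmix, if_neg (mem_sdiff.1 hv).2]
      exact hSχ v hv
    · intro v hv
      rw [hmix, if_pos hv]
  -- double counting
  obtain ⟨Bad, hBad⟩ : ∃ Bad, Bad = univ.filter fun χ : Fin κ × Fin w → Fin m =>
        ¬ Mono χ K ∧ ∀ W ∈ F, Mono χ W := ⟨_, rfl⟩
  rw [← hBad]
  obtain ⟨Pr, hPr⟩ : ∃ Pr : Finset (Σ _ : Fin κ × Fin w → Fin m, Fin κ × Fin w → Fin m), Pr =
      (univ.filter fun χ₀ : Fin κ × Fin w → Fin m => ¬ Mono χ₀ K).sigma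
        fun χ₀ => univ.filter fun χ => ∀ W ∈ FK, Mono (mix χ₀ χ) W := ⟨_, rfl⟩
  have hM0 : 0 < m ^ Fintype.card (Fin κ × Fin w) := Nat.pow_pos hm
  have h1 : Bad.card * m ^ Fintype.card (Fin κ × Fin w) ≤ Pr.card := by
    have : Bad.card * m ^ Fintype.card (Fin κ × Fin w) =
        (Bad ×ˢ (univ : Finset (Fin κ × Fin w → Fin m))).card := by
      rw [card_product, card_univ, Fintype.card_fun, Fintype.card_fin]
    rw [this]
    have hmm : ∀ a b, mix (mix a b) (mix b a) = a := by
      intro a b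
      funext v
      rw [hmix, hmix, hmix]
      by_cases hv : v ∈ K <;> simp [hv]
    apply card_le_card_of_injOn (fun p => ⟨mix p.1 p.2, mix p.2 p.1⟩)
    · intro p hp
      rw [mem_coe, mem_product, hBad, mem_filter] at hp
      rw [mem_coe, hPr, mem_sigma, mem_filter, mem_filter]
      refine ⟨⟨mem_univ _, ?_⟩, mem_univ _, ?_⟩
      · rintro ⟨u, hu, v, hv, hne, huv⟩
        apply hp.1.2.1
        refine ⟨u, hu, v, hv, hne, ?_⟩
        simp only [hmix, if_pos hu, if_pos hv] at huv
        exact huv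
      · intro W hW
        simp only [hmm]
        exact hp.1.2.2 W (hFKm W hW).1
    · intro p _ p' _ hpp
      simp only [Sigma.mk.injEq, heq_eq_eq] at hpp
      have h1 := hmm p.1 p.2
      have h2 := hmm p.2 p.1
      rw [hpp.1, hpp.2, hmm] at h1
      rw [hpp.1, hpp.2, hmm] at h2
      exact Prod.ext h1.symm h2.symm
  have h2 : 2 ^ r * Pr.card ≤ m ^ Fintype.card (Fin κ × Fin w) *
      m ^ Fintype.card (Fin κ × Fin w) := by
    rw [hPr, card_sigma, mul_sum]
    calc ∑ χ₀ ∈ univ.filter fun χ₀ : Fin κ × Fin w → Fin m => ¬ Mono χ₀ K,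
          2 ^ r * (univ.filter fun χ => ∀ W ∈ FK, Mono (mix χ₀ χ) W).card
        ≤ ∑ _χ₀ ∈ univ.filter fun χ₀ : Fin κ × Fin w → Fin m => ¬ Mono χ₀ K,
          m ^ Fintype.card (Fin κ × Fin w) :=
          sum_le_sum fun χ₀ hχ₀ => hfix χ₀ (mem_filter.1 hχ₀).2
      _ = (univ.filter fun χ₀ : Fin κ × Fin w → Fin m => ¬ Mono χ₀ K).card *
          m ^ Fintype.card (Fin κ × Fin w) := by rw [sum_const, smul_eq_mul]
      _ ≤ m ^ Fintype.card (Fin κ × Fin w) * m ^ Fintype.card (Fin κ × Fin w) := by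
          apply Nat.mul_le_mul_right
          refine (card_filter_le _ _).trans ?_
          rw [card_univ, Fintype.card_fun, Fintype.card_fin]
  apply Nat.le_of_mul_le_mul_right _ hM0
  calc 2 ^ r * Bad.card * m ^ Fintype.card (Fin κ × Fin w)
      = 2 ^ r * (Bad.card * m ^ Fintype.card (Fin κ × Fin w)) := by ring
    _ ≤ 2 ^ r * Pr.card := Nat.mul_le_mul_left _ h1
    _ ≤ m ^ Fintype.card (Fin κ × Fin w) * m ^ Fintype.card (Fin κ × Fin w) := h2

end

end Pool.Agent.T9h35.Sharp
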